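import Pool.Agent.Helper22.HB.Grp

/-!
MP_143e28_ag, project HB (helper22): degrees of functions which differ by `u ^ 2 + u`.

`deg_as`: for `0 < deg u`: `deg (u ^ 2 + u) = 2 deg u` (`u ^ 2 + u = u (u + 1)`, `deg (u + 1) = deg u`).
`as_deg`: if `deg u ≤ 0` then `deg (u ^ 2 + u) ≤ 0` and the positive parts agree (`RatFunc.intDegree_add_le`, two different
degrees: the sum has the larger one).  If `deg u = n > 0`: `s - r` has the even degree `2 n > 0`, the degrees of `r`, `s`
are odd or `≤ 0`, so the larger one of `deg r`, `deg s` is `> 2 n` (it is `≥ 2 n`), so they are equal.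
-/

set_option autoImplicit false

namespace Pool.Agent.Helper22.HB

open Polynomial OnePoint Pool.Agent.Helper28.HA

variable {k : Type*} [Field k]

theorem As_add_of_lt {r s : RatFunc k} (hr : r ≠ 0) (h : s = 0 ∨ s.intDegree < r.intDegree) :
    r + s ≠ 0 ∧ (r + s).intDegree = r.intDegree := by
  rcases h with h | h
  · subst h; simp [hr]
  · have hs0 : s ≠ 0 ∨ s = 0 := (em (s = 0)).symm
    rcases hs0 with hs | hs
    · have h1 : r + s ≠ 0 := by
        intro h0
        have : r = -s := by linear_combination h0
        rw [this, RatFunc.intDegree_neg] at h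
        exact lt_irrefl _ h
      refine ⟨h1, le_antisymm ?_ ?_⟩
      · have := RatFunc.intDegree_add_le hs h1
        rwa [max_eq_left h.le] at this
      · by_contra hlt
        push Not at hlt
        have h2 : r = (r + s) + (-s) := by ring
        have h3 : (r + s) + (-s) ≠ 0 := by rw [← h2]; exact hr
        have h4 := RatFunc.intDegree_add_le (neg_ne_zero.2 hs) h3
        rw [← h2, RatFunc.intDegree_neg] at h4
        rcases le_max_iff.1 h4 with h5 | h5
        · exact absurd hlt (not_lt.2 h5)
        · exact absurd h (not_lt.2 h5)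
    · subst hs; simp [hr]

theorem deg_as {u : RatFunc k} (h : 0 < u.intDegree) :
    u ^ 2 + u ≠ 0 ∧ (u ^ 2 + u).intDegree = 2 * u.intDegree := by
  have hu : u ≠ 0 := by rintro rfl; simp at h
  have h2 : (u ^ 2).intDegree = 2 * u.intDegree := by
    rw [pow_two, RatFunc.intDegree_mul hu hu]; ring
  have h3 := As_add_of_lt (r := u ^ 2) (s := u) (pow_ne_zero 2 hu) (Or.inr (by rw [h2]; linarith))
  rw [h2] at h3
  exact h3

theorem As_le {u : RatFunc k} (h : u.intDegree ≤ 0) : (u ^ 2 + u).intDegree ≤ 0 := by
  by_cases hu : u = 0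
  · subst hu; simp
  by_cases h0 : u ^ 2 + u = 0
  · rw [h0]; simp
  have h2 : (u ^ 2).intDegree = 2 * u.intDegree := by
    rw [pow_two, RatFunc.intDegree_mul hu hu]; ring
  have h3 := RatFunc.intDegree_add_le hu h0
  rw [h2] at h3
  refine h3.trans (max_le ?_ h)
  linarith

theorem As_max {r w : RatFunc k} (h : w.intDegree ≤ 0) :
    max 0 (r + w).intDegree ≤ max 0 r.intDegree := by
  by_cases hw : w = 0
  · subst hw; simp
  by_cases h0 : r + w = 0
  · rw [h0]; simp
  have := RatFunc.intDegree_add_le hw h0
  refine max_le (le_max_left _ _) (this.trans (max_le (le_max_right _ _) (h.trans (le_max_left _ _))))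

theorem as_deg {r s u : RatFunc k} (h : s = r + u ^ 2 + u)
    (hr : 0 < r.intDegree → Odd r.intDegree) (hs : 0 < s.intDegree → Odd s.intDegree) :
    max 0 r.intDegree = max 0 s.intDegree := by
  have h' : s = r + (u ^ 2 + u) := by rw [h]; ring
  rcases le_or_gt u.intDegree 0 with hu | hu
  · have hw := As_le hu
    apply le_antisymm
    · have h3 : r = s + (-(u ^ 2 + u)) := by rw [h']; ring
      have h4 := As_max (r := s) (w := -(u ^ 2 + u)) (by rw [RatFunc.intDegree_neg]; exact hw)
      rw [← h3] at h4
      exact h4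
    · rw [h']
      exact As_max hw
  · obtain ⟨hne, hdeg⟩ := deg_as hu
    have hodd : ∀ t : RatFunc k, (0 < t.intDegree → Odd t.intDegree) →
        t.intDegree ≠ 2 * u.intDegree := by
      intro t ht he
      have h5 := ht (by rw [he]; linarith)
      rw [he] at h5
      exact (Int.not_odd_iff_even.2 ⟨u.intDegree, by ring⟩) h5
    rcases lt_trichotomy r.intDegree (2 * u.intDegree) with h5 | h5 | h5
    · exfalso
      have h6 := As_add_of_lt (r := u ^ 2 + u) (s := r) hne (Or.inr (by rw [hdeg]; exact h5))
      have h7 : u ^ 2 + u + r = s := by rw [h']; ring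
      rw [h7, hdeg] at h6
      exact hodd s hs h6.2
    · exact absurd h5 (hodd r hr)
    · have hr0 : r ≠ 0 := by
        rintro rfl
        simp at h5
        linarith
      have h6 := As_add_of_lt (r := r) (s := u ^ 2 + u) hr0 (Or.inr (by rw [hdeg]; exact h5))
      rw [← h'] at h6
      rw [h6.2]

end Pool.Agent.Helper22.HB
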