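import Pool.Agent.Helper22.HB.Sub

/-!
MP_143e28_ag, project HB (helper22): the group of the Moebius transformations preserving the class of `A / B`.
-/

set_option autoImplicit false

namespace Pool.Agent.Helper22.HB

open Polynomial OnePoint Pool.Agent.Helper28.HA

variable {k : Type*} [Field k]

theorem rf2 [CharP k 2] (r : RatFunc k) : r + r = 0 := by
  have h : (2 : RatFunc k) = 0 := by
    have h1 : ((2 : ℕ) : k) = 0 := CharP.cast_eq_zero k 2
    have h2 : ((2 : ℕ) : RatFunc k) = algebraMap k (RatFunc k) ((2 : ℕ) : k) :=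
      (map_natCast _ 2).symm
    rw [h1, map_zero] at h2
    exact_mod_cast h2
  rw [← two_mul, h, zero_mul]

theorem rf_neg [CharP k 2] (r : RatFunc k) : -r = r := by
  have := rf2 r
  exact neg_eq_of_add_eq_zero_left this

/-- the Moebius transformations `M` with `f (M X) = f + u ^ 2 + u` for some rational function `u`, where
`f = A / B` -/
noncomputable def grp [CharP k 2] (A B : k[X]) : Subgroup (Equiv.Perm (OnePoint k)) where
  carrier := {s | ∃ M : GL (Fin 2) k, s = mact M ∧
    ∃ u : RatFunc k, sub M (rf A B) = rf A B + u ^ 2 + u}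
  one_mem' := ⟨1, (map_one _).symm, 0, by rw [sub_one]; ring⟩
  mul_mem' := by
    rintro _ _ ⟨M, rfl, u, hu⟩ ⟨N, rfl, w, hw⟩
    refine ⟨M * N, (map_mul _ _ _).symm, sub N u + w, ?_⟩
    rw [← sub_sub, hu, map_add, map_add, map_pow, hw]
    linear_combination -(rf2 (sub N u * w))
  inv_mem' := by
    rintro _ ⟨M, rfl, u, hu⟩
    refine ⟨M⁻¹, (map_inv _ _).symm, sub M⁻¹ u, ?_⟩
    have h := congrArg (sub M⁻¹) hu
    rw [sub_sub, mul_inv_cancel, sub_one, map_add, map_add, map_pow] at h
    linear_combination -h - rf2 ((sub M⁻¹ u) ^ 2) - rf2 (sub M⁻¹ u)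

theorem mem_grp [CharP k 2] {A B : k[X]} {s : Equiv.Perm (OnePoint k)} :
    s ∈ grp A B ↔ ∃ M : GL (Fin 2) k, s = mact M ∧
      ∃ u : RatFunc k, sub M (rf A B) = rf A B + u ^ 2 + u := Iff.rfl

theorem grp_mob [CharP k 2] (A B : k[X]) : MobGroup (grp A B) := by
  rintro s ⟨M, h, -⟩
  exact ⟨M, h⟩

end Pool.Agent.Helper22.HB
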