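import Pool.Agent.Helper22.HB.Mem
import Pool.Agent.Helper22.HB.Grp
import Pool.Agent.Helper28.HA.B1

/-!
MP_143e28_ag, project HB (helper22): the equation of an automorphism, and the bound for the automorphism group.

`auto_sub`: `s ∘ i` and `i ∘ sub M` agree at `X` (`hom_ext`).  `auto_eqn`: `s y = i u + i w y` (`dec2`), `(s y) ^ 2 + s y = s (i f) = i (sub M f)`; the left side
is `i (u ^ 2 + u + w ^ 2 f) + i (w ^ 2 + w) y` (characteristic 2), `y ∉ k(x)`: `w ^ 2 + w = 0`; `w = 0` is impossible (then `s y ∈ k(x)`, so `y ∈ k(s⁻¹ x) ⊆ k(x)`,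
`auto_mem2` for `s.symm`); `w = 1`.
`auto_two`: `s x = t x`: `(s y) ^ 2 + s y = (t y) ^ 2 + t y`, so `s y = t y` or `s y = t y + 1`; an automorphism is determined by the images of `x`, `y`.
`auto_group2`: to `s` belongs `M_s` (`mob_of_mem`, unique up to scalars), `mact M_s ∈ grp A B` (`auto_eqn`); `s`, `t` with `mact M_s = mact M_t` have `s x = t x`
(`M_s`, `M_t` agree on the infinite set `k`, so are proportional); so the fibres of `s ↦ mact M_s` have at most two elements.
-/

set_option autoImplicit false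

namespace Pool.Agent.Helper22.HB

open Polynomial OnePoint Pool.Agent.Helper28.HA

variable {k F : Type*} [Field k] [Field F] [Algebra k F]

private theorem Aut_two [CharP k 2] : (2 : F) = 0 := by
  have h1 : ((2 : ℕ) : k) = 0 := CharP.cast_eq_zero k 2
  have h2 : ((2 : ℕ) : F) = algebraMap k F ((2 : ℕ) : k) := (map_natCast _ 2).symm
  rw [h1, map_zero] at h2
  exact_mod_cast h2

/-- `s x = M (x)` -/
private def Aut_rel (x : F) (s : F ≃ₐ[k] F) (M : GL (Fin 2) k) : Prop :=
  s x * (algebraMap k F (M 1 0) * x + algebraMap k F (M 1 1)) =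
    algebraMap k F (M 0 0) * x + algebraMap k F (M 0 1)

private theorem Aut_lin_ne {x : F} (hx : Transcendental k x) (M : GL (Fin 2) k) :
    algebraMap k F (M 1 0) * x + algebraMap k F (M 1 1) ≠ 0 := by
  intro h0
  have hp : (C (M 1 0) * X + C (M 1 1) : k[X]) = 0 := by
    by_contra hne
    exact hx ⟨C (M 1 0) * X + C (M 1 1), hne, by simpa using h0⟩
  have h1 : M 1 0 = 0 := by
    have := congrArg (fun q : k[X] => q.coeff 1) hp
    simpa [coeff_C] using this
  have h2 : M 1 1 = 0 := by
    have := congrArg (fun q : k[X] => q.coeff 0) hp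
    simpa [coeff_C] using this
  have hd := M.det_ne_zero
  rw [Matrix.det_fin_two, h1, h2] at hd
  simp at hd

private theorem Aut_eq [Infinite k] {x : F} (hx : Transcendental k x) {s s' : F ≃ₐ[k] F}
    {M M' : GL (Fin 2) k} (hs : Aut_rel x s M) (hs' : Aut_rel x s' M') (hm : mact M = mact M') :
    s x = s' x := by
  have key : ∀ a : k, (M 0 0 * a + M 0 1) * (M' 1 0 * a + M' 1 1) =
      (M' 0 0 * a + M' 0 1) * (M 1 0 * a + M 1 1) := by
    intro a
    have ha : mact M (a : OnePoint k) = mact M' (a : OnePoint k) := by rw [hm]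
    by_cases h1 : M 1 0 * a + M 1 1 = 0
    · by_cases h2 : M' 1 0 * a + M' 1 1 = 0
      · rw [h1, h2]; ring
      · rw [mact_some_zero M a h1, mact_some M' a h2] at ha
        exact absurd ha (OnePoint.infty_ne_coe _)
    · by_cases h2 : M' 1 0 * a + M' 1 1 = 0
      · rw [mact_some M a h1, mact_some_zero M' a h2] at ha
        exact absurd ha (OnePoint.coe_ne_infty _)
      · rw [mact_some M a h1, mact_some M' a h2, OnePoint.coe_eq_coe, div_eq_div_iff h1 h2] at ha
        exact ha
  have hp : ((C (M 0 0) * X + C (M 0 1)) * (C (M' 1 0) * X + C (M' 1 1)) -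
      (C (M' 0 0) * X + C (M' 0 1)) * (C (M 1 0) * X + C (M 1 1)) : k[X]) = 0 := by
    apply Polynomial.funext
    intro a
    simp only [eval_sub, eval_mul, eval_add, eval_C, eval_X, eval_zero]
    rw [key a, sub_self]
  have hq := congrArg (aeval x) hp
  simp only [map_sub, map_mul, map_add, aeval_C, aeval_X, map_zero] at hq
  have d1 := Aut_lin_ne hx M
  have d2 := Aut_lin_ne hx M'
  unfold Aut_rel at hs hs'
  have : (s x - s' x) * ((algebraMap k F (M 1 0) * x + algebraMap k F (M 1 1)) *
      (algebraMap k F (M' 1 0) * x + algebraMap k F (M' 1 1))) = 0 := by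
    linear_combination (algebraMap k F (M' 1 0) * x + algebraMap k F (M' 1 1)) * hs -
      (algebraMap k F (M 1 0) * x + algebraMap k F (M 1 1)) * hs' + hq
  rcases mul_eq_zero.mp this with h | h
  · exact sub_eq_zero.mp h
  · exact absurd h (mul_ne_zero d1 d2)

private theorem Aut_ext {g : ℕ} {x y : F} {A B : k[X]} (h : Pres2 k F g x y A B)
    {s s' : F ≃ₐ[k] F} (h1 : s x = s' x) (h2 : s y = s' y) : s = s' := by
  ext z
  have hz : z ∈ IntermediateField.adjoin k ({x, y} : Set F) := by rw [h.gen]; trivial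
  induction hz using IntermediateField.adjoin_induction with
  | mem u hu =>
    rcases hu with rfl | hu
    · exact h1
    · rw [Set.mem_singleton_iff] at hu
      rw [hu]; exact h2
  | algebraMap u => simp
  | add u v _ _ hu hv => rw [map_add, map_add, hu, hv]
  | inv u _ hu => rw [map_inv₀, map_inv₀, hu]
  | mul u v _ _ hu hv => rw [map_mul, map_mul, hu, hv]

/-- an automorphism acts on `k(x)` by the substitution -/
private theorem Aut_sub {x : F} (hx : Transcendental k x) (i : RatFunc k →ₐ[k] F)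
    (hi : i RatFunc.X = x) (s : F ≃ₐ[k] F) (M : GL (Fin 2) k)
    (hM : s x * (algebraMap k F (M 1 0) * x + algebraMap k F (M 1 1)) =
        algebraMap k F (M 0 0) * x + algebraMap k F (M 0 1)) (r : RatFunc k) :
    s (i r) = i (sub M r) := by
  have h : (s : F →ₐ[k] F).comp i = i.comp (sub M) := by
    apply hom_ext
    rw [AlgHom.comp_apply, AlgHom.comp_apply, hi, sub_X]
    have hC : ∀ c : k, i (RatFunc.C c) = algebraMap k F c := by
      intro c
      have h : RatFunc.C c = algebraMap k (RatFunc k) c := by rw [RatFunc.algebraMap_eq_C]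
      rw [h, AlgHom.commutes]
    rw [map_div₀, map_add, map_add, map_mul, map_mul, hi, hC, hC, hC, hC,
      eq_div_iff (Aut_lin_ne hx M)]
    exact hM
  have h2 := DFunLike.congr_fun h r
  exact h2

theorem auto_eqn [CharP k 2] {g : ℕ} (hg : 2 ≤ g) {x y : F} {A B : k[X]}
    (h : Pres2 k F g x y A B) (s : F ≃ₐ[k] F) (M : GL (Fin 2) k)
    (hM : s x * (algebraMap k F (M 1 0) * x + algebraMap k F (M 1 1)) =
        algebraMap k F (M 0 0) * x + algebraMap k F (M 0 1)) :
    ∃ u : RatFunc k, sub M (rf A B) = rf A B + u ^ 2 + u := by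
  have two : (2 : F) = 0 := Aut_two (k := k)
  obtain ⟨i, hi⟩ := exists_emb h.trans
  obtain ⟨u, w, hu⟩ := dec2 h i hi (s y)
  have e0 := eqn' h i hi
  have e1 : (s y) ^ 2 + s y = i (sub M (rf A B)) := by
    rw [← Aut_sub h.trans i hi s M hM, ← e0, map_add, map_pow]
  have e2 : i (w ^ 2 + w) * y = i (sub M (rf A B) - (u ^ 2 + u + w ^ 2 * rf A B)) := by
    simp only [map_add, map_sub, map_mul, map_pow]
    rw [hu] at e1
    linear_combination e1 - (i w) ^ 2 * e0 + (i w ^ 2 * y - i u * i w * y) * two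
  have hw : w ^ 2 + w = 0 := by
    by_contra hne
    apply y2_not_mem h
    rw [mem_iff i hi]
    refine ⟨(sub M (rf A B) - (u ^ 2 + u + w ^ 2 * rf A B)) / (w ^ 2 + w), ?_⟩
    have hne' : i (w ^ 2 + w) ≠ 0 := (map_ne_zero i).2 hne
    rw [map_div₀, eq_div_iff hne', mul_comm, e2]
  have hf : sub M (rf A B) = u ^ 2 + u + w ^ 2 * rf A B := by
    rw [hw, map_zero, zero_mul] at e2
    exact sub_eq_zero.1 ((map_eq_zero i).1 e2.symm)
  have hw2 : w = 0 ∨ w = -1 := by
    have h3 : w * (w + 1) = 0 := by linear_combination hw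
    rcases mul_eq_zero.1 h3 with h4 | h4
    · exact Or.inl h4
    · exact Or.inr (eq_neg_of_add_eq_zero_left h4)
  rcases hw2 with rfl | rfl
  · exfalso
    rw [map_zero, zero_mul, add_zero] at hu
    apply y2_not_mem h
    have hy : y = s.symm (i u) := by rw [← hu, AlgEquiv.symm_apply_apply]
    rw [hy]
    have h5 : i u ∈ IntermediateField.adjoin k {x} := (mem_iff i hi _).2 ⟨u, rfl⟩
    have h6 : (IntermediateField.adjoin k {x}).map (s.symm : F →ₐ[k] F)
        ≤ IntermediateField.adjoin k {x} := by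
      rw [IntermediateField.adjoin_map, IntermediateField.adjoin_le_iff]
      rintro _ ⟨z, hz, rfl⟩
      rw [Set.mem_singleton_iff] at hz
      rw [hz]
      exact auto_mem2 hg h s.symm
    exact h6 ⟨i u, h5, rfl⟩
  · exact ⟨u, by rw [hf]; ring⟩

theorem auto_two [CharP k 2] {g : ℕ} {x y : F} {A B : k[X]} (h : Pres2 k F g x y A B)
    (s t : F ≃ₐ[k] F) (hst : s x = t x) : s y = t y ∨ s y = t y + 1 := by
  have two : (2 : F) = 0 := Aut_two (k := k)
  obtain ⟨i, hi⟩ := exists_emb h.trans
  have e0 := eqn' h i hi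
  have e1 : (s : F →ₐ[k] F).comp i = (t : F →ₐ[k] F).comp i := by
    apply hom_ext
    rw [AlgHom.comp_apply, AlgHom.comp_apply, hi]
    exact hst
  have e2 : s (i (rf A B)) = t (i (rf A B)) := DFunLike.congr_fun e1 (rf A B)
  rw [← e0, map_add, map_add, map_pow, map_pow] at e2
  have e3 : (s y - t y) * (s y - (t y + 1)) = 0 := by
    linear_combination e2 + (- s y - s y * t y + t y ^ 2 + t y) * two
  rcases mul_eq_zero.1 e3 with h4 | h4
  · exact Or.inl (sub_eq_zero.1 h4)
  · exact Or.inr (sub_eq_zero.1 h4)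

theorem auto_group2 [IsAlgClosed k] [CharP k 2] {g : ℕ} (hg : 2 ≤ g) {x y : F} {A B : k[X]}
    (h : Pres2 k F g x y A B) (hf : Finite (grp A B)) :
    Finite (F ≃ₐ[k] F) ∧ Nat.card (F ≃ₐ[k] F) ≤ 2 * Nat.card (grp A B) := by
  have : Infinite k := IsAlgClosed.instInfinite
  classical
  have hM : ∀ s : F ≃ₐ[k] F, ∃ M : GL (Fin 2) k, Aut_rel x s M := by
    intro s
    obtain ⟨M, _, hM⟩ := mob_of_mem h.trans s (auto_mem2 hg h s) (auto_mem2 hg h s.symm)
    exact ⟨M, hM⟩
  choose M hM using hM
  let φ : (F ≃ₐ[k] F) → grp A B := fun s => ⟨mact (M s), M s, rfl, auto_eqn hg h s (M s) (hM s)⟩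
  have hφ : ∀ s s', φ s = φ s' → s x = s' x := by
    intro s s' hss
    exact Aut_eq h.trans (hM s) (hM s') (congrArg Subtype.val hss)
  let rep : grp A B → F := fun p => if hp : ∃ s, φ s = p then (hp.choose : F ≃ₐ[k] F) y else 0
  have hrep : ∀ s, s y = rep (φ s) ∨ s y = rep (φ s) + 1 := by
    intro s
    have hex : ∃ t, φ t = φ s := ⟨s, rfl⟩
    have : rep (φ s) = (hex.choose : F ≃ₐ[k] F) y := by
      simp only [rep, dif_pos hex]
    rw [this]
    exact auto_two h _ _ (hφ _ _ hex.choose_spec.symm)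
  let ψ : (F ≃ₐ[k] F) → Bool × grp A B := fun s => (decide (s y = rep (φ s)), φ s)
  have hψ : Function.Injective ψ := by
    intro s s' hss
    have e2 : φ s = φ s' := congrArg Prod.snd hss
    have e1 : decide (s y = rep (φ s)) = decide (s' y = rep (φ s')) := congrArg Prod.fst hss
    have e3 : (s y = rep (φ s)) ↔ (s' y = rep (φ s')) := by
      simpa using e1
    apply Aut_ext h (hφ _ _ e2)
    rw [e2] at e3
    have r1 := hrep s
    rw [e2] at r1
    have r2 := hrep s'
    by_cases hc : s y = rep (φ s')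
    · rw [hc, e3.mp hc]
    · have hc' : ¬ s' y = rep (φ s') := fun hh => hc (e3.mpr hh)
      rw [r1.resolve_left hc, r2.resolve_left hc']
  have : Finite (Bool × grp A B) := inferInstance
  refine ⟨Finite.of_injective ψ hψ, ?_⟩
  have := Nat.card_le_card_of_injective ψ hψ
  rw [Nat.card_prod] at this
  simpa using this

end Pool.Agent.Helper22.HB
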