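import Pool.Agent.Helper22.HB.Grp
import Pool.Agent.Helper28.HA.B4

/-!
MP_143e28_ag, project HB (helper22): the parabolic points of a finite group form one orbit.

Let `P`, `Q` have `2 ≤ #uni` and lie in different orbits.  `burnside`: `∑_(R) n_i (2 - q_i) = (s - 2) c + 2`, `s = #R`, `c = #G`,
`n_i = #orb`, `q_i = #uni ≥ 1` (`q_i` is constant on orbits, so two members of `R` have `q_i ≥ 2`: conjugation by `t` maps `uni G P`
to `uni G (t P)`).  The terms with `q_i ≥ 2` are `≤ 0`, the others are `n_i ≤ c / 2` (`n_i #stab = c`, `#stab ≥ 2`, `card_orb_mul`),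
so `(s - 2) c / 2 ≥ (s - 2) c + 2` with `s ≥ 2`: contradiction.
-/

set_option autoImplicit false

namespace Pool.Agent.Helper22.HB

open Polynomial OnePoint Pool.Agent.Helper28.HA

variable {k : Type*} [Field k]

omit [Field k] in
theorem Wild_orb_symm (G : Subgroup (Equiv.Perm (OnePoint k))) {P Q : OnePoint k}
    (h : Q ∈ orb G P) : P ∈ orb G Q := by
  obtain ⟨g, hg, rfl⟩ := h
  exact ⟨g⁻¹, G.inv_mem hg, by simp⟩

omit [Field k] in
theorem Wild_orb_trans (G : Subgroup (Equiv.Perm (OnePoint k))) {P Q R : OnePoint k}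
    (h : Q ∈ orb G P) (h' : R ∈ orb G Q) : R ∈ orb G P := by
  obtain ⟨g, hg, rfl⟩ := h
  obtain ⟨s, hs, rfl⟩ := h'
  exact ⟨s * g, G.mul_mem hs hg, rfl⟩

omit [Field k] in
/-- a nontrivial parabolic element at `P` gives one at every point of the orbit -/
theorem Wild_conj (G : Subgroup (Equiv.Perm (OnePoint k))) {P Q : OnePoint k}
    (h : Q ∈ orb G P) (hP : ∃ s ∈ uni G P, s ≠ 1) : ∃ s ∈ uni G Q, s ≠ 1 := by
  obtain ⟨g, hg, rfl⟩ := h
  obtain ⟨s, ⟨hs, hs'⟩, hs1⟩ := hP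
  refine ⟨g * s * g⁻¹, ⟨G.mul_mem (G.mul_mem hg hs) (G.inv_mem hg), Or.inr fun Q => ?_⟩, ?_⟩
  · show g (s (g⁻¹ Q)) = Q ↔ Q = g P
    rw [← Equiv.Perm.eq_inv_iff_eq, hs'.resolve_left hs1 (g⁻¹ Q), Equiv.Perm.inv_eq_iff_eq]
  · intro h
    apply hs1
    have h2 : s = g⁻¹ * (g * s * g⁻¹) * g := by group
    rw [h2, h]
    group

omit [Field k] in
theorem Wild_fin (G : Subgroup (Equiv.Perm (OnePoint k))) [Finite G] (P : OnePoint k) :
    (uni G P).Finite ∧ (stab G P).Finite := by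
  have hfin : (G : Set (Equiv.Perm (OnePoint k))).Finite := Set.toFinite _
  exact ⟨hfin.subset fun s hs => hs.1, hfin.subset fun s hs => hs.1⟩

omit [Field k] in
theorem Wild_uni_one (G : Subgroup (Equiv.Perm (OnePoint k))) (P : OnePoint k) :
    (1 : Equiv.Perm (OnePoint k)) ∈ uni G P := ⟨G.one_mem, Or.inl rfl⟩

omit [Field k] in
theorem Wild_uni_pos (G : Subgroup (Equiv.Perm (OnePoint k))) [Finite G] (P : OnePoint k) :
    1 ≤ Nat.card (uni G P) := by
  rw [Nat.card_coe_set_eq]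
  exact (Set.ncard_pos (Wild_fin G P).1).2 ⟨1, Wild_uni_one G P⟩

omit [Field k] in
theorem Wild_uni_two (G : Subgroup (Equiv.Perm (OnePoint k))) [Finite G] {P : OnePoint k}
    (hP : ∃ s ∈ uni G P, s ≠ 1) : 2 ≤ Nat.card (uni G P) := by
  obtain ⟨s, hs, hs1⟩ := hP
  rw [Nat.card_coe_set_eq]
  exact (Set.one_lt_ncard (Wild_fin G P).1).2 ⟨s, hs, 1, Wild_uni_one G P, hs1⟩

omit [Field k] in
theorem Wild_uni_sub (G : Subgroup (Equiv.Perm (OnePoint k))) (P : OnePoint k) :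
    uni G P ⊆ stab G P := by
  rintro s ⟨hs, rfl | h⟩
  · exact ⟨hs, rfl⟩
  · exact ⟨hs, (h P).2 rfl⟩

omit [Field k] in
theorem Wild_stab_two (G : Subgroup (Equiv.Perm (OnePoint k))) [Finite G] {P : OnePoint k}
    (hP : ∃ s ∈ uni G P, s ≠ 1) : 2 ≤ Nat.card (stab G P) := by
  have h1 := Wild_uni_two G hP
  rw [Nat.card_coe_set_eq] at h1 ⊢
  exact h1.trans (Set.ncard_le_ncard (Wild_uni_sub G P) (Wild_fin G P).2)

theorem one_wild [IsAlgClosed k] (G : Subgroup (Equiv.Perm (OnePoint k))) [Finite G]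
    (hG : MobGroup G) {P Q : OnePoint k} (hP : ∃ s ∈ uni G P, s ≠ 1) (hQ : ∃ s ∈ uni G Q, s ≠ 1) :
    Q ∈ orb G P := by
  classical
  by_contra hcon
  obtain ⟨R, hR1, hR2, hR3, hR4⟩ := burnside G hG
  obtain ⟨P', hP'R, hPP'⟩ := hR3 P (Wild_stab_two G hP)
  obtain ⟨Q', hQ'R, hQQ'⟩ := hR3 Q (Wild_stab_two G hQ)
  have hne : P' ≠ Q' := by
    rintro rfl
    exact hcon (Wild_orb_trans G (Wild_orb_symm G hPP') hQQ')
  have hP2 := Wild_uni_two G (Wild_conj G (Wild_orb_symm G hPP') hP)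
  have hQ2 := Wild_uni_two G (Wild_conj G (Wild_orb_symm G hQQ') hQ)
  set c : ℤ := (Nat.card G : ℤ) with hc
  have hc0 : 0 ≤ c := by positivity
  -- the general term
  have hn : ∀ X ∈ R, 2 * (Nat.card (orb G X) : ℤ) ≤ c := by
    intro X hX
    have h1 := (card_orb_mul G X).2
    have h2 := hR1 X hX
    have h3 : Nat.card (orb G X) * 2 ≤ Nat.card G := by
      rw [← h1]
      exact Nat.mul_le_mul_left _ h2
    have h4 : ((Nat.card (orb G X) * 2 : ℕ) : ℤ) ≤ (Nat.card G : ℤ) := by exact_mod_cast h3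
    push_cast at h4
    linarith
  have hnn : ∀ X ∈ R, 0 ≤ c - 2 * ((Nat.card (orb G X) : ℤ) * (2 - Nat.card (uni G X))) := by
    intro X hX
    have h1 := hn X hX
    have h2 : (1 : ℤ) ≤ Nat.card (uni G X) := by exact_mod_cast Wild_uni_pos G X
    have h3 : (0 : ℤ) ≤ Nat.card (orb G X) := by positivity
    nlinarith
  have hbig : ∀ X : OnePoint k, 2 ≤ Nat.card (uni G X) →
      c ≤ c - 2 * ((Nat.card (orb G X) : ℤ) * (2 - Nat.card (uni G X))) := by
    intro X hX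
    have h2 : (2 : ℤ) ≤ Nat.card (uni G X) := by exact_mod_cast hX
    have h3 : (0 : ℤ) ≤ Nat.card (orb G X) := by positivity
    nlinarith
  have hsub : ({P', Q'} : Finset (OnePoint k)) ⊆ R := by
    intro X hX
    rcases Finset.mem_insert.1 hX with rfl | hX
    · exact hP'R
    · rw [Finset.mem_singleton.1 hX]
      exact hQ'R
  have hsum := Finset.sum_le_sum_of_subset_of_nonneg hsub
    (f := fun X => c - 2 * ((Nat.card (orb G X) : ℤ) * (2 - Nat.card (uni G X))))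
    (fun X hX _ => hnn X hX)
  rw [Finset.sum_pair hne, Finset.sum_sub_distrib, ← Finset.mul_sum, hR4, Finset.sum_const,
    nsmul_eq_mul] at hsum
  have h1 := hbig P' hP2
  have h2 := hbig Q' hQ2
  have hs : (2 : ℤ) ≤ R.card := by
    have := Finset.card_le_card hsub
    rw [Finset.card_pair hne] at this
    exact_mod_cast this
  nlinarith [mul_nonneg (sub_nonneg.2 hs) hc0]

end Pool.Agent.Helper22.HB
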