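import Pool.Agent.Helper22.HB.Stab
import Pool.Agent.Helper22.HB.Wild
import Pool.Agent.Helper28.HA.B6

/-!
MP_143e28_ag, project HB (helper22): the bound for the group.

`B = {m ≠ 0}`, `N = ∑_(P ∈ B) (m P + 1) = 4 r`; `m` is constant on orbits, `orb G P ⊆ B` for `P ∈ B`.
`bound_tame`: `stab_le` gives `#stab ≤ m P`, `card_of_orb`: `#G = #orb #stab ≤ #orb m P < #orb (m P + 1) ≤ N`.
`group_bound`: if some `P ∈ B` has `uni G P = {1}`: `bound_tame`.  Otherwise every `P ∈ B` has `s ≠ 1` in `uni G P`.  `#B ≥ 3`: `B` is not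
empty (`N > 0`), `#B = 1` is excluded by `hc`, `B = {P, Q}`: `s ∈ uni G P`, `s ≠ 1` has `s Q ∈ B`, `s Q ≠ s P = P` so `s Q = Q`,
contradiction.  `mob_finite`: `G` is finite.  `one_wild`: `B = orb G P`, `n = #B`, `n (m P + 1) = 4 r`.  `card_uni` (p = 2):
`q = #uni G P = 2 ^ j`, `j ≥ 1`; `uni_dvd`: `q ∣ n - 1`, so `n` is odd, `n ≥ 3`, `n ∣ 4 r`: `n = r`; `q ∣ r - 1`, `r % 4 = 3`: `q = 2`;
`card_stab`: `#stab = 2 m'`, `m' ∣ 1`; `card_orb_mul`: `#G = 2 r < 4 r`.
-/

set_option autoImplicit false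

namespace Pool.Agent.Helper22.HB

open Polynomial OnePoint Pool.Agent.Helper28.HA

variable {k : Type*} [Field k]

omit [Field k] in
private theorem Bound_sum (m : OnePoint k → ℕ) (hf : {P | m P ≠ 0}.Finite) :
    ∑ᶠ P : OnePoint k, (if m P = 0 then 0 else m P + 1) = ∑ P ∈ hf.toFinset, (m P + 1) := by
  rw [finsum_eq_sum_of_support_subset _ (s := hf.toFinset)]
  · refine Finset.sum_congr rfl fun P hP => ?_
    rw [Set.Finite.mem_toFinset] at hP
    rw [if_neg hP]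
  · intro P hP
    rw [Function.mem_support] at hP
    rw [Set.Finite.coe_toFinset]
    intro h
    apply hP
    rw [if_pos h]

omit [Field k] in
private theorem Bound_orb_eq (G : Subgroup (Equiv.Perm (OnePoint k))) (m : OnePoint k → ℕ)
    (hm : ∀ s ∈ G, ∀ P, m (s P) = m P) {P Q : OnePoint k} (hQ : Q ∈ orb G P) : m Q = m P := by
  obtain ⟨s, hs, rfl⟩ := hQ
  exact hm s hs P

omit [Field k] in
private theorem Bound_orb_sub (G : Subgroup (Equiv.Perm (OnePoint k))) (m : OnePoint k → ℕ)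
    (hm : ∀ s ∈ G, ∀ P, m (s P) = m P) {P : OnePoint k} (hP : m P ≠ 0) :
    orb G P ⊆ {P | m P ≠ 0} := by
  intro Q hQ
  show m Q ≠ 0
  rw [Bound_orb_eq G m hm hQ]
  exact hP

omit [Field k] in
private theorem Bound_orb_sum (G : Subgroup (Equiv.Perm (OnePoint k))) (m : OnePoint k → ℕ)
    (hm : ∀ s ∈ G, ∀ P, m (s P) = m P) {P : OnePoint k} (h1 : (orb G P).Finite) :
    ∑ Q ∈ h1.toFinset, (m Q + 1) = Nat.card (orb G P) * (m P + 1) := by
  rw [Finset.sum_congr rfl (g := fun _ => m P + 1) fun Q hQ => by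
    rw [Bound_orb_eq G m hm ((Set.Finite.mem_toFinset _).1 hQ)], Finset.sum_const, smul_eq_mul,
    Nat.card_coe_set_eq, Set.ncard_eq_toFinset_card _ h1]

theorem bound_tame (G : Subgroup (Equiv.Perm (OnePoint k))) (hG : MobGroup G)
    (m : OnePoint k → ℕ) (hm : ∀ s ∈ G, ∀ P, m (s P) = m P) (hf : {P | m P ≠ 0}.Finite) {N : ℕ}
    (hsum : ∑ᶠ P : OnePoint k, (if m P = 0 then 0 else m P + 1) = N) {P : OnePoint k}
    (hP : m P ≠ 0) (ht : ∀ s ∈ stab G P, s ^ (m P) ∈ uni G P) (hu : ∀ s ∈ uni G P, s = 1) :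
    Finite G ∧ Nat.card G < N := by
  have hu1 : uni G P = {1} := by
    ext s
    rw [Set.mem_singleton_iff]
    constructor
    · exact hu s
    · rintro rfl
      exact ⟨G.one_mem, Or.inl rfl⟩
  have hucard : Nat.card (uni G P) = 1 := by
    rw [hu1, Nat.card_coe_set_eq, Set.ncard_singleton]
  obtain ⟨hs1, hs2⟩ := stab_le G hG P (Nat.pos_of_ne_zero hP) (by rw [hu1]; exact Set.finite_singleton _) ht
  rw [hucard, mul_one] at hs2
  have horb := Bound_orb_sub G m hm hP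
  have h1 : (orb G P).Finite := hf.subset horb
  obtain ⟨hfin, hcard⟩ := card_of_orb G P h1 hs1
  refine ⟨hfin, ?_⟩
  have hpos : 0 < Nat.card (orb G P) := by
    have : Finite (orb G P) := h1
    have : Nonempty (orb G P) := ⟨⟨P, 1, G.one_mem, rfl⟩⟩
    exact Nat.card_pos
  rw [Bound_sum m hf] at hsum
  calc Nat.card G = Nat.card (orb G P) * Nat.card (stab G P) := hcard.symm
    _ ≤ Nat.card (orb G P) * m P := Nat.mul_le_mul_left _ hs2
    _ < Nat.card (orb G P) * (m P + 1) := Nat.mul_lt_mul_of_pos_left (Nat.lt_succ_self _) hpos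
    _ = ∑ Q ∈ h1.toFinset, (m Q + 1) := (Bound_orb_sum G m hm h1).symm
    _ ≤ ∑ Q ∈ hf.toFinset, (m Q + 1) := by
        refine Finset.sum_le_sum_of_subset ?_
        intro Q hQ
        rw [Set.Finite.mem_toFinset] at hQ ⊢
        exact horb hQ
    _ = N := hsum

theorem group_bound [IsAlgClosed k] [CharP k 2] (G : Subgroup (Equiv.Perm (OnePoint k)))
    (hG : MobGroup G) (m : OnePoint k → ℕ) (hm : ∀ s ∈ G, ∀ P, m (s P) = m P)
    (hf : {P | m P ≠ 0}.Finite) {r : ℕ} (hr : r.Prime) (hr3 : r % 4 = 3)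
    (hsum : ∑ᶠ P : OnePoint k, (if m P = 0 then 0 else m P + 1) = 4 * r)
    (ht : ∀ P, m P ≠ 0 → ∀ s ∈ stab G P, s ^ (m P) ∈ uni G P)
    (hc : ∀ P, m P ≠ 0 → (∀ Q, m Q ≠ 0 → Q = P) → ∀ s ∈ uni G P, s = 1) :
    Finite G ∧ Nat.card G < 4 * r := by
  by_cases htame : ∃ P, m P ≠ 0 ∧ ∀ s ∈ uni G P, s = 1
  · obtain ⟨P, hP, hu⟩ := htame
    exact bound_tame G hG m hm hf hsum hP (ht P hP) hu
  push Not at htame
  have hr2 : 2 ≤ r := hr.two_le
  have hsum' := hsum
  rw [Bound_sum m hf] at hsum'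
  -- `B` is not empty
  obtain ⟨P, hP⟩ : ∃ P, m P ≠ 0 := by
    by_contra hcon
    push Not at hcon
    have h0 : hf.toFinset = ∅ := by
      ext Q
      rw [Set.Finite.mem_toFinset]
      constructor
      · intro h
        exact absurd (hcon Q) h
      · intro h
        exact absurd h (Finset.notMem_empty Q)
    rw [h0, Finset.sum_empty] at hsum'
    omega
  obtain ⟨s, hs, hs1⟩ := htame P hP
  have hfix : ∀ Q, s Q = Q ↔ Q = P := by
    rcases hs.2 with h | h
    · exact absurd h hs1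
    · exact h
  obtain ⟨Q, hQ, hQP⟩ : ∃ Q, m Q ≠ 0 ∧ Q ≠ P := by
    by_contra hcon
    push Not at hcon
    exact hs1 (hc P hP hcon s hs)
  have hsQ : s Q ≠ Q := fun h => hQP ((hfix Q).1 h)
  have hsQP : s Q ≠ P := by
    intro h
    have h2 : s P = P := (hfix P).2 rfl
    exact hQP (s.injective (h.trans h2.symm))
  have hsQB : m (s Q) ≠ 0 := by
    rw [hm s hs.1 Q]
    exact hQ
  have h3 : 3 ≤ Nat.card {P | m P ≠ 0} := by
    rw [Nat.card_coe_set_eq]
    have := (Set.two_lt_ncard_iff hf).2 ⟨P, Q, s Q, hP, hQ, hsQB, Ne.symm hQP, Ne.symm hsQP,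
      Ne.symm hsQ⟩
    omega
  obtain ⟨hfin, -⟩ := mob_finite G hG {P | m P ≠ 0} hf h3 fun t ht' R hR => by
    show m (t R) ≠ 0
    rw [hm t ht' R]
    exact hR
  refine ⟨hfin, ?_⟩
  have hB : {P | m P ≠ 0} = orb G P := by
    refine Set.Subset.antisymm ?_ (Bound_orb_sub G m hm hP)
    intro R hR
    exact one_wild G hG ⟨s, hs, hs1⟩ (htame R hR)
  obtain ⟨h1, hmul⟩ := card_orb_mul G P
  have hn : Nat.card (orb G P) * (m P + 1) = 4 * r := by
    rw [← Bound_orb_sum G m hm h1, ← hsum']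
    refine Finset.sum_congr ?_ fun _ _ => rfl
    ext R
    rw [Set.Finite.mem_toFinset, Set.Finite.mem_toFinset, hB]
  have hn3 : 3 ≤ Nat.card (orb G P) := by
    rw [← hB]
    exact h3
  have : Fact (Nat.Prime 2) := ⟨Nat.prime_two⟩
  obtain ⟨j, hj⟩ := card_uni 2 G hG P
  have hfinu : Finite (uni G P) :=
    Set.Finite.subset (s := (G : Set (Equiv.Perm (OnePoint k)))) (Set.toFinite _) fun s hs => hs.1
  have hj0 : j ≠ 0 := by
    rintro rfl
    rw [pow_zero, Nat.card_eq_one_iff_unique] at hj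
    obtain ⟨hsub, -⟩ := hj
    have h5 := hsub.elim (⟨s, hs⟩ : uni G P) ⟨1, G.one_mem, Or.inl rfl⟩
    exact hs1 (congrArg Subtype.val h5)
  have hdvd := uni_dvd G hG P
  have h2q : 2 ∣ Nat.card (uni G P) := by
    rw [hj]
    exact dvd_pow_self 2 hj0
  have h2n : 2 ∣ Nat.card (orb G P) - 1 := h2q.trans hdvd
  have hcop : Nat.Coprime (Nat.card (orb G P)) 4 := by
    have h6 : Nat.Coprime (Nat.card (orb G P)) 2 := by
      rw [Nat.coprime_two_right, Nat.odd_iff]
      omega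
    have := Nat.Coprime.pow_right 2 h6
    simpa using this
  have hnr : Nat.card (orb G P) ∣ r := hcop.dvd_of_dvd_mul_left (Dvd.intro _ hn)
  have hnr' : Nat.card (orb G P) = r := by
    rcases (Nat.dvd_prime hr).1 hnr with h | h
    · omega
    · exact h
  have hj1 : j = 1 := by
    by_contra hne
    have h7 : 4 ∣ Nat.card (uni G P) := by
      rw [hj]
      exact pow_dvd_pow 2 (show 2 ≤ j by omega)
    have h8 : 4 ∣ r - 1 := by
      rw [← hnr']
      exact h7.trans hdvd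
    omega
  rw [hj1, pow_one] at hj
  obtain ⟨m', hm1, hm2⟩ := card_stab G hG P
  rw [hj] at hm1 hm2
  have hm3 : m' = 1 := by
    have : m' ∣ 1 := hm2
    exact Nat.dvd_one.1 this
  rw [hm3] at hm1
  rw [hm1, hnr'] at hmul
  omega

end Pool.Agent.Helper22.HB
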