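import Pool.Agent.Helper22.HB.Defs

/-!
MP_143e28_ag, project HB (helper22): substitution of a Moebius transformation in a rational function.
-/

set_option autoImplicit false

namespace Pool.Agent.Helper22.HB

open Polynomial OnePoint Pool.Agent.Helper28.HA

variable {k : Type*} [Field k]

theorem hom_ext {L : Type*} [Field L] [Algebra k L] {φ ψ : RatFunc k →ₐ[k] L}
    (h : φ RatFunc.X = ψ RatFunc.X) : φ = ψ := by
  have h1 : ∀ p : k[X], φ (algebraMap k[X] (RatFunc k) p) = ψ (algebraMap k[X] (RatFunc k) p) := by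
    intro p
    have h2 : (φ.comp (Algebra.algHom k k[X] (RatFunc k))) =
        (ψ.comp (Algebra.algHom k k[X] (RatFunc k))) := by
      apply Polynomial.algHom_ext
      have h3 : (Algebra.algHom k k[X] (RatFunc k)) X = RatFunc.X := RatFunc.algebraMap_X
      rw [AlgHom.comp_apply, AlgHom.comp_apply, h3]
      exact h
    exact DFunLike.congr_fun h2 p
  ext r
  induction r using RatFunc.induction_on with
  | f p q hq =>
    rw [map_div₀, map_div₀, h1, h1]

/-- transcendental elements give embeddings of the field of rational functions -/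
theorem exists_emb {L : Type*} [Field L] [Algebra k L] {x : L} (hx : Transcendental k x) :
    ∃ i : RatFunc k →ₐ[k] L, i RatFunc.X = x := by
  have hinj : Function.Injective (aeval x : k[X] →ₐ[k] L) := transcendental_iff_injective.1 hx
  refine ⟨RatFunc.liftAlgHom (aeval x : k[X] →ₐ[k] L) ?_, ?_⟩
  · intro p hp
    rw [Submonoid.mem_comap]
    refine mem_nonZeroDivisors_of_ne_zero ?_
    intro h0
    exact nonZeroDivisors.ne_zero hp (hinj (by rw [map_zero]; exact h0))
  · rw [RatFunc.liftAlgHom_apply]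
    simp

theorem emb_poly {L : Type*} [Field L] [Algebra k L] (i : RatFunc k →ₐ[k] L) (p : k[X]) :
    i (algebraMap k[X] (RatFunc k) p) = aeval (i RatFunc.X) p := by
  have h1 := Polynomial.aeval_algHom_apply i RatFunc.X p
  rw [h1]
  congr 1
  induction p using Polynomial.induction_on' with
  | add p q hp hq => simp_all [map_add]
  | monomial n a => simp [← Polynomial.C_mul_X_pow_eq_monomial]

theorem den_ne (M : GL (Fin 2) k) :
    (RatFunc.C (M 1 0) * RatFunc.X + RatFunc.C (M 1 1) : RatFunc k) ≠ 0 := by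
  intro h
  have h1 : algebraMap k[X] (RatFunc k) (C (M 1 0) * X + C (M 1 1)) = 0 := by
    simpa using h
  have h2 : (C (M 1 0) * X + C (M 1 1) : k[X]) = 0 := by
    by_contra h3
    exact RatFunc.algebraMap_ne_zero h3 h1
  have h3 : M 1 0 = 0 := by simpa using congrArg (fun p : k[X] => p.coeff 1) h2
  have h4 : M 1 1 = 0 := by simpa using congrArg (fun p : k[X] => p.coeff 0) h2
  have h5 := M.det_ne_zero
  rw [Matrix.det_fin_two, h3, h4] at h5
  simp at h5

theorem exists_sub (M : GL (Fin 2) k) : ∃ φ : RatFunc k →ₐ[k] RatFunc k,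
    φ RatFunc.X = (RatFunc.C (M 0 0) * RatFunc.X + RatFunc.C (M 0 1)) /
      (RatFunc.C (M 1 0) * RatFunc.X + RatFunc.C (M 1 1)) := by
  apply exists_emb
  apply RatFunc.transcendental_of_ne_C
  rintro ⟨c, hc⟩
  rw [div_eq_iff (den_ne M)] at hc
  have h1 : algebraMap k[X] (RatFunc k) (C (M 0 0) * X + C (M 0 1)) =
      algebraMap k[X] (RatFunc k) (C c * (C (M 1 0) * X + C (M 1 1))) := by
    simpa using hc
  have h2 := RatFunc.algebraMap_injective k h1
  have h3 : M 0 0 = c * M 1 0 := by simpa using congrArg (fun p : k[X] => p.coeff 1) h2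
  have h4 : M 0 1 = c * M 1 1 := by simpa using congrArg (fun p : k[X] => p.coeff 0) h2
  have h5 := M.det_ne_zero
  apply h5
  rw [Matrix.det_fin_two, h3, h4]
  ring

/-- the substitution `X ↦ (M00 X + M01) / (M10 X + M11)` -/
noncomputable def sub (M : GL (Fin 2) k) : RatFunc k →ₐ[k] RatFunc k :=
  Classical.choose (exists_sub M)

theorem sub_X (M : GL (Fin 2) k) :
    sub M RatFunc.X = (RatFunc.C (M 0 0) * RatFunc.X + RatFunc.C (M 0 1)) /
      (RatFunc.C (M 1 0) * RatFunc.X + RatFunc.C (M 1 1)) :=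
  Classical.choose_spec (exists_sub M)

theorem sub_C (M : GL (Fin 2) k) (c : k) : sub M (RatFunc.C c) = RatFunc.C c := by
  have h : RatFunc.C c = algebraMap k (RatFunc k) c := by
    rw [RatFunc.algebraMap_eq_C]
  rw [h, AlgHom.commutes]

/-- a homomorphism with the same value at `X` -/
theorem eq_sub (φ : RatFunc k →ₐ[k] RatFunc k) (M : GL (Fin 2) k)
    (h : φ RatFunc.X * (RatFunc.C (M 1 0) * RatFunc.X + RatFunc.C (M 1 1)) =
      RatFunc.C (M 0 0) * RatFunc.X + RatFunc.C (M 0 1)) : φ = sub M := by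
  apply hom_ext
  rw [sub_X, eq_div_iff (den_ne M)]
  exact h

theorem sub_one (r : RatFunc k) : sub (1 : GL (Fin 2) k) r = r := by
  have h : AlgHom.id k (RatFunc k) = sub (1 : GL (Fin 2) k) := by
    apply eq_sub
    simp
  rw [← h]
  rfl

theorem sub_sub (M N : GL (Fin 2) k) (r : RatFunc k) : sub M (sub N r) = sub (N * M) r := by
  have h : (sub M).comp (sub N) = sub (N * M) := by
    apply eq_sub
    rw [AlgHom.comp_apply, sub_X, map_div₀, map_add, map_mul, map_add, map_mul, sub_C, sub_C, sub_C,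
      sub_C, sub_X]
    have h1 := den_ne M
    have h2 := den_ne (N * M)
    simp only [Matrix.GeneralLinearGroup.coe_mul, Matrix.mul_apply, Fin.sum_univ_two, map_add,
      map_mul] at h2 ⊢
    have h3 : RatFunc.C (N 1 0) * ((RatFunc.C (M 0 0) * RatFunc.X + RatFunc.C (M 0 1)) /
      (RatFunc.C (M 1 0) * RatFunc.X + RatFunc.C (M 1 1))) + RatFunc.C (N 1 1) ≠ 0 := by
      intro h4
      apply h2
      have h5 : (RatFunc.C (N 1 0) * ((RatFunc.C (M 0 0) * RatFunc.X + RatFunc.C (M 0 1)) /
      (RatFunc.C (M 1 0) * RatFunc.X + RatFunc.C (M 1 1))) + RatFunc.C (N 1 1)) *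
        (RatFunc.C (M 1 0) * RatFunc.X + RatFunc.C (M 1 1)) = 0 := by rw [h4, zero_mul]
      rw [add_mul, mul_assoc, div_mul_cancel₀ _ h1] at h5
      linear_combination h5
    have h6 : ((RatFunc.C (M 0 0) * RatFunc.X + RatFunc.C (M 0 1)) /
      (RatFunc.C (M 1 0) * RatFunc.X + RatFunc.C (M 1 1))) *
      (RatFunc.C (M 1 0) * RatFunc.X + RatFunc.C (M 1 1)) =
      (RatFunc.C (M 0 0) * RatFunc.X + RatFunc.C (M 0 1) : RatFunc k) := div_mul_cancel₀ _ h1
    generalize (RatFunc.C (M 0 0) * RatFunc.X + RatFunc.C (M 0 1)) /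
      (RatFunc.C (M 1 0) * RatFunc.X + RatFunc.C (M 1 1)) = t at h3 h6 ⊢
    rw [div_mul_eq_mul_div, div_eq_iff h3]
    linear_combination (RatFunc.C (N 0 0) * RatFunc.C (N 1 1) -
      RatFunc.C (N 0 1) * RatFunc.C (N 1 0)) * h6
  rw [← h]
  rfl

theorem sub_injective (M : GL (Fin 2) k) : Function.Injective (sub M) := (sub M).toRingHom.injective

end Pool.Agent.Helper22.HB
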