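import Pool.Agent.Helper22.HB.Ineq
import Pool.Agent.Helper22.HB.Sub

/-!
MP_143e28_ag, project HB (helper22): `F = k(x) ⊕ k(x) y`.

`i` embeds the rational functions, `i X = x`, `k(x) = range i` (`mem_iff`).  `eqn'`: `y ^ 2 + y = i (rf A B)`.
`y2_not_mem`: `y = i r`: `rf A B = r ^ 2 + r`; a pole `P` of `f = A / B` (exists: the sum is `2 g + 2 > 0`) has odd order; use `fin_ineq` /
`inf_ineq` with `a = b = 1`, `c = 0`, `h = r` (`0 = f + r ^ 2 + r` in characteristic 2): `m_P + 1 ≤ 0` or `m + 0 ≤ 0`.
`dec2`: the set of the elements `i u + i w * y` is a subfield (closed under products by the equation; inverse: the norm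
`u ^ 2 + u w + w ^ 2 f` is not `0` as `y ∉ k(x)`; or: `F = k(x)(y)`, `y` of degree 2, `IntermediateField.adjoin.powerBasis`).
-/

set_option autoImplicit false

namespace Pool.Agent.Helper22.HB

open Polynomial OnePoint Pool.Agent.Helper28.HA

variable {k F : Type*} [Field k] [Field F] [Algebra k F]

theorem mem_iff {x : F} (i : RatFunc k →ₐ[k] F) (hi : i RatFunc.X = x) (z : F) :
    z ∈ IntermediateField.adjoin k {x} ↔ ∃ r, z = i r := by
  rw [IntermediateField.mem_adjoin_simple_iff]
  constructor
  · rintro ⟨p, q, rfl⟩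
    refine ⟨rf p q, ?_⟩
    rw [rf, map_div₀, emb_poly, emb_poly, hi]
  · rintro ⟨r, rfl⟩
    refine ⟨r.num, r.denom, ?_⟩
    rw [← hi, ← emb_poly, ← emb_poly, ← map_div₀, RatFunc.num_div_denom]

theorem Dec_aeval_ne {x : F} (hx : Transcendental k x) {B : k[X]} (hB : B ≠ 0) :
    aeval x B ≠ 0 := by
  intro h0
  exact hx ⟨B, hB, h0⟩

theorem eqn' {g : ℕ} {x y : F} {A B : k[X]} (h : Pres2 k F g x y A B) (i : RatFunc k →ₐ[k] F)
    (hi : i RatFunc.X = x) : y ^ 2 + y = i (rf A B) := by
  have hB := Dec_aeval_ne h.trans h.ne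
  rw [rf, map_div₀, emb_poly, emb_poly, hi, eq_div_iff hB, mul_comm]
  exact h.eqn

theorem Dec_pole {g : ℕ} {x y : F} {A B : k[X]} (h : Pres2 k F g x y A B) :
    ∃ P : OnePoint k, pol A B P ≠ 0 := by
  by_contra hne
  push Not at hne
  have h1 := h.genus
  rw [finsum_eq_zero_of_forall_eq_zero (fun P => by rw [if_pos (hne P)])] at h1
  omega

theorem y2_not_mem [CharP k 2] {g : ℕ} {x y : F} {A B : k[X]} (h : Pres2 k F g x y A B) :
    y ∉ IntermediateField.adjoin k {x} := by
  intro hy
  obtain ⟨i, hi⟩ := exists_emb h.trans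
  obtain ⟨r, hr⟩ := (mem_iff i hi y).1 hy
  have h1 : r ^ 2 + r = rf A B := by
    apply i.toRingHom.injective
    change i (r ^ 2 + r) = i (rf A B)
    rw [← eqn' h i hi, map_add, map_pow, ← hr]
  have hch : CharP (RatFunc k) 2 := inferInstance
  have he : rf ((1 : k[X]) * 0) (1 ^ 2) = rf A B + r ^ 2 + r := by
    rw [← h1]
    have h2 : (2 : RatFunc k) = 0 := CharP.cast_eq_zero (RatFunc k) 2
    have h3 : rf ((1 : k[X]) * 0) (1 ^ 2) = 0 := by simp [rf]
    rw [h3]
    linear_combination (-(r ^ 2) - r) * h2
  obtain ⟨P, hP⟩ := Dec_pole h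
  have hodd := h.odd P hP
  induction P using OnePoint.rec with
  | infty =>
    have h4 : pol A B ∞ = A.natDegree - B.natDegree := rfl
    rw [h4] at hP hodd
    have h5 := inf_ineq h.cop h.ne one_ne_zero one_ne_zero he hodd
    rw [natDegree_one, natDegree_zero] at h5
    omega
  | coe a =>
    have h4 : pol A B (a : OnePoint k) = B.rootMultiplicity a := rfl
    rw [h4] at hP hodd
    have h5 := fin_ineq h.cop h.ne one_ne_zero one_ne_zero he a hodd
    have h6 : (1 : k[X]).rootMultiplicity a = 0 := by
      apply rootMultiplicity_eq_zero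
      simp [IsRoot]
    rw [h6] at h5
    omega

theorem dec2 [CharP k 2] {g : ℕ} {x y : F} {A B : k[X]} (h : Pres2 k F g x y A B)
    (i : RatFunc k →ₐ[k] F) (hi : i RatFunc.X = x) (z : F) :
    ∃ u w : RatFunc k, z = i u + i w * y := by
  have h2 : (2 : F) = 0 := by
    have h3 : (2 : k) = 0 := CharP.cast_eq_zero k 2
    have h4 := congrArg (algebraMap k F) h3
    rwa [map_zero, map_ofNat] at h4
  have he := eqn' h i hi
  let K : IntermediateField k F :=
    { carrier := {z | ∃ u w : RatFunc k, z = i u + i w * y}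
      mul_mem' := by
        rintro _ _ ⟨u, w, rfl⟩ ⟨u', w', rfl⟩
        refine ⟨u * u' + w * w' * rf A B, u * w' + w * u' - w * w', ?_⟩
        simp only [map_add, map_mul, map_sub]
        rw [← he]
        ring
      one_mem' := ⟨1, 0, by simp⟩
      add_mem' := by
        rintro _ _ ⟨u, w, rfl⟩ ⟨u', w', rfl⟩
        refine ⟨u + u', w + w', ?_⟩
        simp only [map_add]
        ring
      zero_mem' := ⟨0, 0, by simp⟩
      algebraMap_mem' := fun c => ⟨algebraMap k (RatFunc k) c, 0, by
        rw [map_zero, zero_mul, add_zero, AlgHom.commutes]⟩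
      inv_mem' := by
        rintro _ ⟨u, w, rfl⟩
        by_cases hw : w = 0
        · subst hw
          refine ⟨u⁻¹, 0, ?_⟩
          simp
        · have hyn := y2_not_mem h
          have hn : i (u ^ 2 + u * w + w ^ 2 * rf A B) =
              (i u + i w * y) * (i u + i w + i w * y) := by
            simp only [map_add, map_mul, map_pow]
            rw [← he]
            linear_combination (-(i u) * (i w) * y) * h2
          have hiw : i w ≠ 0 := by
            intro h0
            exact hw (i.toRingHom.injective (by rw [map_zero]; exact h0))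
          have h5 : ∀ v : RatFunc k, i v + i w * y ≠ 0 := by
            intro v hv
            apply hyn
            rw [mem_iff i hi]
            refine ⟨-v / w, ?_⟩
            rw [map_div₀, map_neg, eq_div_iff hiw]
            linear_combination hv
          have h6 : i u + i w + i w * y ≠ 0 := by
            have := h5 (u + w)
            rwa [map_add] at this
          have h7 := h5 u
          have h8 : i (u ^ 2 + u * w + w ^ 2 * rf A B) ≠ 0 := by
            rw [hn]
            exact mul_ne_zero h7 h6
          refine ⟨(u + w) / (u ^ 2 + u * w + w ^ 2 * rf A B),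
            w / (u ^ 2 + u * w + w ^ 2 * rf A B), ?_⟩
          rw [map_div₀, map_div₀, hn, map_add]
          field_simp }
  have hK : IntermediateField.adjoin k {x, y} ≤ K := by
    rw [IntermediateField.adjoin_le_iff]
    rintro t (rfl | ht)
    · exact ⟨RatFunc.X, 0, by simp [hi]⟩
    · rw [Set.mem_singleton_iff] at ht
      subst ht
      exact ⟨0, 1, by simp⟩
  rw [h.gen] at hK
  exact hK (IntermediateField.mem_top : z ∈ (⊤ : IntermediateField k F))

end Pool.Agent.Helper22.HB
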