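import Pool.Agent.Helper28.HA.Defs

/-!
MP_143e28_ag, project HB (helper22): hyperelliptic curves in characteristic 2 and their automorphism groups.
Definitions.
-/

set_option autoImplicit false

namespace Pool.Agent.Helper22.HB

open Polynomial OnePoint Pool.Agent.Helper28.HA

/-- the order of the pole of `A / B` (`A` and `B` coprime) at a point of the projective line;
`0` if there is no pole -/
noncomputable def pol {k : Type*} [Field k] (A B : k[X]) (P : OnePoint k) : ℕ :=
  P.elim (A.natDegree - B.natDegree) (fun a => B.rootMultiplicity a)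

/-- `(x, y, A, B)` presents `F` as the function field of the hyperelliptic curve
`y ^ 2 + y = A (x) / B (x)` of genus `g` in characteristic 2, in Artin-Schreier normal form:
all poles of `A / B` have odd order; `2 g + 2` is the sum of (order + 1) over the poles. -/
structure Pres2 (k F : Type*) [Field k] [Field F] [Algebra k F] (g : ℕ) (x y : F) (A B : k[X]) :
    Prop where
  trans : Transcendental k x
  gen : IntermediateField.adjoin k {x, y} = ⊤
  cop : IsCoprime A B
  ne : B ≠ 0
  odd : ∀ P : OnePoint k, pol A B P ≠ 0 → Odd (pol A B P)
  genus : ∑ᶠ P : OnePoint k, (if pol A B P = 0 then 0 else pol A B P + 1) = 2 * g + 2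
  eqn : aeval x B * (y ^ 2 + y) = aeval x A

/-- `F` is the function field of a hyperelliptic curve of genus `g` over `k` (characteristic 2) -/
def IsHyp2 (k F : Type*) [Field k] [Field F] [Algebra k F] (g : ℕ) : Prop :=
  ∃ (x y : F) (A B : k[X]), Pres2 k F g x y A B

/-- the largest number of automorphisms of a hyperelliptic curve of genus `g` over `k` -/
noncomputable def muHyp2.{u} (k : Type u) [Field k] (g : ℕ) : ℕ∞ :=
  sSup {n : ℕ∞ | ∃ (F : Type u) (_ : Field F) (_ : Algebra k F),
    IsHyp2 k F g ∧ n = ENat.card (F ≃ₐ[k] F)}

/-- the rational function `A / B` -/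
noncomputable def rf {k : Type*} [Field k] (A B : k[X]) : RatFunc k :=
  algebraMap k[X] (RatFunc k) A / algebraMap k[X] (RatFunc k) B

end Pool.Agent.Helper22.HB
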