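import Pool.Agent.Helper22.HB.Grp
import Pool.Agent.Helper28.HA.B1

/-!
MP_143e28_ag, project HB (helper22): the order of a pole as a degree at infinity.

`deg_affine`: `M 1 0 = 0`: the substitution is `X ↦ a X + b`, `a ≠ 0` (`sub_X`); for a polynomial `p` its value is the
polynomial `p.comp (C a * X + C b)` of the same degree (`emb_poly`), `intDegree` of a quotient is the difference.
`pol_eq`: if `T ∞ = ∞` (`T 1 0 = 0`): `deg_affine`.  If `T ∞ = a = T00 / T10`: let `S = !![a, 1; 1, 0]` (`S ∞ = a`), `T = S * N`,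
`N = S⁻¹ * T`, `N 1 0 = 0`; `sub T r = sub N (sub S r)` (`sub_sub`), so by `deg_affine` the degree is that of `sub S r`,
`sub S X = a + 1 / X`.  For `p = (X - C a) ^ n * q`, `q (a) ≠ 0` (`Polynomial.exists_eq_pow_rootMultiplicity_mul_and_not_dvd`):
`sub S p = X ^ (-n) * q (a + 1 / X)` has degree `- n` (`q (a + 1 / X) = q (a) + (1 / X) * (...)`, numerator
`q (a) X ^ deg q + lower terms`).  So the degree of `sub S (A / B)` is `mult_a B - mult_a A`, and one of them is `0` as
`A`, `B` are coprime.  (`A = 0`: then `B` is a unit, both sides are `0`.)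
-/

set_option autoImplicit false

namespace Pool.Agent.Helper22.HB

open Polynomial OnePoint Pool.Agent.Helper28.HA

variable {k : Type*} [Field k]

theorem Deg_pow {x : RatFunc k} (hx : x ≠ 0) (n : ℕ) : (x ^ n).intDegree = n * x.intDegree := by
  induction n with
  | zero => simp
  | succ n ih =>
    rw [pow_succ, RatFunc.intDegree_mul (pow_ne_zero n hx) hx, ih]
    push_cast
    ring

theorem Deg_poly (M : GL (Fin 2) k) (p : k[X]) :
    sub M (algebraMap k[X] (RatFunc k) p) = aeval (sub M RatFunc.X) p := emb_poly (sub M) p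

theorem Deg_rat (r : RatFunc k) :
    algebraMap k[X] (RatFunc k) r.num / algebraMap k[X] (RatFunc k) r.denom = r :=
  RatFunc.num_div_denom r

theorem deg_affine (M : GL (Fin 2) k) (h : M 1 0 = 0) (r : RatFunc k) :
    (sub M r).intDegree = r.intDegree := by
  have hdet := M.det_ne_zero
  rw [Matrix.det_fin_two, h, mul_zero, sub_zero] at hdet
  have hd : M 1 1 ≠ 0 := right_ne_zero_of_mul hdet
  have ha : M 0 0 ≠ 0 := left_ne_zero_of_mul hdet
  have hX : sub M RatFunc.X = algebraMap k[X] (RatFunc k)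
      (C (M 0 0 / M 1 1) * X + C (M 0 1 / M 1 1)) := by
    rw [sub_X, h, map_zero, zero_mul, zero_add]
    have hC : (RatFunc.C (M 1 1) : RatFunc k) ≠ 0 := by
      rw [Ne, map_eq_zero]; exact hd
    rw [div_eq_iff hC]
    simp only [map_add, map_mul, RatFunc.algebraMap_C, RatFunc.algebraMap_X]
    have h1 : ∀ c : k, RatFunc.C (c / M 1 1) * RatFunc.C (M 1 1) = (RatFunc.C c : RatFunc k) := by
      intro c
      rw [← map_mul, div_mul_cancel₀ _ hd]
    linear_combination -(RatFunc.X : RatFunc k) * h1 (M 0 0) - h1 (M 0 1)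
  have hpoly : ∀ p : k[X], p ≠ 0 → (sub M (algebraMap k[X] (RatFunc k) p)).intDegree =
      (algebraMap k[X] (RatFunc k) p).intDegree := by
    intro p hp
    rw [Deg_poly, hX]
    have h1 : aeval (algebraMap k[X] (RatFunc k) (C (M 0 0 / M 1 1) * X + C (M 0 1 / M 1 1))) p =
        algebraMap k[X] (RatFunc k) (p.comp (C (M 0 0 / M 1 1) * X + C (M 0 1 / M 1 1))) := by
      rw [Polynomial.aeval_algebraMap_apply]
      rfl
    rw [h1, RatFunc.intDegree_polynomial, RatFunc.intDegree_polynomial, Polynomial.natDegree_comp,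
      Polynomial.natDegree_linear (div_ne_zero ha hd), mul_one]
  by_cases hr : r = 0
  · subst hr; rw [map_zero]
  · have hn : r.num ≠ 0 := RatFunc.num_ne_zero hr
    have hdn : r.denom ≠ 0 := RatFunc.denom_ne_zero r
    have hn' : algebraMap k[X] (RatFunc k) r.num ≠ 0 := RatFunc.algebraMap_ne_zero hn
    have hdn' : algebraMap k[X] (RatFunc k) r.denom ≠ 0 := RatFunc.algebraMap_ne_zero hdn
    have hi := sub_injective M
    have e := Deg_rat r
    rw [← e, map_div₀, RatFunc.intDegree_div ((map_ne_zero_iff _ hi).2 hn')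
      ((map_ne_zero_iff _ hi).2 hdn'), RatFunc.intDegree_div hn' hdn', hpoly _ hn, hpoly _ hdn]

/-- every point is `T ∞` -/
theorem exists_move (P : OnePoint k) : ∃ T : GL (Fin 2) k, mact T ∞ = P := by
  obtain ⟨t, ⟨M, rfl⟩, hP⟩ := mob_trans P
  refine ⟨M⁻¹, ?_⟩
  rw [map_inv, ← hP]
  simp

theorem Deg_zero (q : k[X]) (a : k) (h : q.eval a ≠ 0) :
    (aeval (RatFunc.C a + (RatFunc.X)⁻¹ : RatFunc k) q).intDegree = 0 := by
  have hX : (RatFunc.X : RatFunc k) ≠ 0 := RatFunc.X_ne_zero
  have hq0 : (taylor a q).coeff 0 ≠ 0 := by rw [taylor_coeff_zero]; exact h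
  have hq : taylor a q ≠ 0 := by
    intro h0; rw [h0] at hq0; simp at hq0
  have e1 : aeval (RatFunc.C a + (RatFunc.X)⁻¹ : RatFunc k) q =
      aeval ((RatFunc.X)⁻¹ : RatFunc k) (taylor a q) := by
    rw [taylor_apply, aeval_comp]
    congr 1
    simp [RatFunc.algebraMap_eq_C, add_comm]
  let _ : Invertible ((RatFunc.X)⁻¹ : RatFunc k) := invertibleOfNonzero (inv_ne_zero hX)
  have e2 := eval₂_reverse_mul_pow (algebraMap k (RatFunc k)) ((RatFunc.X)⁻¹ : RatFunc k)
    (taylor a q)
  have e3 : (⅟ ((RatFunc.X)⁻¹ : RatFunc k)) = RatFunc.X := by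
    rw [invOf_eq_inv, inv_inv]
  rw [e3] at e2
  have e4 : eval₂ (algebraMap k (RatFunc k)) RatFunc.X (taylor a q).reverse =
      algebraMap k[X] (RatFunc k) (taylor a q).reverse := by
    have h1 := Deg_poly (1 : GL (Fin 2) k) (taylor a q).reverse
    rw [sub_one, sub_one] at h1
    exact h1.symm
  rw [e4] at e2
  have e5 : aeval ((RatFunc.X)⁻¹ : RatFunc k) (taylor a q) =
      algebraMap k[X] (RatFunc k) (taylor a q).reverse *
        ((RatFunc.X)⁻¹ : RatFunc k) ^ (taylor a q).natDegree := by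
    rw [e2]; rfl
  have hrev : (taylor a q).reverse ≠ 0 := by
    rw [Ne, reverse_eq_zero]; exact hq
  rw [e1, e5, RatFunc.intDegree_mul (RatFunc.algebraMap_ne_zero hrev)
    (pow_ne_zero _ (inv_ne_zero hX)), Deg_pow (inv_ne_zero hX), RatFunc.intDegree_inv,
    RatFunc.intDegree_X, RatFunc.intDegree_polynomial, reverse_natDegree]
  have h2 : (taylor a q).natTrailingDegree = 0 := by
    rw [natTrailingDegree_eq_zero]
    exact Or.inr hq0
  rw [h2]
  simp

/-- degree of `p (a + 1 / X)` -/
theorem Deg_mult (p : k[X]) (hp : p ≠ 0) (a : k) :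
    (aeval (RatFunc.C a + (RatFunc.X)⁻¹ : RatFunc k) p).intDegree = -(p.rootMultiplicity a : ℤ) := by
  have hX : (RatFunc.X : RatFunc k) ≠ 0 := RatFunc.X_ne_zero
  obtain ⟨q, hq, hnd⟩ := exists_eq_pow_rootMultiplicity_mul_and_not_dvd p hp a
  have hqa : q.eval a ≠ 0 := fun h0 => hnd (dvd_iff_isRoot.2 h0)
  have h0 := Deg_zero q a hqa
  have hq1 : (aeval (RatFunc.C a + (RatFunc.X)⁻¹ : RatFunc k) q) ≠ 0 := by
    intro hz
    have hpz : aeval (RatFunc.C a + (RatFunc.X)⁻¹ : RatFunc k) q = 0 := hz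
    have htr : Transcendental k (RatFunc.C a + (RatFunc.X)⁻¹ : RatFunc k) := by
      apply RatFunc.transcendental_of_ne_C
      rintro ⟨c, hc⟩
      have h1 : (RatFunc.X : RatFunc k)⁻¹ = RatFunc.C (c - a) := by
        rw [map_sub]
        linear_combination hc
      have h2 : (RatFunc.X : RatFunc k)⁻¹.intDegree = -1 := by
        rw [RatFunc.intDegree_inv, RatFunc.intDegree_X]
      rw [h1, RatFunc.intDegree_C] at h2
      omega
    have h3 : q = 0 := by
      by_contra hq0
      exact htr ⟨q, hq0, hpz⟩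
    rw [h3] at hqa
    simp at hqa
  have e : aeval (RatFunc.C a + (RatFunc.X)⁻¹ : RatFunc k) p =
      ((RatFunc.X)⁻¹ : RatFunc k) ^ p.rootMultiplicity a *
        aeval (RatFunc.C a + (RatFunc.X)⁻¹ : RatFunc k) q := by
    conv_lhs => rw [hq]
    rw [map_mul, map_pow]
    congr 2
    simp [RatFunc.algebraMap_eq_C]
  rw [e, RatFunc.intDegree_mul (pow_ne_zero _ (inv_ne_zero hX)) hq1, Deg_pow (inv_ne_zero hX),
    RatFunc.intDegree_inv, RatFunc.intDegree_X, h0]
  ring

theorem pol_eq {A B : k[X]} (hc : IsCoprime A B) (hB : B ≠ 0) (T : GL (Fin 2) k) :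
    (pol A B (mact T ∞) : ℤ) = max 0 (sub T (rf A B)).intDegree := by
  have hB' : algebraMap k[X] (RatFunc k) B ≠ 0 := RatFunc.algebraMap_ne_zero hB
  by_cases hT : T 1 0 = 0
  · rw [mact_infty_zero T hT, deg_affine T hT]
    change ((A.natDegree - B.natDegree : ℕ) : ℤ) = _
    by_cases hA : A = 0
    · subst hA
      have h1 : (rf (0 : k[X]) B).intDegree = 0 := by
        unfold rf
        rw [map_zero, zero_div, RatFunc.intDegree_zero]
      rw [h1]
      simp
    · unfold rf
      rw [RatFunc.intDegree_div (RatFunc.algebraMap_ne_zero hA) hB', RatFunc.intDegree_polynomial,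
        RatFunc.intDegree_polynomial]
      omega
  · rw [mact_infty T hT]
    set a : k := T 0 0 / T 1 0 with ha
    change (B.rootMultiplicity a : ℤ) = _
    have hdS : (!![a, 1; 1, 0] : Matrix (Fin 2) (Fin 2) k).det ≠ 0 := by
      rw [Matrix.det_fin_two_of]; simp
    have hdS' : (!![0, 1; 1, -a] : Matrix (Fin 2) (Fin 2) k).det ≠ 0 := by
      rw [Matrix.det_fin_two_of]; simp
    let S : GL (Fin 2) k := Matrix.GeneralLinearGroup.mkOfDetNeZero !![a, 1; 1, 0] hdS
    let S' : GL (Fin 2) k := Matrix.GeneralLinearGroup.mkOfDetNeZero !![0, 1; 1, -a] hdS'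
    have hSS : S * S' = 1 := by
      apply Units.ext
      change (!![a, 1; 1, 0] : Matrix (Fin 2) (Fin 2) k) * !![0, 1; 1, -a] = 1
      rw [Matrix.mul_fin_two, Matrix.one_fin_two]
      simp
    have hT' : S * (S' * T) = T := by rw [← mul_assoc, hSS, one_mul]
    have hN : (S' * T) 1 0 = 0 := by
      have h1 : (S' * T) 1 0 = S' 1 0 * T 0 0 + S' 1 1 * T 1 0 := by
        simp only [Matrix.GeneralLinearGroup.coe_mul, Matrix.mul_apply, Fin.sum_univ_two]
      rw [h1]
      have h2 : S' 1 0 = 1 := rfl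
      have h3 : S' 1 1 = -a := rfl
      rw [h2, h3, ha]
      field_simp
      ring
    have hSX : sub S RatFunc.X = (RatFunc.C a + (RatFunc.X)⁻¹ : RatFunc k) := by
      rw [sub_X]
      have h1 : S 0 0 = a := rfl
      have h2 : S 0 1 = 1 := rfl
      have h3 : S 1 0 = 1 := rfl
      have h4 : S 1 1 = 0 := rfl
      have hX : (RatFunc.X : RatFunc k) ≠ 0 := RatFunc.X_ne_zero
      rw [h1, h2, h3, h4, map_one, map_zero, one_mul, add_zero, add_div, mul_div_cancel_right₀ _ hX,
        one_div]
    have h5 : sub T (rf A B) = sub (S' * T) (sub S (rf A B)) := by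
      rw [sub_sub, hT']
    rw [h5, deg_affine _ hN]
    have hi := sub_injective S
    by_cases hA : A = 0
    · subst hA
      have h1 : rf (0 : k[X]) B = 0 := by
        unfold rf
        rw [map_zero, zero_div]
      rw [h1, map_zero, RatFunc.intDegree_zero]
      have h2 : IsUnit B := isCoprime_zero_left.1 hc
      have h3 : B.rootMultiplicity a = 0 := by
        apply rootMultiplicity_eq_zero
        intro h4
        obtain ⟨u, v, huv⟩ := hc
        have h6 := congrArg (fun p : k[X] => p.eval a) huv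
        simp only [mul_zero, zero_add, eval_mul, eval_one] at h6
        rw [IsRoot.def] at h4
        rw [h4, mul_zero] at h6
        exact zero_ne_one h6
      rw [h3]
      simp
    · unfold rf
      have hA' : algebraMap k[X] (RatFunc k) A ≠ 0 := RatFunc.algebraMap_ne_zero hA
      rw [map_div₀, RatFunc.intDegree_div ((map_ne_zero_iff _ hi).2 hA')
        ((map_ne_zero_iff _ hi).2 hB'), Deg_poly, Deg_poly, hSX, Deg_mult A hA, Deg_mult B hB]
      have h6 : A.rootMultiplicity a = 0 ∨ B.rootMultiplicity a = 0 := by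
        by_contra hcon
        push Not at hcon
        have hra : A.IsRoot a := by
          by_contra h7; exact hcon.1 (rootMultiplicity_eq_zero h7)
        have hrb : B.IsRoot a := by
          by_contra h7; exact hcon.2 (rootMultiplicity_eq_zero h7)
        obtain ⟨u, v, huv⟩ := hc
        have h8 := congrArg (fun p : k[X] => p.eval a) huv
        simp only [eval_add, eval_mul, eval_one] at h8
        rw [IsRoot.def] at hra hrb
        rw [hra, hrb] at h8
        simp at h8
      omega

end Pool.Agent.Helper22.HB
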