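import Pool.Agent.Helper22.HB.Ineq

/-!
MP_143e28_ag, project HB (helper22): the curve `y ^ 2 + y = x ^ (2 g + 1)`.

`exists_pres2`: `F = AdjoinRoot (X ^ 2 + X - C (X ^ (2 g + 1)))` over `RatFunc k`: irreducible, as `r ^ 2 + r = X ^ (2 g + 1)` is impossible (the degree of
`r ^ 2 + r` is `≤ 0` or even, `deg_as`).  `pol (X ^ (2 g + 1)) 1` is `2 g + 1` at `∞` and `0` elsewhere.
`auto_of2` (compare `Helper28.HA.C1.auto_of`): the `k`-homomorphism `F → F`, `x ↦ x'`, `y ↦ y'`: `k(x) → F` as `x'` is transcendental (otherwise `y'`, so `F`,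
would be algebraic), extended to `F = k(x)(y)`; onto as its image contains `x'`, `y'`.
-/

set_option autoImplicit false

namespace Pool.Agent.Helper22.HB

open Polynomial OnePoint Pool.Agent.Helper28.HA

/-- the equation over `k(X)` -/
noncomputable abbrev Ex_pol {k : Type*} [Field k] (f : k[X]) : (RatFunc k)[X] :=
  X ^ 2 + X - C (algebraMap k[X] (RatFunc k) f)

theorem Ex_monic {R : Type*} [CommRing R] [Nontrivial R] (c : R) :
    (X ^ 2 + X - C c : R[X]).Monic ∧ (X ^ 2 + X - C c : R[X]).natDegree = 2 := by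
  have h1 : (X ^ 2 + X - C c : R[X]) = X ^ 2 + (X - C c) := by ring
  have h2 : (X - C c : R[X]).degree < (X ^ 2 : R[X]).degree := by
    rw [degree_X_sub_C, degree_X_pow]
    norm_num
  rw [h1]
  refine ⟨(monic_X_pow 2).add_of_left h2, ?_⟩
  rw [natDegree_add_eq_left_of_degree_lt h2, natDegree_X_pow]

theorem Ex_irr {k : Type*} [Field k] {f : k[X]} (hd : Odd f.natDegree) :
    Irreducible (Ex_pol f) := by
  refine irreducible_of_degree_le_three_of_not_isRoot ?_ ?_
  · rw [(Ex_monic _).2]
    simp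
  · intro b hb
    have hb' : b ^ 2 + b = algebraMap k[X] (RatFunc k) f := by
      have h1 : eval b (Ex_pol f) = 0 := hb
      rw [Ex_pol, eval_sub, eval_add, eval_pow, eval_X, eval_C] at h1
      exact sub_eq_zero.1 h1
    have hint : IsIntegral k[X] b := by
      refine ⟨X ^ 2 + X - C f, (Ex_monic f).1, ?_⟩
      simp [hb']
    obtain ⟨c, hc⟩ := IsIntegrallyClosed.isIntegral_iff.1 hint
    rw [← hc, ← map_pow, ← map_add] at hb'
    have h1 : c ^ 2 + c = f := RatFunc.algebraMap_injective k hb'
    rcases Nat.eq_zero_or_pos c.natDegree with h2 | h2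
    · have h3 : f.natDegree = 0 := by
        rw [natDegree_eq_zero] at h2
        obtain ⟨d, rfl⟩ := h2
        rw [← h1, ← C_pow, ← C_add, natDegree_C]
      rw [h3] at hd
      simp at hd
    · have h3 : (c ^ 2 + c).natDegree = 2 * c.natDegree := by
        have h4 : c.natDegree < (c ^ 2).natDegree := by
          rw [natDegree_pow]
          omega
        rw [natDegree_add_eq_left_of_natDegree_lt h4, natDegree_pow]
      rw [← h1, h3] at hd
      exact (Nat.not_odd_iff_even.2 (even_two_mul _)) hd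

theorem Ex_trans {k : Type*} [Field k] {f : k[X]} (hI : Irreducible (Ex_pol f)) :
    Transcendental k (AdjoinRoot.of (Ex_pol f) RatFunc.X) := by
  have : Fact (Irreducible (Ex_pol f)) := ⟨hI⟩
  have h : Transcendental k (algebraMap (RatFunc k) (AdjoinRoot (Ex_pol f)) RatFunc.X) :=
    (transcendental_algebraMap_iff (algebraMap (RatFunc k) (AdjoinRoot (Ex_pol f))).injective).2
      RatFunc.transcendental_X
  exact h

theorem Ex_eqn {k : Type*} [Field k] (f : k[X]) :
    (AdjoinRoot.root (Ex_pol f)) ^ 2 + AdjoinRoot.root (Ex_pol f) =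
      aeval (AdjoinRoot.of (Ex_pol f) RatFunc.X) f := by
  have h1 : AdjoinRoot.mk (Ex_pol f) (Ex_pol f) = 0 := AdjoinRoot.mk_self
  have h2 : AdjoinRoot.mk (Ex_pol f) (Ex_pol f)
      = (AdjoinRoot.root (Ex_pol f)) ^ 2 + AdjoinRoot.root (Ex_pol f) -
        AdjoinRoot.of (Ex_pol f) (algebraMap k[X] (RatFunc k) f) := by
    rw [show AdjoinRoot.mk (Ex_pol f) (Ex_pol f)
      = AdjoinRoot.mk (Ex_pol f) (X ^ 2 + X - C (algebraMap k[X] (RatFunc k) f)) from rfl,
      map_sub, map_add, map_pow, AdjoinRoot.mk_X, AdjoinRoot.mk_C]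
  rw [h1] at h2
  have h3 : (AdjoinRoot.root (Ex_pol f)) ^ 2 + AdjoinRoot.root (Ex_pol f)
      = AdjoinRoot.of (Ex_pol f) (algebraMap k[X] (RatFunc k) f) := (sub_eq_zero.1 h2.symm)
  rw [h3]
  have h4 : algebraMap k[X] (RatFunc k) f = aeval RatFunc.X f := by
    rw [← RatFunc.algebraMap_X, aeval_algebraMap_apply, aeval_X_left_apply]
  rw [h4]
  exact (aeval_algebraMap_apply (AdjoinRoot (Ex_pol f)) (RatFunc.X : RatFunc k) f).symm

theorem Ex_gen {k : Type*} [Field k] {f : k[X]} (hI : Fact (Irreducible (Ex_pol f))) :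
    IntermediateField.adjoin k {AdjoinRoot.of (Ex_pol f) RatFunc.X, AdjoinRoot.root (Ex_pol f)} = ⊤ := by
  set E := IntermediateField.adjoin k
    {AdjoinRoot.of (Ex_pol f) RatFunc.X, AdjoinRoot.root (Ex_pol f)} with hE
  have hx : AdjoinRoot.of (Ex_pol f) RatFunc.X ∈ E :=
    IntermediateField.subset_adjoin _ _ (by simp)
  have hy : AdjoinRoot.root (Ex_pol f) ∈ E := IntermediateField.subset_adjoin _ _ (by simp)
  have h1 : ∀ c : RatFunc k, AdjoinRoot.of (Ex_pol f) c ∈ E := by
    intro c
    have hc : c ∈ IntermediateField.adjoin k {(RatFunc.X : RatFunc k)} := by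
      rw [RatFunc.adjoin_X]; trivial
    have hle : IntermediateField.adjoin k {(RatFunc.X : RatFunc k)}
        ≤ E.comap (IsScalarTower.toAlgHom k (RatFunc k) (AdjoinRoot (Ex_pol f))) := by
      rw [IntermediateField.adjoin_le_iff]
      rintro _ rfl
      exact hx
    exact hle hc
  refine eq_top_iff.2 ?_
  rintro z -
  induction z using AdjoinRoot.induction_on with
  | ih p =>
    induction p using Polynomial.induction_on' with
    | add p q hp hq => rw [map_add]; exact add_mem hp hq
    | monomial n c =>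
      rw [← C_mul_X_pow_eq_monomial, map_mul, map_pow, AdjoinRoot.mk_C, AdjoinRoot.mk_X]
      exact mul_mem (h1 c) (pow_mem hy n)

theorem exists_pres2.{u} (k : Type u) [Field k] [CharP k 2] (g : ℕ) :
    ∃ (F : Type u) (_ : Field F) (_ : Algebra k F) (x y : F),
      Pres2 k F g x y (X ^ (2 * g + 1)) 1 := by
  have hI : Irreducible (Ex_pol (X ^ (2 * g + 1) : k[X])) := Ex_irr (by
    rw [natDegree_X_pow]
    exact odd_two_mul_add_one g)
  have : Fact (Irreducible (Ex_pol (X ^ (2 * g + 1) : k[X]))) := ⟨hI⟩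
  have hinf : pol (X ^ (2 * g + 1) : k[X]) 1 ∞ = 2 * g + 1 := by
    show (X ^ (2 * g + 1) : k[X]).natDegree - (1 : k[X]).natDegree = 2 * g + 1
    simp
  have hfin : ∀ a : k, pol (X ^ (2 * g + 1) : k[X]) 1 (a : OnePoint k) = 0 := by
    intro a
    show (1 : k[X]).rootMultiplicity a = 0
    rw [rootMultiplicity_eq_zero]
    simp
  refine ⟨AdjoinRoot (Ex_pol (X ^ (2 * g + 1) : k[X])), inferInstance, inferInstance,
    AdjoinRoot.of _ RatFunc.X, AdjoinRoot.root _,
    ⟨Ex_trans hI, Ex_gen ⟨hI⟩, isCoprime_one_right, one_ne_zero, ?_, ?_, ?_⟩⟩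
  · intro P hP
    induction P using OnePoint.rec with
    | infty =>
      rw [hinf]
      exact odd_two_mul_add_one g
    | coe a => exact absurd (hfin a) hP
  · rw [finsum_eq_single _ ∞]
    · rw [hinf]
      simp
    · intro P hP
      induction P using OnePoint.rec with
      | infty => exact absurd rfl hP
      | coe a => simp [hfin a]
  · rw [map_one, one_mul]
    exact Ex_eqn _

/-- the function field of `y ^ 2 + y = f (x)` is unique -/
theorem Ex_equiv {k F : Type*} [Field k] [Field F] [Algebra k F] {f : k[X]}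
    (hI : Fact (Irreducible (Ex_pol f))) {x y : F} (ht : Transcendental k x)
    (he : y ^ 2 + y = aeval x f) (hgen : IntermediateField.adjoin k {x, y} = ⊤) :
    ∃ e : AdjoinRoot (Ex_pol f) ≃ₐ[k] F, e (AdjoinRoot.of (Ex_pol f) RatFunc.X) = x ∧
      e (AdjoinRoot.root (Ex_pol f)) = y := by
  set i : RatFunc k →ₐ[k] F :=
    (IntermediateField.val _).comp (RatFunc.algEquivOfTranscendental x ht).toAlgHom with hi
  have hiX : i RatFunc.X = x := by
    change ((RatFunc.algEquivOfTranscendental x ht RatFunc.X : IntermediateField.adjoin k {x}) : F) = x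
    rw [RatFunc.algEquivOfTranscendental_X]
  have hif : i (algebraMap k[X] (RatFunc k) f) = aeval x f := by
    have h4 : algebraMap k[X] (RatFunc k) f = aeval RatFunc.X f := by
      rw [← RatFunc.algebraMap_X, aeval_algebraMap_apply, aeval_X_left_apply]
    rw [h4, ← aeval_algHom_apply, hiX]
  have hroot : (Ex_pol f).eval₂ (i : RatFunc k →+* F) y = 0 := by
    rw [Ex_pol, eval₂_sub, eval₂_add, eval₂_pow, eval₂_X, eval₂_C, he]
    change _ - i (algebraMap k[X] (RatFunc k) f) = 0
    rw [hif, sub_self]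
  set φ : AdjoinRoot (Ex_pol f) →ₐ[k] F := AdjoinRoot.liftAlgHom (Ex_pol f) i y hroot with hφ
  have h1 : φ (AdjoinRoot.of (Ex_pol f) RatFunc.X) = x := by
    rw [hφ, AdjoinRoot.liftAlgHom_of, hiX]
  have h2 : φ (AdjoinRoot.root (Ex_pol f)) = y := by rw [hφ, AdjoinRoot.liftAlgHom_root]
  have hsurj : Function.Surjective φ := by
    intro z
    have hz : z ∈ IntermediateField.adjoin k {x, y} := by rw [hgen]; trivial
    have hle : IntermediateField.adjoin k {x, y} ≤ φ.fieldRange := by
      rw [IntermediateField.adjoin_le_iff]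
      rintro w (rfl | rfl)
      · exact ⟨_, h1⟩
      · exact ⟨_, h2⟩
    exact hle hz
  have hbij : Function.Bijective φ := ⟨φ.toRingHom.injective, hsurj⟩
  exact ⟨AlgEquiv.ofBijective φ hbij, h1, h2⟩

theorem Ex_deg {k F : Type*} [Field k] [Field F] [Algebra k F] {g : ℕ} {x y : F} {A : k[X]}
    (h : Pres2 k F g x y A 1) : Odd A.natDegree := by
  have hinf : pol A 1 ∞ = A.natDegree := by
    show A.natDegree - (1 : k[X]).natDegree = A.natDegree
    simp
  have hfin : ∀ a : k, pol A 1 (a : OnePoint k) = 0 := by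
    intro a
    show (1 : k[X]).rootMultiplicity a = 0
    rw [rootMultiplicity_eq_zero]
    simp
  have h1 := h.genus
  rw [finsum_eq_single _ ∞ (by
    intro P hP
    induction P using OnePoint.rec with
    | infty => exact absurd rfl hP
    | coe a => simp [hfin a])] at h1
  rw [← hinf]
  refine h.odd ∞ fun h2 => ?_
  rw [h2] at h1
  simp at h1

theorem auto_of2 {k F : Type*} [Field k] [Field F] [Algebra k F] {g : ℕ} {x y : F} {A : k[X]}
    (h : Pres2 k F g x y A 1) (x' y' : F) (he : y' ^ 2 + y' = aeval x' A)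
    (hgen : IntermediateField.adjoin k {x', y'} = ⊤) : ∃ s : F ≃ₐ[k] F, s x = x' ∧ s y = y' := by
  have hI : Fact (Irreducible (Ex_pol A)) := ⟨Ex_irr (Ex_deg h)⟩
  have heqn : y ^ 2 + y = aeval x A := by
    have := h.eqn
    rwa [map_one, one_mul] at this
  have ht : Transcendental k x' := by
    intro hx'
    have hy' : IsIntegral k y' := by
      have h0 : ∀ p : k[X], IsIntegral k (aeval x' p) := by
        intro p
        induction p using Polynomial.induction_on' with
        | add p q hp hq => rw [map_add]; exact hp.add hq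
        | monomial n c =>
          rw [aeval_monomial]
          exact isIntegral_algebraMap.mul (hx'.isIntegral.pow n)
      have hm := Ex_monic (0 : k)
      refine IsIntegral.of_aeval_monic hm.1 (by rw [hm.2]; norm_num) ?_
      have h5 : aeval y' (X ^ 2 + X - C (0 : k)) = aeval x' A := by
        rw [← he]
        simp
      rw [h5]
      exact h0 A
    have h2 : Algebra.IsAlgebraic k (IntermediateField.adjoin k {x', y'}) :=
      IntermediateField.isAlgebraic_adjoin (by
        rintro w (rfl | rfl)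
        · exact hx'.isIntegral
        · exact hy')
    rw [hgen] at h2
    have h3 : IsAlgebraic k (⟨x, trivial⟩ : (⊤ : IntermediateField k F)) := h2.isAlgebraic _
    exact h.trans ((isAlgebraic_algebraMap_iff (algebraMap (⊤ : IntermediateField k F) F).injective).2 h3)
  obtain ⟨e1, hx1, hy1⟩ := Ex_equiv hI h.trans heqn h.gen
  obtain ⟨e2, hx2, hy2⟩ := Ex_equiv hI ht he hgen
  refine ⟨e1.symm.trans e2, ?_, ?_⟩
  · rw [AlgEquiv.trans_apply, ← hx1, AlgEquiv.symm_apply_apply, hx2]
  · rw [AlgEquiv.trans_apply, ← hy1, AlgEquiv.symm_apply_apply, hy2]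

end Pool.Agent.Helper22.HB
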