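import Pool.Agent.Helper22.HB.Ex

/-!
MP_143e28_ag, project HB (helper22): the curve `y ^ 2 + y = x ^ (2 g + 1)` has at least `4 g + 2` automorphisms.

`many2`: for the `2 g + 1` numbers `ζ` with `ζ ^ (2 g + 1) = 1` (`2 g + 1` is odd, so not `0` in `k`; `IsAlgClosed`) and `e = 0, 1`:
`(x, y) ↦ (ζ x, y + e)` (`auto_of2`); they are distinct (`x ≠ 0`, `0 ≠ 1`).  Compare `Helper28.HA.C2`.
-/

set_option autoImplicit false

namespace Pool.Agent.Helper22.HB

open Polynomial OnePoint Pool.Agent.Helper28.HA

theorem many2 {k F : Type*} [Field k] [IsAlgClosed k] [CharP k 2] [Field F] [Algebra k F] {g : ℕ}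
    {x y : F} (h : Pres2 k F g x y (X ^ (2 * g + 1) : k[X]) 1) [Finite (F ≃ₐ[k] F)] :
    4 * g + 2 ≤ Nat.card (F ≃ₐ[k] F) := by
  classical
  set n := 2 * g + 1 with hn
  have h0 : ((n : ℕ) : k) ≠ 0 := by
    intro h1
    rw [CharP.cast_eq_zero_iff k 2] at h1
    omega
  have h2F : (2 : F) = 0 := by
    have h1 : (2 : k) = 0 := by
      have h2 : ((2 : ℕ) : k) = 0 := (CharP.cast_eq_zero_iff k 2 2).2 dvd_rfl
      exact_mod_cast h2
    have h3 : algebraMap k F 2 = 0 := by rw [h1, map_zero]
    rwa [map_ofNat] at h3
  have hx0 : x ≠ 0 := by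
    rintro rfl
    exact h.trans isAlgebraic_zero
  have heq : y ^ 2 + y = x ^ n := by
    have := h.eqn
    simpa using this
  have : NeZero (n : k) := ⟨h0⟩
  have : NeZero n := ⟨by omega⟩
  let sg : Bool → F := fun b => if b then 1 else 0
  have hsg2 : ∀ b, sg b ^ 2 + sg b = 0 := by
    intro b
    cases b
    · simp [sg]
    · simp only [sg, if_true]
      linear_combination h2F
  have hsginj : ∀ b b', sg b = sg b' → b = b' := by
    intro b b' e
    cases b <;> cases b' <;> simp [sg] at e ⊢
  let zz : rootsOfUnity n k → F := fun z => algebraMap k F (z.1 : k)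
  have hz : ∀ z, zz z ^ n = 1 := by
    intro z
    have h1 := (mem_rootsOfUnity' n z.1).1 z.2
    show (algebraMap k F (z.1 : k)) ^ n = 1
    rw [← map_pow, h1, map_one]
  have hz0 : ∀ z, zz z ≠ 0 := by
    intro z e
    have := hz z
    rw [e, zero_pow (by omega)] at this
    exact zero_ne_one this
  have hzinj : Function.Injective zz := by
    intro z z' e
    apply Subtype.ext
    apply Units.ext
    exact (algebraMap k F).injective e
  have hauto : ∀ t : rootsOfUnity n k × Bool, ∃ s : F ≃ₐ[k] F, s x = zz t.1 * x ∧
      s y = y + sg t.2 := by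
    rintro ⟨z, e⟩
    refine auto_of2 h _ _ ?_ ?_
    · simp only [map_pow, aeval_X]
      rw [mul_pow, hz, one_mul, ← heq]
      linear_combination hsg2 e + y * sg e * h2F
    · rw [eq_top_iff, ← h.gen, IntermediateField.adjoin_le_iff]
      have hX : zz z * x ∈ IntermediateField.adjoin k {zz z * x, y + sg e} :=
        IntermediateField.subset_adjoin _ _ (Or.inl rfl)
      have hY : y + sg e ∈ IntermediateField.adjoin k {zz z * x, y + sg e} :=
        IntermediateField.subset_adjoin _ _ (Or.inr rfl)
      rintro w (rfl | rfl)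
      · have h3 := IntermediateField.div_mem _ hX
          (IntermediateField.algebraMap_mem _ (z.1 : k))
        have h4 : zz z * w / algebraMap k F (z.1 : k) = w := by
          show zz z * w / zz z = w
          rw [mul_div_cancel_left₀ _ (hz0 z)]
        rw [h4] at h3
        exact h3
      · have h5 : sg e ∈ IntermediateField.adjoin k {zz z * x, w + sg e} := by
          cases e
          · simp only [sg, Bool.false_eq_true, if_false]
            exact zero_mem _
          · simp only [sg, if_true]
            exact one_mem _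
        have h6 := sub_mem hY h5
        rw [add_sub_cancel_right] at h6
        exact h6
  choose s hs using hauto
  have hinj : Function.Injective s := by
    rintro ⟨z, e⟩ ⟨z', e'⟩ hss
    have h1 : zz z * x = zz z' * x := by
      rw [← (hs (z, e)).1, ← (hs (z', e')).1, hss]
    have h3 : y + sg e = y + sg e' := by
      rw [← (hs (z, e)).2, ← (hs (z', e')).2, hss]
    have h5 : z = z' := hzinj (mul_right_cancel₀ hx0 h1)
    have h6 : e = e' := hsginj _ _ (add_left_cancel h3)
    rw [h5, h6]
  have hcard := Nat.card_le_card_of_injective s hinj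
  rw [Nat.card_prod, HasEnoughRootsOfUnity.natCard_rootsOfUnity] at hcard
  rw [Nat.card_eq_fintype_card (α := Bool), Fintype.card_bool] at hcard
  omega

end Pool.Agent.Helper22.HB
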