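import Pool.Agent.Helper22.HB.Upper
import Pool.Agent.Helper22.HB.Aut
import Pool.Agent.Helper22.HB.Many

/-!
MP_143e28_ag, project HB (helper22): assembly.
-/

set_option autoImplicit false

namespace Pool.Agent.Helper22.HB

open Polynomial OnePoint Pool.Agent.Helper28.HA

/-- the automorphism groups of the hyperelliptic curves of genus `g` over `k` are finite, of order at most
`n`, and one of them has order `n` -/
def IsMaxHyp2.{u} (k : Type u) [Field k] (g n : ℕ) : Prop :=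
  (∀ (F : Type u) [Field F] [Algebra k F], IsHyp2 k F g →
    Finite (F ≃ₐ[k] F) ∧ Nat.card (F ≃ₐ[k] F) ≤ n) ∧
  ∃ (F : Type u) (_ : Field F) (_ : Algebra k F), IsHyp2 k F g ∧ Nat.card (F ≃ₐ[k] F) = n

theorem fin_all {k F : Type*} [Field k] [IsAlgClosed k] [CharP k 2] [Field F] [Algebra k F]
    {g : ℕ} (hg : 2 ≤ g) (h : IsHyp2 k F g) :
    Finite (F ≃ₐ[k] F) ∧ Nat.card (F ≃ₐ[k] F) ≤ 2 * (2 * g + 2) ^ 3 := by
  obtain ⟨x, y, A, B, h⟩ := h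
  obtain ⟨h1, h2⟩ := grp_fin h.cop h.ne h.odd hg h.genus
  obtain ⟨h3, h4⟩ := auto_group2 hg h h1
  exact ⟨h3, h4.trans (Nat.mul_le_mul_left 2 h2)⟩

theorem upper2 {k F : Type*} [Field k] [IsAlgClosed k] [CharP k 2] [Field F] [Algebra k F]
    {g r : ℕ} (hr : r.Prime) (hr3 : r % 4 = 3) (hg : g + 1 = 2 * r) (h : IsHyp2 k F g) :
    Nat.card (F ≃ₐ[k] F) ≤ 4 * g + 2 := by
  have hg2 : 2 ≤ g := by have := hr.two_le; omega
  obtain ⟨x, y, A, B, h⟩ := h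
  obtain ⟨h1, -⟩ := grp_fin h.cop h.ne h.odd hg2 h.genus
  obtain ⟨-, h4⟩ := auto_group2 hg2 h h1
  have h5 := grp_bound h.cop h.ne h.odd hr hr3 hg h.genus
  omega

theorem exists_max.{u} (k : Type u) [Field k] [IsAlgClosed k] [CharP k 2] {g : ℕ} (hg : 2 ≤ g) :
    ∃ n, IsMaxHyp2 k g n ∧ 4 * g + 2 ≤ n := by
  classical
  obtain ⟨F₀, _, _, x₀, y₀, hP⟩ := exists_pres2 k g
  have hH : IsHyp2 k F₀ g := ⟨x₀, y₀, _, _, hP⟩
  have hfin := (fin_all hg hH).1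
  have hlow := many2 hP
  obtain ⟨S, hS⟩ : ∃ S : Set ℕ, S = {n | ∃ (F : Type u) (_ : Field F) (_ : Algebra k F),
    IsHyp2 k F g ∧ Nat.card (F ≃ₐ[k] F) = n} := ⟨_, rfl⟩
  have hb : BddAbove S := by
    refine ⟨2 * (2 * g + 2) ^ 3, ?_⟩
    rw [hS]
    rintro n ⟨F, i1, i2, h, rfl⟩
    exact (fin_all hg h).2
  have hne : S.Nonempty := ⟨_, by rw [hS]; exact ⟨F₀, _, _, hH, rfl⟩⟩
  have hmem : sSup S ∈ S := Nat.sSup_mem hne hb
  refine ⟨sSup S, ⟨?_, ?_⟩, ?_⟩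
  · intro F _ _ h
    refine ⟨(fin_all hg h).1, le_csSup hb ?_⟩
    rw [hS]
    exact ⟨F, _, _, h, rfl⟩
  · rw [hS] at hmem ⊢
    exact hmem
  · refine hlow.trans (le_csSup hb ?_)
    rw [hS]
    exact ⟨F₀, _, _, hH, rfl⟩

theorem special {k : Type*} [Field k] [IsAlgClosed k] [CharP k 2] {g r n : ℕ} (hr : r.Prime)
    (hr3 : r % 4 = 3) (hg : g + 1 = 2 * r) (hn : IsMaxHyp2 k g n) : n ≤ 4 * g + 2 := by
  obtain ⟨F, _, _, h, rfl⟩ := hn.2
  exact upper2 hr hr3 hg h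

theorem inf_special : {g : ℕ | 2 ≤ g ∧ ∃ r : ℕ, r.Prime ∧ r % 4 = 3 ∧ g + 1 = 2 * r}.Infinite := by
  have h := Nat.infinite_setOf_prime_and_eq_mod (q := 4) (a := (3 : ZMod 4))
    (by decide)
  have h2 : (fun r : ℕ => 2 * r - 1) '' {p : ℕ | p.Prime ∧ (p : ZMod 4) = 3} ⊆
      {g : ℕ | 2 ≤ g ∧ ∃ r : ℕ, r.Prime ∧ r % 4 = 3 ∧ g + 1 = 2 * r} := by
    rintro _ ⟨r, ⟨hr, hr2⟩, rfl⟩
    have h3 : r % 4 = 3 := by
      have h4 : ((r : ℕ) : ZMod 4) = ((3 : ℕ) : ZMod 4) := by exact_mod_cast hr2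
      rw [ZMod.natCast_eq_natCast_iff'] at h4
      exact h4
    have := hr.two_le
    refine ⟨by dsimp only; omega, r, hr, h3, by dsimp only; omega⟩
  refine Set.Infinite.mono h2 (h.image ?_)
  intro a ha b hb hab
  have h5 := ha.1.two_le
  have h6 := hb.1.two_le
  dsimp only at hab
  omega

theorem sign_aux (P : ℚ[X]) (hP : P ≠ 0) (S T : Set ℕ) (hS : S.Infinite) (hT : T.Infinite)
    (h1 : ∀ g ∈ S, P.eval (g : ℚ) ≤ 0) (h2 : ∀ g ∈ T, 0 ≤ P.eval (g : ℚ)) : False := by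
  replace hS : ∃ᶠ g in Filter.atTop, g ∈ S := Nat.frequently_atTop_iff_infinite.mpr hS
  replace hT : ∃ᶠ g in Filter.atTop, g ∈ T := Nat.frequently_atTop_iff_infinite.mpr hT
  have hlc : P.leadingCoeff ≠ 0 := leadingCoeff_ne_zero.mpr hP
  by_cases hd : 0 < P.degree
  · rcases lt_or_gt_of_ne hlc with h | h
    · have ht := (P.tendsto_atBot_of_leadingCoeff_nonpos hd h.le).comp
        (tendsto_natCast_atTop_atTop (R := ℚ))
      obtain ⟨g, hg, hg'⟩ := (hT.and_eventually (ht.eventually_lt_atBot 0)).exists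
      exact absurd (h2 g hg) (not_le.mpr hg')
    · have ht := (P.tendsto_atTop_of_leadingCoeff_nonneg hd h.le).comp
        (tendsto_natCast_atTop_atTop (R := ℚ))
      obtain ⟨g, hg, hg'⟩ := (hS.and_eventually (ht.eventually_gt_atTop 0)).exists
      exact absurd (h1 g hg) (not_le.mpr hg')
  · have hc : P = C (P.coeff 0) := eq_C_of_degree_le_zero (not_lt.mp hd)
    obtain ⟨g, hg⟩ := hS.exists
    obtain ⟨g', hg'⟩ := hT.exists
    have e1 := h1 g hg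
    have e2 := h2 g' hg'
    rw [hc, eval_C] at e1 e2
    apply hP
    rw [hc, le_antisymm e1 e2, C_0]

theorem main2.{u} (k : Type u) [Field k] [IsAlgClosed k] [CharP k 2] :
    ∃ mu : ℕ → ℕ, (∀ g : ℕ, 2 ≤ g → IsMaxHyp2 k g (mu g) ∧ 4 * g + 2 ≤ mu g) ∧
      (∀ g r : ℕ, r.Prime → r % 4 = 3 → g + 1 = 2 * r → mu g = 4 * g + 2) ∧
      ∀ M : ℚ[X], ((∀ g : ℕ, 2 ≤ g → M.eval (g : ℚ) ≤ mu g) ∧
        {g : ℕ | 2 ≤ g ∧ (mu g : ℚ) = M.eval (g : ℚ)}.Infinite) ↔ M = C 4 * X + C 2 := by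
  classical
  have hex : ∀ g : ℕ, ∃ n, 2 ≤ g → IsMaxHyp2 k g n ∧ 4 * g + 2 ≤ n := by
    intro g
    by_cases hg : 2 ≤ g
    · obtain ⟨n, hn⟩ := exists_max k hg
      exact ⟨n, fun _ => hn⟩
    · exact ⟨0, fun h => absurd h hg⟩
  choose mu hmu using hex
  have hlow : ∀ g : ℕ, 2 ≤ g → (4 * g + 2 : ℚ) ≤ mu g := by
    intro g hg
    exact_mod_cast (hmu g hg).2
  have hsp : ∀ g ∈ {g : ℕ | 2 ≤ g ∧ ∃ r : ℕ, r.Prime ∧ r % 4 = 3 ∧ g + 1 = 2 * r},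
      2 ≤ g ∧ (mu g : ℚ) = 4 * g + 2 := by
    rintro g ⟨hg, r, hr, hr3, hgr⟩
    refine ⟨hg, le_antisymm ?_ (hlow g hg)⟩
    exact_mod_cast special hr hr3 hgr (hmu g hg).1
  refine ⟨mu, fun g hg => hmu g hg, ?_, fun M => ⟨?_, ?_⟩⟩
  · intro g r hr hr3 hgr
    have hg : 2 ≤ g := by have := hr.two_le; omega
    exact le_antisymm (special hr hr3 hgr (hmu g hg).1) (hmu g hg).2
  · rintro ⟨hM1, hM2⟩
    by_contra hne
    refine sign_aux (M - (C 4 * X + C 2)) (sub_ne_zero.mpr hne) _ _ inf_special hM2 ?_ ?_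
    · intro g hg
      obtain ⟨h1, h2⟩ := hsp g hg
      have e1 := hM1 g h1
      rw [eval_sub, eval_add, eval_mul, eval_C, eval_X, eval_C]
      linarith
    · rintro g ⟨hg, hg2⟩
      have e1 := hlow g hg
      rw [hg2] at e1
      rw [eval_sub, eval_add, eval_mul, eval_C, eval_X, eval_C]
      linarith
  · rintro rfl
    refine ⟨?_, ?_⟩
    · intro g hg
      rw [eval_add, eval_mul, eval_C, eval_X, eval_C]
      exact hlow g hg
    · refine inf_special.mono ?_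
      intro g hg
      obtain ⟨h1, h2⟩ := hsp g hg
      refine ⟨h1, ?_⟩
      rw [h2, eval_add, eval_mul, eval_C, eval_X, eval_C]

end Pool.Agent.Helper22.HB
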