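import Mathlib

/-!
MP_143e28_ag, project HB (helper22): Gauss lemma (all characteristics).

`z ∉ k(x)` is a root of `a Z ^ 2 + b Z + c`, primitive in `k[X][Z]` (`hprim`), irreducible over `k(x)` (degree 2, no root in `k(x)`, since
if it had one it would split and `z` would be one of the roots).  `Q (x, z) = 0`: it divides `Q` over `k(x)`, so in `k[X][Z]`
(`Polynomial.IsPrimitive.dvd_of_fraction_map_dvd_fraction_map`).  The degree in `X` is additive (`k[X][Z] = k[Z][X]`,
`Polynomial.Bivariate.swap`, or: `Polynomial.Gauss`-like sup of degrees), so some coefficient of `Q` has degree at least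
`max (deg a, deg b, deg c)`.
-/

set_option autoImplicit false

namespace Pool.Agent.Helper22.HB

open Polynomial

variable {k F : Type*} [Field k] [Field F] [Algebra k F]

theorem Gauss_swap_coeff (p : Polynomial (Polynomial k)) (n i : ℕ) :
    ((Bivariate.swap p).coeff n).coeff i = (p.coeff i).coeff n := by
  induction p using Polynomial.induction_on' with
  | add p q hp hq => simp [hp, hq]
  | monomial m f =>
    induction f using Polynomial.induction_on' with
    | add f g hf hg =>
      rw [map_add (Polynomial.monomial m), map_add, Polynomial.coeff_add, Polynomial.coeff_add, hf,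
        hg, Polynomial.coeff_add, Polynomial.coeff_add]
    | monomial l r =>
      rw [Bivariate.swap_monomial_monomial]
      simp only [Polynomial.coeff_monomial]
      by_cases h1 : l = n <;> by_cases h2 : m = i <;> simp [h1, h2, Polynomial.coeff_monomial]

theorem Gauss_swap_natDegree_le {p : Polynomial (Polynomial k)} (hp : p ≠ 0) :
    ∃ i, (Bivariate.swap p).natDegree ≤ (p.coeff i).natDegree := by
  have h1 : Bivariate.swap p ≠ 0 := by
    intro h
    exact hp ((map_eq_zero_iff _ (Bivariate.swap (R := k)).injective).1 h)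
  have h2 : (Bivariate.swap p).coeff (Bivariate.swap p).natDegree ≠ 0 := by
    rw [Polynomial.coeff_natDegree]
    exact Polynomial.leadingCoeff_ne_zero.2 h1
  obtain ⟨i, hi⟩ : ∃ i, ((Bivariate.swap p).coeff (Bivariate.swap p).natDegree).coeff i ≠ 0 := by
    by_contra h
    push Not at h
    exact h2 (Polynomial.ext (by simpa using h))
  rw [Gauss_swap_coeff] at hi
  exact ⟨i, Polynomial.le_natDegree_of_ne_zero hi⟩

theorem Gauss_le_swap_natDegree (p : Polynomial (Polynomial k)) (i : ℕ) :
    (p.coeff i).natDegree ≤ (Bivariate.swap p).natDegree := by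
  by_cases h : p.coeff i = 0
  · rw [h]
    simp
  · have h1 : (p.coeff i).coeff (p.coeff i).natDegree ≠ 0 := by
      rw [Polynomial.coeff_natDegree]
      exact Polynomial.leadingCoeff_ne_zero.2 h
    rw [← Gauss_swap_coeff] at h1
    refine Polynomial.le_natDegree_of_ne_zero ?_
    intro h2
    rw [h2] at h1
    simp at h1

theorem gauss_deg {x z : F} (hx : Transcendental k x) (hz : z ∉ IntermediateField.adjoin k {x})
    {a b c : k[X]} (ha : a ≠ 0) (hprim : ∀ d : k[X], d ∣ a → d ∣ b → d ∣ c → IsUnit d)
    (h0 : aeval x a * z ^ 2 + aeval x b * z + aeval x c = 0) (Q : Polynomial (Polynomial k))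
    (hQ : Q ≠ 0) (hQ0 : Q.eval₂ (aeval x : k[X] →ₐ[k] F).toRingHom z = 0) :
    ∃ i, max (max a.natDegree b.natDegree) c.natDegree ≤ (Q.coeff i).natDegree := by
  classical
  -- the polynomial of `z`
  set P : Polynomial (Polynomial k) := C a * X ^ 2 + C b * X + C c with hP
  have hP2 : P.coeff 2 = a := by
    rw [hP]
    simp [Polynomial.coeff_X, Polynomial.coeff_C]
  have hP1 : P.coeff 1 = b := by
    rw [hP]
    simp [Polynomial.coeff_X, Polynomial.coeff_C, Polynomial.coeff_X_pow]
  have hP0 : P.coeff 0 = c := by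
    rw [hP]
    simp
  have hPprim : P.IsPrimitive := by
    intro d hd
    rw [Polynomial.C_dvd_iff_dvd_coeff] at hd
    exact hprim d (hP2 ▸ hd 2) (hP1 ▸ hd 1) (hP0 ▸ hd 0)
  have hPne : P ≠ 0 := by
    intro h
    rw [h] at hP2
    exact ha (by simpa using hP2.symm)
  have hPdeg : P.natDegree = 2 := by
    rw [hP]
    exact Polynomial.natDegree_quadratic ha
  -- the field `k(x)`
  have hinj : Function.Injective (aeval x : k[X] →ₐ[k] F) :=
    transcendental_iff_injective.1 hx
  let φ : RatFunc k →ₐ[k] F := RatFunc.liftAlgHom (aeval x)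
    (nonZeroDivisors_le_comap_nonZeroDivisors_of_injective _ hinj)
  have hφp : ∀ f : k[X], φ (algebraMap k[X] (RatFunc k) f) = aeval x f := by
    intro f
    have h1 := RatFunc.liftAlgHom_apply_div (aeval x : k[X] →ₐ[k] F)
      (nonZeroDivisors_le_comap_nonZeroDivisors_of_injective _ hinj) f 1
    rw [map_one, map_one, div_one, div_one] at h1
    exact h1
  let _ : Algebra (RatFunc k) F := φ.toRingHom.toAlgebra
  have hmap : ∀ r : RatFunc k, algebraMap (RatFunc k) F r = φ r := fun _ => rfl
  have hzr : z ∉ (algebraMap (RatFunc k) F).range := by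
    rintro ⟨r, hr⟩
    apply hz
    rw [← hr, hmap]
    show RatFunc.liftAlgHom _ _ r ∈ _
    rw [RatFunc.liftAlgHom_apply]
    refine div_mem ?_ ?_
    · exact IntermediateField.algebra_adjoin_le_adjoin k _ (aeval_mem_adjoin_singleton k x)
    · exact IntermediateField.algebra_adjoin_le_adjoin k _ (aeval_mem_adjoin_singleton k x)
  have heval : ∀ G : Polynomial (Polynomial k), aeval z (G.map (algebraMap k[X] (RatFunc k))) =
      G.eval₂ (aeval x : k[X] →ₐ[k] F).toRingHom z := by
    intro G
    rw [Polynomial.aeval_def, Polynomial.eval₂_map]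
    refine Polynomial.eval₂_congr ?_ rfl rfl
    refine RingHom.ext fun f => ?_
    rw [RingHom.comp_apply, hmap]
    exact hφp f
  have hPz : aeval z (P.map (algebraMap k[X] (RatFunc k))) = 0 := by
    rw [heval, hP]
    simp only [Polynomial.eval₂_add, Polynomial.eval₂_mul, Polynomial.eval₂_C,
      Polynomial.eval₂_pow, Polynomial.eval₂_X]
    exact h0
  have hQz : aeval z (Q.map (algebraMap k[X] (RatFunc k))) = 0 := by
    rw [heval]
    exact hQ0
  have hinjK : Function.Injective (algebraMap k[X] (RatFunc k)) := IsFractionRing.injective _ _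
  have hPK : P.map (algebraMap k[X] (RatFunc k)) ≠ 0 :=
    (Polynomial.map_ne_zero_iff hinjK).2 hPne
  have hint : IsIntegral (RatFunc k) z := IsAlgebraic.isIntegral ⟨_, hPK, hPz⟩
  have hmd : 2 ≤ (minpoly (RatFunc k) z).natDegree := (minpoly.two_le_natDegree_iff hint).2 hzr
  obtain ⟨S1, hS1⟩ := minpoly.dvd (RatFunc k) z hPz
  have hS1ne : S1 ≠ 0 := by
    rintro rfl
    exact hPK (by rw [hS1, mul_zero])
  have hd1 : (P.map (algebraMap k[X] (RatFunc k))).natDegree = 2 := by
    rw [Polynomial.natDegree_map_eq_of_injective hinjK, hPdeg]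
  have hS1d : S1.natDegree = 0 := by
    have h1 := hd1
    rw [hS1, Polynomial.natDegree_mul (minpoly.ne_zero hint) hS1ne] at h1
    omega
  have hS1u : IsUnit S1 := by
    rw [Polynomial.eq_C_of_natDegree_eq_zero hS1d] at hS1ne ⊢
    exact Polynomial.isUnit_C.2 (isUnit_iff_ne_zero.2 (fun h => hS1ne (by rw [h, C_0])))
  have hdvdK : P.map (algebraMap k[X] (RatFunc k)) ∣ Q.map (algebraMap k[X] (RatFunc k)) := by
    rw [hS1]
    exact (hS1u.mul_right_dvd).2 (minpoly.dvd (RatFunc k) z hQz)
  have hdvd : P ∣ Q := hPprim.dvd_of_fraction_map_dvd_fraction_map hdvdK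
  obtain ⟨S, hS⟩ := hdvd
  have hSne : S ≠ 0 := by
    rintro rfl
    exact hQ (by rw [hS, mul_zero])
  obtain ⟨i, hi⟩ := Gauss_swap_natDegree_le hQ
  refine ⟨i, le_trans ?_ hi⟩
  have hne : ∀ G : Polynomial (Polynomial k), G ≠ 0 → Bivariate.swap G ≠ 0 := by
    intro G hG h
    exact hG ((map_eq_zero_iff _ (Bivariate.swap (R := k)).injective).1 h)
  have h1 : (Bivariate.swap P).natDegree ≤ (Bivariate.swap Q).natDegree := by
    rw [hS, map_mul, Polynomial.natDegree_mul (hne P hPne) (hne S hSne)]
    omega
  refine le_trans ?_ h1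
  refine max_le (max_le ?_ ?_) ?_
  · have := Gauss_le_swap_natDegree P 2
    rwa [hP2] at this
  · have := Gauss_le_swap_natDegree P 1
    rwa [hP1] at this
  · have := Gauss_le_swap_natDegree P 0
    rwa [hP0] at this

end Pool.Agent.Helper22.HB
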