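import Pool.Agent.Helper22.HB.As

/-!
MP_143e28_ag, project HB (helper22): the degree of a function outside `k(x)`: the inequality.

`a c / b ^ 2 = f + h ^ 2 + h`, `f = A / B`.  FINITE POLES: `h = H / D` in lowest terms, so
`a c B D ^ 2 = b ^ 2 (A D ^ 2 + B H (H + D))`.  Let `m = mult_P B > 0` (odd), `n = mult_P D`, `v = mult_P`.  `n = 0` or `2 n < m`: `v (A D ^ 2 + ...)
= 2 n` and `v (a c) + m + 2 n = 2 v (b) + 2 n`; `2 n > m`: `v (A D ^ 2 + ...) = m`, `v (a c) + m + 2 n = 2 v (b) + m`: always `2 v (b) ≥ m`, so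
`2 v (b) ≥ m + 1`.  (`fin_ineq`.)  INFINITY: `m = deg A - deg B > 0` odd: `deg (a c) - 2 deg b = deg (f + h ^ 2 + h) ≥ m` (`deg_as`: if
`deg h > 0`, `deg (h ^ 2 + h) = 2 deg h ≠ m`; the degree of the sum is the larger one).  (`inf_ineq`.)
`ineq`: `deg b ≥ ∑_(finite P) (m_P + 1) / 2` (the powers `(X - P) ^ ((m_P + 1) / 2)` are coprime and divide `b ≠ 0`; or
`∑ mult_P b ≤ deg b`); if `∞` is no pole the sum is `g + 1`; otherwise `2 max (deg a, deg c) ≥ deg (a c) ≥ 2 deg b + m_∞`, so
`max (deg a, deg c) ≥ deg b + (m_∞ + 1) / 2 ≥ g + 1`.  (`c = 0` is impossible: `f` has a pole of odd order.)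
-/

set_option autoImplicit false

namespace Pool.Agent.Helper22.HB

open Polynomial OnePoint Pool.Agent.Helper28.HA

variable {k : Type*} [Field k]

theorem Ineq_add {p q : k[X]} {P : k} (hp : p ≠ 0)
    (h : q = 0 ∨ p.rootMultiplicity P < q.rootMultiplicity P) :
    p + q ≠ 0 ∧ (p + q).rootMultiplicity P = p.rootMultiplicity P := by
  by_cases hq : q = 0
  · subst hq; simp [hp]
  have h1 : p.rootMultiplicity P < q.rootMultiplicity P := h.resolve_left hq
  have h2 : (X - C P) ^ (p.rootMultiplicity P + 1) ∣ q := (le_rootMultiplicity_iff hq).1 h1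
  have h3 : ¬ (X - C P) ^ (p.rootMultiplicity P + 1) ∣ p := by
    intro h4
    have := (le_rootMultiplicity_iff hp).2 h4
    omega
  have h4 : ¬ (X - C P) ^ (p.rootMultiplicity P + 1) ∣ p + q := fun h5 =>
    h3 ((dvd_add_left h2).1 h5)
  have h5 : p + q ≠ 0 := by
    intro h6
    rw [h6] at h4
    exact h4 (dvd_zero _)
  refine ⟨h5, le_antisymm ?_ ?_⟩
  · by_contra h6
    exact h4 ((le_rootMultiplicity_iff h5).1 (by omega))
  · rw [le_rootMultiplicity_iff h5]
    exact dvd_add ((le_rootMultiplicity_iff hp).1 le_rfl)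
      ((le_rootMultiplicity_iff hq).1 h1.le)

theorem Ineq_cop {p q : k[X]} (h : IsCoprime p q) {P : k} (hq : q.rootMultiplicity P ≠ 0) :
    p.rootMultiplicity P = 0 := by
  by_contra hp
  have h1 : p.IsRoot P := by
    by_contra h2
    exact hp (rootMultiplicity_eq_zero h2)
  have h3 : q.IsRoot P := by
    by_contra h2
    exact hq (rootMultiplicity_eq_zero h2)
  obtain ⟨u, v, huv⟩ := h
  have h4 := congrArg (eval P) huv
  rw [eval_add, eval_mul, eval_mul, h1.eq_zero, h3.eq_zero, eval_one] at h4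
  simp at h4

theorem Ineq_mul {p q : k[X]} (hp : p ≠ 0) (hq : q ≠ 0) (P : k) :
    (p * q).rootMultiplicity P = p.rootMultiplicity P + q.rootMultiplicity P :=
  rootMultiplicity_mul (mul_ne_zero hp hq)

theorem Ineq_sq {p : k[X]} (hp : p ≠ 0) (P : k) :
    (p ^ 2).rootMultiplicity P = 2 * p.rootMultiplicity P := by
  rw [pow_two, Ineq_mul hp hp]; ring

/-- the equation with polynomials -/
theorem Ineq_poly {A B : k[X]} (hB : B ≠ 0) {a b c : k[X]}
    (hb : b ≠ 0) {h : RatFunc k} (he : rf (a * c) (b ^ 2) = rf A B + h ^ 2 + h) :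
    a * c * B * h.denom ^ 2 =
      b ^ 2 * (A * h.denom ^ 2 + B * (h.num * (h.num + h.denom))) := by
  apply RatFunc.algebraMap_injective k
  have hD : h.denom ≠ 0 := h.denom_ne_zero
  have h1 : algebraMap k[X] (RatFunc k) h.denom ≠ 0 := RatFunc.algebraMap_ne_zero hD
  have h2 : algebraMap k[X] (RatFunc k) B ≠ 0 := RatFunc.algebraMap_ne_zero hB
  have h3 : algebraMap k[X] (RatFunc k) b ≠ 0 := RatFunc.algebraMap_ne_zero hb
  have h4 : h = algebraMap k[X] (RatFunc k) h.num / algebraMap k[X] (RatFunc k) h.denom :=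
    (RatFunc.num_div_denom h).symm
  simp only [rf, map_mul, map_pow] at he
  simp only [map_mul, map_pow, map_add]
  generalize hn : algebraMap k[X] (RatFunc k) h.num = n at h4 ⊢
  generalize hd : algebraMap k[X] (RatFunc k) h.denom = d at h1 h4 ⊢
  rw [h4] at he
  generalize algebraMap k[X] (RatFunc k) a = a' at he ⊢
  generalize algebraMap k[X] (RatFunc k) b = b' at he h3 ⊢
  generalize algebraMap k[X] (RatFunc k) c = c' at he ⊢
  generalize algebraMap k[X] (RatFunc k) A = A' at he ⊢
  generalize algebraMap k[X] (RatFunc k) B = B' at he h2 ⊢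
  field_simp at he
  linear_combination he

theorem fin_ineq {A B : k[X]} (hc : IsCoprime A B) (hB : B ≠ 0) {a b c : k[X]} (ha : a ≠ 0)
    (hb : b ≠ 0) {h : RatFunc k} (he : rf (a * c) (b ^ 2) = rf A B + h ^ 2 + h) (P : k)
    (hP : Odd (B.rootMultiplicity P)) :
    B.rootMultiplicity P + 1 ≤ 2 * b.rootMultiplicity P := by
  have h1 := Ineq_poly hB hb he
  have hD : h.denom ≠ 0 := h.denom_ne_zero
  have hcop : IsCoprime h.num h.denom := RatFunc.isCoprime_num_denom h
  have hm : B.rootMultiplicity P ≠ 0 := by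
    rintro h2
    rw [h2] at hP
    exact (Nat.not_odd_iff_even.2 Even.zero) hP
  have hA : A.rootMultiplicity P = 0 := Ineq_cop hc hm
  have hA0 : A ≠ 0 := by
    rintro rfl
    have h2 : IsUnit B := isCoprime_zero_left.1 hc
    obtain ⟨u, hu, rfl⟩ := Polynomial.isUnit_iff.1 h2
    exact hm (by rw [rootMultiplicity_C])
  generalize hSd : A * h.denom ^ 2 + B * (h.num * (h.num + h.denom)) = S at h1
  have h3 : (A * h.denom ^ 2).rootMultiplicity P = 2 * h.denom.rootMultiplicity P := by
    rw [Ineq_mul hA0 (pow_ne_zero 2 hD), hA, zero_add, Ineq_sq hD]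
  have hAD : A * h.denom ^ 2 ≠ 0 := mul_ne_zero hA0 (pow_ne_zero 2 hD)
  have key : S ≠ 0 ∧ (S.rootMultiplicity P = 2 * h.denom.rootMultiplicity P ∨
      (S.rootMultiplicity P = B.rootMultiplicity P ∧
        B.rootMultiplicity P < 2 * h.denom.rootMultiplicity P)) := by
    by_cases hz : h.num * (h.num + h.denom) = 0
    · rw [hz, mul_zero, add_zero] at hSd
      rw [← hSd]
      exact ⟨hAD, Or.inl h3⟩
    have hn0 : h.num ≠ 0 := left_ne_zero_of_mul hz
    have hnd0 : h.num + h.denom ≠ 0 := right_ne_zero_of_mul hz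
    have h4 : (B * (h.num * (h.num + h.denom))).rootMultiplicity P =
        B.rootMultiplicity P + (h.num.rootMultiplicity P + (h.num + h.denom).rootMultiplicity P) := by
      rw [Ineq_mul hB hz, Ineq_mul hn0 hnd0]
    rcases lt_or_ge (2 * h.denom.rootMultiplicity P) (B.rootMultiplicity P) with h5 | h5
    · have h6 := Ineq_add (P := P) hAD (q := B * (h.num * (h.num + h.denom)))
        (Or.inr (by rw [h3, h4]; omega))
      rw [hSd, h3] at h6
      exact ⟨h6.1, Or.inl h6.2⟩
    · have h6 : h.denom.rootMultiplicity P ≠ 0 := by omega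
      have h7 : h.num.rootMultiplicity P = 0 := Ineq_cop hcop h6
      have hcop2 : IsCoprime (h.num + h.denom) h.denom := by
        have := hcop.add_mul_left_left 1
        rwa [mul_one] at this
      have h8 : (h.num + h.denom).rootMultiplicity P = 0 := Ineq_cop hcop2 h6
      have h9 : B.rootMultiplicity P < 2 * h.denom.rootMultiplicity P := by
        refine lt_of_le_of_ne h5 ?_
        intro h10
        rw [h10] at hP
        exact (Nat.not_odd_iff_even.2 (even_two_mul _)) hP
      rw [h7, h8, add_zero, add_zero] at h4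
      have h10 := Ineq_add (P := P) (p := B * (h.num * (h.num + h.denom))) (mul_ne_zero hB hz)
        (q := A * h.denom ^ 2) (Or.inr (by rw [h3, h4]; exact h9))
      rw [add_comm, hSd, h4] at h10
      exact ⟨h10.1, Or.inr ⟨h10.2, h9⟩⟩
  obtain ⟨hS0, hS⟩ := key
  have hc0 : c ≠ 0 := by
    rintro rfl
    rw [mul_zero, zero_mul, zero_mul] at h1
    exact (mul_ne_zero (pow_ne_zero 2 hb) hS0) h1.symm
  have h11 := congrArg (rootMultiplicity P) h1
  rw [Ineq_mul (mul_ne_zero (mul_ne_zero ha hc0) hB) (pow_ne_zero 2 hD),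
    Ineq_mul (mul_ne_zero ha hc0) hB, Ineq_mul ha hc0, Ineq_mul (pow_ne_zero 2 hb) hS0,
    Ineq_sq hb, Ineq_sq hD] at h11
  obtain ⟨j, hj⟩ := hP
  rcases hS with hS | ⟨hS, hlt⟩
  · rw [hS] at h11
    omega
  · rw [hS] at h11
    omega

theorem Ineq_deg {p q : k[X]} (hp : p ≠ 0) (hq : q ≠ 0) :
    (rf p q).intDegree = (p.natDegree : ℤ) - q.natDegree := by
  have hp1 : algebraMap k[X] (RatFunc k) p ≠ 0 := RatFunc.algebraMap_ne_zero hp
  have hq1 : algebraMap k[X] (RatFunc k) q ≠ 0 := RatFunc.algebraMap_ne_zero hq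
  have h1 : rf p q * algebraMap k[X] (RatFunc k) q = algebraMap k[X] (RatFunc k) p :=
    div_mul_cancel₀ _ hq1
  have h2 : rf p q ≠ 0 := div_ne_zero hp1 hq1
  have h3 := congrArg RatFunc.intDegree h1
  rw [RatFunc.intDegree_mul h2 hq1, RatFunc.intDegree_polynomial, RatFunc.intDegree_polynomial] at h3
  linarith

theorem inf_ineq {A B : k[X]} (hc : IsCoprime A B) (hB : B ≠ 0) {a b c : k[X]} (ha : a ≠ 0)
    (hb : b ≠ 0) {h : RatFunc k} (he : rf (a * c) (b ^ 2) = rf A B + h ^ 2 + h)
    (hP : Odd (A.natDegree - B.natDegree)) :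
    A.natDegree - B.natDegree + 2 * b.natDegree ≤ a.natDegree + c.natDegree := by
  have hA0 : A ≠ 0 := by
    rintro rfl
    simp at hP
  obtain ⟨j, hj⟩ := hP
  have hlt : B.natDegree < A.natDegree := by omega
  have hf0 : rf A B ≠ 0 :=
    div_ne_zero (RatFunc.algebraMap_ne_zero hA0) (RatFunc.algebraMap_ne_zero hB)
  have hfd := Ineq_deg hA0 hB
  have he' : rf (a * c) (b ^ 2) = rf A B + (h ^ 2 + h) := by rw [he]; ring
  have key : rf (a * c) (b ^ 2) ≠ 0 ∧ (rf A B).intDegree ≤ (rf (a * c) (b ^ 2)).intDegree := by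
    rcases le_or_gt h.intDegree 0 with hu | hu
    · have h1 := As_le hu
      have h2 := As_add_of_lt (r := rf A B) (s := h ^ 2 + h) hf0
        (Or.inr (lt_of_le_of_lt h1 (by rw [hfd]; omega)))
      rw [← he'] at h2
      exact ⟨h2.1, h2.2.ge⟩
    · obtain ⟨hne, hdeg⟩ := deg_as hu
      rcases lt_trichotomy (rf A B).intDegree (h ^ 2 + h).intDegree with h5 | h5 | h5
      · have h6 := As_add_of_lt (r := h ^ 2 + h) (s := rf A B) hne (Or.inr h5)
        rw [add_comm, ← he'] at h6
        exact ⟨h6.1, by rw [h6.2]; exact h5.le⟩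
      · exfalso
        rw [hfd, hdeg] at h5
        omega
      · have h6 := As_add_of_lt (r := rf A B) (s := h ^ 2 + h) hf0 (Or.inr h5)
        rw [← he'] at h6
        exact ⟨h6.1, h6.2.ge⟩
  obtain ⟨hs0, hs⟩ := key
  have hc0 : c ≠ 0 := by
    rintro rfl
    apply hs0
    simp [rf]
  rw [hfd, Ineq_deg (mul_ne_zero ha hc0) (pow_ne_zero 2 hb), natDegree_mul ha hc0,
    natDegree_pow] at hs
  push_cast at hs
  omega

theorem Ineq_sum [DecidableEq k] (B b : k[X]) (hb : b ≠ 0)
    (hle : ∀ P ∈ B.roots.toFinset, B.rootMultiplicity P + 1 ≤ 2 * b.rootMultiplicity P) :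
    ∑ P ∈ B.roots.toFinset, (B.rootMultiplicity P + 1) ≤ 2 * b.natDegree := by
  calc ∑ P ∈ B.roots.toFinset, (B.rootMultiplicity P + 1)
      ≤ ∑ P ∈ B.roots.toFinset, 2 * b.rootMultiplicity P := Finset.sum_le_sum hle
    _ ≤ ∑ P ∈ b.roots.toFinset, 2 * b.rootMultiplicity P := by
        apply Finset.sum_le_sum_of_subset
        intro P hP
        have h1 := hle P hP
        rw [Multiset.mem_toFinset, mem_roots hb]
        by_contra h2
        rw [rootMultiplicity_eq_zero h2] at h1
        omega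
    _ = 2 * ∑ P ∈ b.roots.toFinset, b.roots.count P := by
        rw [Finset.mul_sum]
        exact Finset.sum_congr rfl fun P _ => by rw [count_roots]
    _ = 2 * Multiset.card b.roots := by rw [Multiset.toFinset_sum_count_eq]
    _ ≤ 2 * b.natDegree := Nat.mul_le_mul_left 2 (card_roots' b)

theorem ineq {A B : k[X]} (hc : IsCoprime A B) (hB : B ≠ 0)
    (hodd : ∀ P : OnePoint k, pol A B P ≠ 0 → Odd (pol A B P)) {g : ℕ}
    (hsum : ∑ᶠ P : OnePoint k, (if pol A B P = 0 then 0 else pol A B P + 1) = 2 * g + 2)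
    {a b c : k[X]} (ha : a ≠ 0) (hb : b ≠ 0) {h : RatFunc k}
    (he : rf (a * c) (b ^ 2) = rf A B + h ^ 2 + h) :
    g + 1 ≤ max (max a.natDegree b.natDegree) c.natDegree := by
  classical
  have hpi : pol A B (∞ : OnePoint k) = A.natDegree - B.natDegree := rfl
  have hpa : ∀ P : k, pol A B (P : OnePoint k) = B.rootMultiplicity P := fun P => rfl
  have hle : ∀ P ∈ B.roots.toFinset, B.rootMultiplicity P + 1 ≤ 2 * b.rootMultiplicity P := by
    intro P hP
    apply fin_ineq hc hB ha hb he P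
    rw [← hpa]
    apply hodd
    rw [hpa]
    rw [Multiset.mem_toFinset, mem_roots hB] at hP
    exact ((rootMultiplicity_pos hB).2 hP).ne'
  have hS := Ineq_sum B b hb hle
  have hsub : Function.support (fun P : OnePoint k => if pol A B P = 0 then 0 else pol A B P + 1) ⊆
      ((insert (∞ : OnePoint k) (B.roots.toFinset.image ((↑) : k → OnePoint k)) :
        Finset (OnePoint k)) : Set (OnePoint k)) := by
    intro P hP
    induction P using OnePoint.rec with
    | infty => simp
    | coe P =>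
      rw [Function.mem_support] at hP
      have h1 : pol A B (P : OnePoint k) ≠ 0 := fun h2 => hP (if_pos h2)
      rw [hpa] at h1
      rw [Finset.mem_coe, Finset.mem_insert, Finset.mem_image]
      refine Or.inr ⟨P, ?_, rfl⟩
      rw [Multiset.mem_toFinset, mem_roots hB]
      by_contra h2
      exact h1 (rootMultiplicity_eq_zero h2)
  rw [finsum_eq_sum_of_support_subset _ hsub, Finset.sum_insert (by simp),
    Finset.sum_image (fun x _ y _ hxy => OnePoint.coe_injective hxy)] at hsum
  have hF : ∑ P ∈ B.roots.toFinset, (if pol A B (P : OnePoint k) = 0 then 0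
      else pol A B (P : OnePoint k) + 1) ≤ 2 * b.natDegree := by
    refine le_trans (Finset.sum_le_sum fun P _ => ?_) hS
    rw [hpa]
    split_ifs <;> omega
  rw [hpi] at hsum
  have hmax1 : a.natDegree ≤ max (max a.natDegree b.natDegree) c.natDegree :=
    (le_max_left _ _).trans (le_max_left _ _)
  have hmax2 : b.natDegree ≤ max (max a.natDegree b.natDegree) c.natDegree :=
    (le_max_right _ _).trans (le_max_left _ _)
  have hmax3 : c.natDegree ≤ max (max a.natDegree b.natDegree) c.natDegree := le_max_right _ _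
  by_cases h0 : A.natDegree - B.natDegree = 0
  · rw [if_pos h0] at hsum
    omega
  · rw [if_neg h0] at hsum
    have ho : Odd (A.natDegree - B.natDegree) := by
      have := hodd (∞ : OnePoint k)
      rw [hpi] at this
      exact this h0
    have h1 := inf_ineq hc hB ha hb he ho
    obtain ⟨j, hj⟩ := ho
    omega

end Pool.Agent.Helper22.HB
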