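import Pool.Agent.Helper22.HB.Deg
import Pool.Agent.Helper22.HB.As

/-!
MP_143e28_ag, project HB (helper22): the group preserves the orders of the poles.

`pol_inv`: `T ∞ = P` (`exists_move`), `(M * T) ∞ = M P`.  `sub T (sub M f) = sub (M * T) f` (`sub_sub`) and
`sub T (sub M f) = sub T f + (sub T u) ^ 2 + sub T u`; by `pol_eq` the positive parts of the degrees of `sub T f` and
`sub (M * T) f` are `pol P`, `pol (M P)`, odd or `0`; `as_deg`.
-/

set_option autoImplicit false

namespace Pool.Agent.Helper22.HB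

open Polynomial OnePoint Pool.Agent.Helper28.HA

variable {k : Type*} [Field k]

private theorem Inv_odd {A B : k[X]} (hc : IsCoprime A B) (hB : B ≠ 0)
    (hodd : ∀ P : OnePoint k, pol A B P ≠ 0 → Odd (pol A B P)) (T : GL (Fin 2) k)
    (h : 0 < (sub T (rf A B)).intDegree) : Odd (sub T (rf A B)).intDegree := by
  have h1 := pol_eq hc hB T
  rw [max_eq_right h.le] at h1
  have h2 : pol A B (mact T ∞) ≠ 0 := by
    intro h0
    rw [h0] at h1
    push_cast at h1
    omega
  have h3 := hodd _ h2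
  rw [← h1]
  exact_mod_cast h3

theorem pol_inv {A B : k[X]} (hc : IsCoprime A B) (hB : B ≠ 0)
    (hodd : ∀ P : OnePoint k, pol A B P ≠ 0 → Odd (pol A B P)) {M : GL (Fin 2) k} {u : RatFunc k}
    (h : sub M (rf A B) = rf A B + u ^ 2 + u) (P : OnePoint k) :
    pol A B (mact M P) = pol A B P := by
  obtain ⟨T, rfl⟩ := exists_move P
  have h1 : sub (M * T) (rf A B) = sub T (rf A B) + (sub T u) ^ 2 + sub T u := by
    rw [← sub_sub, h, map_add, map_add, map_pow]
  have h2 := as_deg h1 (Inv_odd hc hB hodd T) (Inv_odd hc hB hodd (M * T))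
  rw [← pol_eq hc hB T, ← pol_eq hc hB (M * T), map_mul, Equiv.Perm.mul_apply] at h2
  exact_mod_cast h2.symm

theorem grp_pol [CharP k 2] {A B : k[X]} (hc : IsCoprime A B) (hB : B ≠ 0)
    (hodd : ∀ P : OnePoint k, pol A B P ≠ 0 → Odd (pol A B P)) {s : Equiv.Perm (OnePoint k)}
    (hs : s ∈ grp A B) (P : OnePoint k) : pol A B (s P) = pol A B P := by
  obtain ⟨M, rfl, u, hu⟩ := hs
  exact pol_inv hc hB hodd hu P

end Pool.Agent.Helper22.HB
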