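import Pool.Agent.Helper22.HB.Dec
import Pool.Agent.Helper22.HB.Gauss

/-!
MP_143e28_ag, project HB (helper22): automorphisms preserve `k(x)` and act by Moebius transformations on `x`.

`deg_ge2`: `z = i u + i w y` (`dec2`), `w ≠ 0`: `z ^ 2 + w z + (u ^ 2 + u w + w ^ 2 f) = 0` (characteristic 2).  Common denominator `a` and division by the
common factor: `a z ^ 2 + b z + c = 0`, `b = a w`, `c = a (u ^ 2 + u w + w ^ 2 f)`, no common factor; `a c / b ^ 2 = f + h ^ 2 + h` with `h = u / w`: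
`ineq`, `gauss_deg`.
`auto_mem2`: as `Helper28.HA.A2.auto_mem`: `z = s x`, `s.symm x = i u + i w y`, common denominator: `c (x) s⁻¹ x = a (x) + b (x) y`, apply `s`:
`c (z) x = a (z) + b (z) s y`, so (`(s y) ^ 2 + s y = f (z)`) `(c (z) x + a (z)) ^ 2 + b (z) (c (z) x + a (z)) = b (z) ^ 2 f (z)`, multiply by `B (z)`: a polynomial
relation `Q (x, z) = 0` with coefficients of degree `≤ 2 < g + 1` in `x`, `Q ≠ 0` (coefficient of `x ^ 2` is `B (z) c (z) ^ 2`): `deg_ge2`.
`mob_of_mem`: the proof of `Helper28.HA.A2.auto_mob` (copy it: only the two memberships are used).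
-/

set_option autoImplicit false

namespace Pool.Agent.Helper22.HB

open Polynomial OnePoint Pool.Agent.Helper28.HA

variable {k F : Type*} [Field k] [Field F] [Algebra k F]

private theorem Mem_aeval_map (s : F ≃ₐ[k] F) (x : F) (p : k[X]) :
    s (aeval x p) = aeval (s x) p := by
  have h := Polynomial.aeval_algHom_apply (s : F →ₐ[k] F) x p
  exact h.symm

private theorem Mem_mem_iff {x z : F} : z ∈ IntermediateField.adjoin k {x} ↔
    ∃ r s : k[X], z = aeval x r / aeval x s := IntermediateField.mem_adjoin_simple_iff k z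

private theorem Mem_aeval_ratfunc (i : RatFunc k →ₐ[k] F) (R : RatFunc k) (p : k[X]) :
    i (aeval R p) = aeval (i R) p := (Polynomial.aeval_algHom_apply i R p).symm

/-- common denominator of two rational functions -/
private theorem Mem_common (u w : RatFunc k) : ∃ a b c : k[X], c ≠ 0 ∧
    algebraMap k[X] (RatFunc k) c * u = algebraMap k[X] (RatFunc k) a ∧
    algebraMap k[X] (RatFunc k) c * w = algebraMap k[X] (RatFunc k) b := by
  refine ⟨u.num * w.denom, w.num * u.denom, u.denom * w.denom,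
    mul_ne_zero u.denom_ne_zero w.denom_ne_zero, ?_, ?_⟩
  · have h1 := RatFunc.num_div_denom u
    have h2 : algebraMap k[X] (RatFunc k) u.denom ≠ 0 := RatFunc.algebraMap_ne_zero u.denom_ne_zero
    rw [map_mul, map_mul]
    nth_rewrite 2 [← h1]
    field_simp
  · have h1 := RatFunc.num_div_denom w
    have h2 : algebraMap k[X] (RatFunc k) w.denom ≠ 0 := RatFunc.algebraMap_ne_zero w.denom_ne_zero
    rw [map_mul, map_mul]
    nth_rewrite 2 [← h1]
    field_simp

/-- division by the greatest common divisor -/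
private theorem Mem_prim {a b c : k[X]} (ha : a ≠ 0) : ∃ d a' b' c' : k[X], d ≠ 0 ∧ a = d * a' ∧
    b = d * b' ∧ c = d * c' ∧ ∀ e : k[X], e ∣ a' → e ∣ b' → e ∣ c' → IsUnit e := by
  classical
  obtain ⟨d, hd⟩ : ∃ d, d = EuclideanDomain.gcd (EuclideanDomain.gcd a b) c := ⟨_, rfl⟩
  have h1 : d ∣ a := hd ▸ (EuclideanDomain.gcd_dvd_left _ _).trans (EuclideanDomain.gcd_dvd_left _ _)
  have h2 : d ∣ b := hd ▸ (EuclideanDomain.gcd_dvd_left _ _).trans (EuclideanDomain.gcd_dvd_right _ _)
  have h3 : d ∣ c := hd ▸ EuclideanDomain.gcd_dvd_right _ _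
  obtain ⟨a', ha'⟩ := h1
  obtain ⟨b', hb'⟩ := h2
  obtain ⟨c', hc'⟩ := h3
  have hd0 : d ≠ 0 := by
    rintro rfl
    rw [zero_mul] at ha'
    exact ha ha'
  refine ⟨d, a', b', c', hd0, ha', hb', hc', ?_⟩
  intro e h4 h5 h6
  have h7 : d * e ∣ d := by
    nth_rewrite 2 [hd]
    refine EuclideanDomain.dvd_gcd (EuclideanDomain.dvd_gcd ?_ ?_) ?_
    · rw [ha']; exact mul_dvd_mul_left d h4
    · rw [hb']; exact mul_dvd_mul_left d h5
    · rw [hc']; exact mul_dvd_mul_left d h6
  have h8 : d * e ∣ d * 1 := by rwa [mul_one]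
  exact isUnit_of_dvd_one ((mul_dvd_mul_iff_left hd0).1 h8)

theorem deg_ge2 [CharP k 2] {g : ℕ} {x y : F} {A B : k[X]} (h : Pres2 k F g x y A B) (z : F)
    (hz : z ∉ IntermediateField.adjoin k {x}) (Q : Polynomial (Polynomial k)) (hQ : Q ≠ 0)
    (h0 : Q.eval₂ (aeval x : k[X] →ₐ[k] F).toRingHom z = 0) :
    ∃ i, g + 1 ≤ (Q.coeff i).natDegree := by
  obtain ⟨i, hi⟩ := exists_emb h.trans
  obtain ⟨u, w, hz1⟩ := dec2 h i hi z
  have hpoly : ∀ p : k[X], i (algebraMap k[X] (RatFunc k) p) = aeval x p := by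
    intro p
    rw [emb_poly i p, hi]
  have hw : w ≠ 0 := by
    rintro rfl
    apply hz
    rw [map_zero, zero_mul, add_zero] at hz1
    exact (mem_iff i hi z).2 ⟨u, hz1⟩
  have he := eqn' h i hi
  have h2F : ∀ t : F, t + t = 0 := by
    intro t
    have h1 : (algebraMap k F 2) = 0 := by
      have : (2 : k) = 0 := by exact_mod_cast (CharP.cast_eq_zero k 2)
      rw [this, map_zero]
    rw [← two_mul]
    have h3 : (2 : F) = algebraMap k F 2 := by rw [map_ofNat]
    rw [h3, h1, zero_mul]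
  obtain ⟨f, hf⟩ : ∃ f, f = rf A B := ⟨_, rfl⟩
  obtain ⟨v, hv⟩ : ∃ v, v = u ^ 2 + u * w + w ^ 2 * f := ⟨_, rfl⟩
  have hquad : z ^ 2 + i w * z + i v = 0 := by
    rw [hv, map_add, map_add, map_mul, map_mul, map_pow, map_pow, hf, ← he, hz1]
    linear_combination h2F (i u ^ 2) + h2F (i u * i w) + h2F (i u * i w * y) + h2F (i w ^ 2 * y ^ 2) +
      h2F (i w ^ 2 * y)
  obtain ⟨b0, c0, a0, ha0, hb0, hc0⟩ := Mem_common w v
  obtain ⟨d, a, b, c, hd, ha, hb, hc, hprim⟩ := Mem_prim (b := b0) (c := c0) ha0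
  have hane : a ≠ 0 := by
    rintro rfl
    rw [mul_zero] at ha
    exact ha0 ha
  have hd' : algebraMap k[X] (RatFunc k) d ≠ 0 := RatFunc.algebraMap_ne_zero hd
  have ha' : algebraMap k[X] (RatFunc k) a ≠ 0 := RatFunc.algebraMap_ne_zero hane
  have hb1 : algebraMap k[X] (RatFunc k) a * w = algebraMap k[X] (RatFunc k) b := by
    rw [ha, hb, map_mul, map_mul, mul_assoc] at hb0
    exact mul_left_cancel₀ hd' hb0
  have hc1 : algebraMap k[X] (RatFunc k) a * v = algebraMap k[X] (RatFunc k) c := by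
    rw [ha, hc, map_mul, map_mul, mul_assoc] at hc0
    exact mul_left_cancel₀ hd' hc0
  have hbne : b ≠ 0 := by
    rintro rfl
    rw [map_zero] at hb1
    exact mul_ne_zero ha' hw hb1
  have hroot : aeval x a * z ^ 2 + aeval x b * z + aeval x c = 0 := by
    rw [← hpoly, ← hpoly, ← hpoly, ← hb1, ← hc1, map_mul, map_mul]
    linear_combination i (algebraMap k[X] (RatFunc k) a) * hquad
  have hrat : rf (a * c) (b ^ 2) = rf A B + (u / w) ^ 2 + u / w := by
    rw [← hf]
    unfold rf
    rw [map_mul, map_pow, ← hb1, ← hc1, hv]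
    field_simp
    ring
  have hineq := ineq h.cop h.ne h.odd h.genus hane hbne hrat
  obtain ⟨j, hj⟩ := gauss_deg h.trans hz hane hprim hroot Q hQ h0
  exact ⟨j, hineq.trans hj⟩

theorem auto_mem2 [CharP k 2] {g : ℕ} (hg : 2 ≤ g) {x y : F} {A B : k[X]}
    (h : Pres2 k F g x y A B) (s : F ≃ₐ[k] F) : s x ∈ IntermediateField.adjoin k {x} := by
  by_contra hz
  obtain ⟨i, hi⟩ := exists_emb h.trans
  obtain ⟨u, w, hr⟩ := dec2 h i hi (s.symm x)
  have hpoly : ∀ p : k[X], i (algebraMap k[X] (RatFunc k) p) = aeval x p := by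
    intro p
    rw [emb_poly i p, hi]
  obtain ⟨a, b, c, hc, hu, hw⟩ := Mem_common u w
  have hr1 : aeval x c * s.symm x = aeval x a + aeval x b * y := by
    rw [← hpoly, ← hpoly, ← hpoly, ← hu, ← hw, map_mul, map_mul, hr]
    ring
  have h1 := congrArg s hr1
  rw [map_mul, map_add, map_mul, Mem_aeval_map, Mem_aeval_map, Mem_aeval_map,
    AlgEquiv.apply_symm_apply] at h1
  have h3 := congrArg s h.eqn
  rw [map_mul, map_add, map_pow, Mem_aeval_map, Mem_aeval_map] at h3
  obtain ⟨Q, hQ⟩ : ∃ Q : Polynomial (Polynomial k), Q = (B * c ^ 2).map C * C (X ^ 2) +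
      (B * (b * c - 2 * a * c)).map C * C X + (B * (a ^ 2 - a * b) - b ^ 2 * A).map C := ⟨_, rfl⟩
  have hcoeff : ∀ j, Q.coeff j = C ((B * c ^ 2).coeff j) * X ^ 2 +
      C ((B * (b * c - 2 * a * c)).coeff j) * X +
      C ((B * (a ^ 2 - a * b) - b ^ 2 * A).coeff j) := by
    intro j
    rw [hQ, coeff_add, coeff_add, coeff_mul_C, coeff_mul_C, coeff_map, coeff_map, coeff_map]
  have hQ0 : Q ≠ 0 := by
    intro h0
    have hc2 : B * c ^ 2 ≠ 0 := mul_ne_zero h.ne (pow_ne_zero 2 hc)
    apply hc2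
    ext j
    have h4 := hcoeff j
    rw [h0, coeff_zero] at h4
    have h5 := congrArg (fun p : k[X] => p.coeff 2) h4
    simp only [coeff_zero, coeff_add, coeff_C_mul, coeff_X_pow, coeff_X, coeff_C] at h5
    simp only [if_true, mul_one] at h5
    norm_num at h5
    rw [coeff_zero]
    exact h5.symm
  have heval : ∀ p : k[X], (p.map C).eval₂ (aeval x : k[X] →ₐ[k] F).toRingHom (s x) =
      aeval (s x) p := by
    intro p
    rw [eval₂_map, aeval_def]
    congr 1
    ext t
    simp
  have h0 : Q.eval₂ (aeval x : k[X] →ₐ[k] F).toRingHom (s x) = 0 := by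
    rw [hQ, eval₂_add, eval₂_add, eval₂_mul, eval₂_mul, heval, heval, heval, eval₂_C, eval₂_C]
    have e1 : (aeval x : k[X] →ₐ[k] F).toRingHom (X ^ 2) = x ^ 2 := by simp
    have e2 : (aeval x : k[X] →ₐ[k] F).toRingHom X = x := by simp
    rw [e1, e2]
    simp only [map_mul, map_sub, map_pow, map_ofNat]
    linear_combination (aeval (s x) B * (aeval (s x) c * x - aeval (s x) a + aeval (s x) b * s y +
      aeval (s x) b)) * h1 + (aeval (s x) b) ^ 2 * h3
  obtain ⟨j, hj⟩ := deg_ge2 h (s x) hz Q hQ0 h0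
  rw [hcoeff j] at hj
  have h6 : (C ((B * c ^ 2).coeff j) * X ^ 2 + C ((B * (b * c - 2 * a * c)).coeff j) * X +
      C ((B * (a ^ 2 - a * b) - b ^ 2 * A).coeff j) : k[X]).natDegree ≤ 2 :=
    natDegree_quadratic_le
  omega

theorem mob_of_mem {x : F} (hx : Transcendental k x) (s : F ≃ₐ[k] F)
    (h1 : s x ∈ IntermediateField.adjoin k {x}) (h2 : s.symm x ∈ IntermediateField.adjoin k {x}) :
    ∃ M : GL (Fin 2) k, algebraMap k F (M 1 0) * x + algebraMap k F (M 1 1) ≠ 0 ∧
      s x * (algebraMap k F (M 1 0) * x + algebraMap k F (M 1 1)) =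
        algebraMap k F (M 0 0) * x + algebraMap k F (M 0 1) := by
  obtain ⟨i, hi0⟩ := exists_emb hx
  have hi : ∀ p : k[X], i (algebraMap k[X] (RatFunc k) p) = aeval x p := by
    intro p
    rw [emb_poly i p, hi0]
  have hiinj : Function.Injective i := i.toRingHom.injective
  obtain ⟨r, q, hrq⟩ := Mem_mem_iff.1 h1
  obtain ⟨r', q', hrq'⟩ := Mem_mem_iff.1 h2
  have hx' : x = aeval (s x) r' / aeval (s x) q' := by
    have h1' := congrArg s hrq'
    rw [AlgEquiv.apply_symm_apply, map_div₀, Mem_aeval_map, Mem_aeval_map] at h1'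
    exact h1'
  obtain ⟨R, hR⟩ : ∃ R : RatFunc k, i R = s x := by
    refine ⟨algebraMap k[X] (RatFunc k) r / algebraMap k[X] (RatFunc k) q, ?_⟩
    rw [map_div₀, hi, hi, ← hrq]
  have hX : i RatFunc.X = x := by
    have h1' := hi X
    rw [RatFunc.algebraMap_X, aeval_X] at h1'
    exact h1'
  have hXR : (RatFunc.X : RatFunc k) = aeval R r' / aeval R q' := by
    apply hiinj
    rw [hX, map_div₀, Mem_aeval_ratfunc, Mem_aeval_ratfunc, hR]
    exact hx'
  have htop : IntermediateField.adjoin k {R} = ⊤ := by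
    rw [eq_top_iff, ← RatFunc.adjoin_X, IntermediateField.adjoin_simple_le_iff]
    exact (IntermediateField.mem_adjoin_simple_iff k _).2 ⟨r', q', hXR⟩
  have hdeg : max R.num.natDegree R.denom.natDegree = 1 := by
    rw [← RatFunc.finrank_eq_max_natDegree, htop]
    exact IntermediateField.finrank_top
  have hnd : R.num.natDegree ≤ 1 := by rw [← hdeg]; exact le_max_left _ _
  have hdd : R.denom.natDegree ≤ 1 := by rw [← hdeg]; exact le_max_right _ _
  have en := Polynomial.eq_X_add_C_of_natDegree_le_one hnd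
  have ed := Polynomial.eq_X_add_C_of_natDegree_le_one hdd
  have hd0 := R.denom_ne_zero
  have hcop := R.isCoprime_num_denom
  generalize R.num.coeff 1 = α at en
  generalize R.num.coeff 0 = β at en
  generalize R.denom.coeff 1 = γ at ed
  generalize R.denom.coeff 0 = δ at ed
  have hdet : α * δ - β * γ ≠ 0 := by
    intro hz
    have hk1 : C γ * R.num = C α * R.denom := by
      rw [en, ed]
      have : C (α * δ - β * γ) = (0 : k[X]) := by rw [hz, C_0]
      rw [C_sub, C_mul, C_mul] at this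
      linear_combination -this
    by_cases hγ : γ = 0
    · rw [hγ, C_0, zero_mul] at hk1
      have hα : α = 0 := by
        rcases mul_eq_zero.1 hk1.symm with h3 | h3
        · exact C_eq_zero.1 h3
        · exact absurd h3 hd0
      rw [en, ed, hα, hγ, C_0, zero_mul, zero_add, zero_add, natDegree_C, natDegree_C,
        max_self] at hdeg
      exact absurd hdeg (by norm_num)
    · have hunit : IsUnit R.denom := by
        obtain ⟨u, v, huv⟩ := hcop
        rw [isUnit_iff_dvd_one, ← huv]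
        refine dvd_add ?_ (dvd_mul_left _ _)
        refine Dvd.dvd.mul_left ?_ u
        have h3 : R.num = C γ⁻¹ * (C α * R.denom) := by
          rw [← hk1, ← mul_assoc, ← C_mul, inv_mul_cancel₀ hγ, C_1, one_mul]
        rw [h3]
        exact Dvd.dvd.mul_left (dvd_mul_left _ _) _
      have h4 := natDegree_eq_zero_of_isUnit hunit
      rw [ed, natDegree_linear hγ] at h4
      exact absurd h4 (by norm_num)
  refine ⟨Matrix.GeneralLinearGroup.mkOfDetNeZero !![α, β; γ, δ] (by
    rw [Matrix.det_fin_two_of]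
    exact hdet), ?_⟩
  have hM00 : (Matrix.GeneralLinearGroup.mkOfDetNeZero !![α, β; γ, δ] (by
    rw [Matrix.det_fin_two_of]
    exact hdet)) 0 0 = α := rfl
  have hM01 : (Matrix.GeneralLinearGroup.mkOfDetNeZero !![α, β; γ, δ] (by
    rw [Matrix.det_fin_two_of]
    exact hdet)) 0 1 = β := rfl
  have hM10 : (Matrix.GeneralLinearGroup.mkOfDetNeZero !![α, β; γ, δ] (by
    rw [Matrix.det_fin_two_of]
    exact hdet)) 1 0 = γ := rfl
  have hM11 : (Matrix.GeneralLinearGroup.mkOfDetNeZero !![α, β; γ, δ] (by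
    rw [Matrix.det_fin_two_of]
    exact hdet)) 1 1 = δ := rfl
  rw [hM00, hM01, hM10, hM11]
  have hden : aeval x R.denom = algebraMap k F γ * x + algebraMap k F δ := by
    rw [ed]
    simp
  have hnum : aeval x R.num = algebraMap k F α * x + algebraMap k F β := by
    rw [en]
    simp
  have hden0 : aeval x R.denom ≠ 0 := by
    rw [← hi]
    intro h0
    have h3 : algebraMap k[X] (RatFunc k) R.denom = 0 := hiinj (by rw [h0, map_zero])
    exact RatFunc.algebraMap_ne_zero hd0 h3
  have hval : s x = aeval x R.num / aeval x R.denom := by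
    rw [← hR, ← hi, ← hi, ← map_div₀, RatFunc.num_div_denom]
  rw [← hden, ← hnum]
  exact ⟨hden0, by rw [hval, div_mul_cancel₀ _ hden0]⟩

end Pool.Agent.Helper22.HB
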