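import Pool.Agent.Helper22.HB.Grp
import Pool.Agent.Helper28.HA.B1

/-!
MP_143e28_ag, project HB (helper22): orbits and stabilizers.

`card_of_orb`: `G ≃ orb × stab` (choose `t_Q ∈ G`, `t_Q P = Q` for every `Q` in the orbit; `s ↦ (s P, t_(s P)⁻¹ s)`).
`stab_le`: conjugate by `mob_trans P`: the elements of `stab G P` are `z ↦ a z + b` (`mob_affine`).  Two elements `s`, `t` of `stab G P`
with the same `a` differ by a translation `s t⁻¹`, which is in `uni G P` (a translation `≠ 1` has no fixed point but `∞`), so at most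
`#uni` elements have the same `a`.  `s ^ m ∈ uni G P` is a translation (an affine map with `a ≠ 1` has a second fixed point), so
`a ^ m = 1`: at most `m` values of `a` (`Polynomial.card_nthRoots`).
-/

set_option autoImplicit false

namespace Pool.Agent.Helper22.HB

open Polynomial OnePoint Pool.Agent.Helper28.HA

variable {k : Type*} [Field k]

theorem card_of_orb (G : Subgroup (Equiv.Perm (OnePoint k))) (P : OnePoint k)
    (h1 : (orb G P).Finite) (h2 : (stab G P).Finite) :
    Finite G ∧ Nat.card (orb G P) * Nat.card (stab G P) = Nat.card G := by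
  have e1 : orb G P = MulAction.orbit G P := by
    ext Q
    constructor
    · rintro ⟨s, hs, rfl⟩
      exact ⟨⟨s, hs⟩, rfl⟩
    · rintro ⟨⟨s, hs⟩, rfl⟩
      exact ⟨s, hs, rfl⟩
  let e2 : stab G P ≃ MulAction.stabilizer G P :=
    { toFun := fun s => ⟨⟨s.1, s.2.1⟩, s.2.2⟩
      invFun := fun s => ⟨s.1.1, s.1.2, s.2⟩
      left_inv := fun _ => rfl
      right_inv := fun _ => rfl }
  let e : (orb G P) × (stab G P) ≃ G :=
    (Equiv.prodCongr (Equiv.setCongr e1) e2).trans (MulAction.orbitProdStabilizerEquivGroup G P)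
  haveI := h1.to_subtype
  haveI := h2.to_subtype
  refine ⟨Finite.of_equiv _ e, ?_⟩
  rw [← Nat.card_prod]
  exact Nat.card_congr e

/-- the linear coefficient of `t s t⁻¹` is `a` -/
private def Aff (t s : Equiv.Perm (OnePoint k)) (a : k) : Prop :=
  ∃ b : k, ∀ z : k, t (s (t⁻¹ (z : OnePoint k))) = ((a * z + b : k) : OnePoint k)

private theorem Aff_uni {G : Subgroup (Equiv.Perm (OnePoint k))} {P : OnePoint k}
    {t : Equiv.Perm (OnePoint k)} (ht : t P = ∞) {s s' : Equiv.Perm (OnePoint k)} {a : k}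
    (hs : s ∈ stab G P) (hs' : s' ∈ stab G P) (ha : Aff t s a) (ha' : Aff t s' a) :
    s * s'⁻¹ ∈ uni G P := by
  obtain ⟨b, hb⟩ := ha
  obtain ⟨b', hb'⟩ := ha'
  refine ⟨G.mul_mem hs.1 (G.inv_mem hs'.1), ?_⟩
  have hti : ∀ Q, t⁻¹ (t Q) = Q := fun Q => by simp
  by_cases h : b = b'
  · left
    rw [mul_inv_eq_one]
    ext Q
    apply t.injective
    rcases eq_or_ne (t Q) ∞ with hQ | hQ
    · have : Q = P := t.injective (hQ.trans ht.symm)
      rw [this, hs.2, hs'.2]
    · obtain ⟨z, hz⟩ := OnePoint.ne_infty_iff_exists.mp hQ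
      have h1 := hb z
      have h2 := hb' z
      rw [hz, hti] at h1 h2
      rw [h1, h2, h]
  · right
    intro Q
    constructor
    · intro hQ
      obtain ⟨R, rfl⟩ : ∃ R, s' R = Q := ⟨s'⁻¹ Q, by simp⟩
      have hR : s R = s' R := by
        have : s (s'⁻¹ (s' R)) = s' R := hQ
        simpa using this
      rcases eq_or_ne (t R) ∞ with hR' | hR'
      · have : R = P := t.injective (hR'.trans ht.symm)
        rw [this, hs'.2]
      · exfalso
        obtain ⟨z, hz⟩ := OnePoint.ne_infty_iff_exists.mp hR'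
        have h1 := hb z
        have h2 := hb' z
        rw [hz, hti] at h1 h2
        rw [hR, h2, OnePoint.coe_eq_coe] at h1
        exact h (add_left_cancel h1).symm
    · rintro rfl
      have h3 : s'⁻¹ Q = Q := by
        rw [Equiv.Perm.inv_eq_iff_eq]
        exact hs'.2.symm
      show s (s'⁻¹ Q) = Q
      rw [h3, hs.2]

private theorem Aff_pow {t s : Equiv.Perm (OnePoint k)} {a : k} (ha : Aff t s a) (n : ℕ) :
    Aff t (s ^ n) (a ^ n) := by
  obtain ⟨b, hb⟩ := ha
  induction n with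
  | zero => exact ⟨0, fun z => by simp⟩
  | succ n ih =>
    obtain ⟨c, hc⟩ := ih
    refine ⟨a ^ n * b + c, fun z => ?_⟩
    have h1 : (s ^ (n + 1)) (t⁻¹ (z : OnePoint k)) =
        (s ^ n) (t⁻¹ (t (s (t⁻¹ (z : OnePoint k))))) := by
      rw [pow_succ]
      simp
    rw [h1, hb z, hc, OnePoint.coe_eq_coe]
    ring

private theorem Aff_pow_eq_one {G : Subgroup (Equiv.Perm (OnePoint k))} {P : OnePoint k}
    {t : Equiv.Perm (OnePoint k)} (ht : t P = ∞) {s : Equiv.Perm (OnePoint k)} {a : k} {m : ℕ}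
    (ha : Aff t s a) (hm : s ^ m ∈ uni G P) : a ^ m = 1 := by
  obtain ⟨b, hb⟩ := Aff_pow ha m
  rcases hm.2 with h | h
  · rw [h] at hb
    have h0 : ∀ z : k, z = a ^ m * z + b := by
      intro z
      have h1 : (z : OnePoint k) = ((a ^ m * z + b : k) : OnePoint k) := by
        rw [← hb z]
        simp
      exact OnePoint.coe_eq_coe.1 h1
    linear_combination h0 0 - h0 1
  · by_contra hne
    have h1 : (1 : k) - a ^ m ≠ 0 := fun e => hne (sub_eq_zero.1 e).symm
    have h2 := hb (b / (1 - a ^ m))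
    have h3 : a ^ m * (b / (1 - a ^ m)) + b = b / (1 - a ^ m) := by
      field_simp
      ring
    rw [h3] at h2
    have h4 : (s ^ m) (t⁻¹ ((b / (1 - a ^ m) : k) : OnePoint k)) =
        t⁻¹ ((b / (1 - a ^ m) : k) : OnePoint k) := by
      apply t.injective
      rw [h2]
      simp
    have h5 := (h _).1 h4
    have h6 : ((b / (1 - a ^ m) : k) : OnePoint k) = ∞ := by
      rw [← ht, ← h5]
      simp
    exact OnePoint.coe_ne_infty _ h6

theorem stab_le (G : Subgroup (Equiv.Perm (OnePoint k))) (hG : MobGroup G) (P : OnePoint k)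
    {m : ℕ} (hm : 0 < m) (hu : (uni G P).Finite) (h : ∀ s ∈ stab G P, s ^ m ∈ uni G P) :
    (stab G P).Finite ∧ Nat.card (stab G P) ≤ m * Nat.card (uni G P) := by
  classical
  obtain ⟨t, htm, ht⟩ := mob_trans P
  have hti : t⁻¹ ∞ = P := by
    rw [← ht]
    simp
  have hex : ∀ s : stab G P, ∃ a : k, Aff t s.1 a := by
    intro s
    have h1 : IsMob (t * s.1 * t⁻¹) := (htm.mul (hG _ s.2.1)).mul htm.inv
    have h2 : (t * s.1 * t⁻¹) ∞ = ∞ := by
      simp only [Equiv.Perm.mul_apply]
      rw [hti, s.2.2, ht]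
    obtain ⟨a, b, -, hab⟩ := mob_affine h1 h2
    exact ⟨a, b, hab⟩
  choose co hco using hex
  -- representatives
  have hrep : ∀ a : k, ∃ r : Equiv.Perm (OnePoint k),
      ∀ s : stab G P, co s = a → r ∈ stab G P ∧ Aff t r a := by
    intro a
    by_cases he : ∃ s : stab G P, co s = a
    · obtain ⟨r, hr⟩ := he
      exact ⟨r.1, fun s _ => ⟨r.2, hr ▸ hco r⟩⟩
    · exact ⟨1, fun s hs => absurd ⟨s, hs⟩ he⟩
  choose rep hrep using hrep
  set R : Finset k := (nthRoots m (1 : k)).toFinset with hR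
  have hRm : ∀ s : stab G P, co s ∈ R := by
    intro s
    rw [hR, Multiset.mem_toFinset, mem_nthRoots hm]
    exact Aff_pow_eq_one ht (hco s) (h _ s.2)
  have hRc : R.card ≤ m := (Multiset.toFinset_card_le _).trans (card_nthRoots m 1)
  let φ : stab G P → R × uni G P := fun s =>
    (⟨co s, hRm s⟩, ⟨s.1 * (rep (co s))⁻¹,
      Aff_uni ht s.2 (hrep _ s rfl).1 (hco s) (hrep _ s rfl).2⟩)
  have hφ : Function.Injective φ := by
    intro s s' hss
    have h1 : co s = co s' := congrArg (fun x => (x.1 : k)) hss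
    have h2 : s.1 * (rep (co s))⁻¹ = s'.1 * (rep (co s'))⁻¹ := congrArg (fun x => x.2.1) hss
    rw [h1] at h2
    exact Subtype.ext (mul_right_cancel h2)
  haveI := hu.to_subtype
  haveI : Finite (stab G P) := Finite.of_injective φ hφ
  refine ⟨Set.toFinite _, ?_⟩
  calc Nat.card (stab G P) ≤ Nat.card (R × uni G P) := Nat.card_le_card_of_injective φ hφ
    _ = R.card * Nat.card (uni G P) := by rw [Nat.card_prod, Nat.card_eq_fintype_card, Fintype.card_coe]
    _ ≤ m * Nat.card (uni G P) := Nat.mul_le_mul_right _ hRc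

end Pool.Agent.Helper22.HB
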