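import Pool.Agent.Helper22.HB.Deg
import Pool.Agent.Helper22.HB.As

/-!
MP_143e28_ag, project HB (helper22): an element of the group fixing a pole of order `m` has multiplier of order dividing `m`.

`tame_aux`: `N 1 0 = 0`: `X ↦ (a X + b) / d`.  `f (N X) - (a / d) ^ m f (X)` has degree `< m = deg f` (or is `0`): for polynomials
`A ((a X + b) / d) = (a / d) ^ deg A * A + lower terms`.  If `(a / d) ^ m ≠ 1` then `u ^ 2 + u = f (N X) - f` has degree exactly
`m`, odd and positive, against `deg_as` (if `deg u ≤ 0` the degree of `u ^ 2 + u` is `≤ 0`).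
`tame`: `T ∞ = P`, `N = T⁻¹ * M * T`, `N 1 0 = 0`, `sub N (sub T f) = sub (T * N) f = sub (M * T) f = sub T (sub M f)
= sub T f + (sub T u) ^ 2 + sub T u`, `deg (sub T f) = pol P` (`pol_eq`); `N ^ m` is `X ↦ X + b'` : the identity if
`b' = 0`, no fixed point but `∞` otherwise.
-/

set_option autoImplicit false

namespace Pool.Agent.Helper22.HB

open Polynomial OnePoint Pool.Agent.Helper28.HA

variable {k : Type*} [Field k]

private lemma Tame_ne {N : GL (Fin 2) k} (h0 : N 1 0 = 0) : N 1 1 ≠ 0 ∧ N 0 0 ≠ 0 := by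
  have h5 := N.det_ne_zero
  rw [Matrix.det_fin_two, h0, mul_zero, sub_zero] at h5
  exact ⟨right_ne_zero_of_mul h5, left_ne_zero_of_mul h5⟩

private lemma Tame_X {N : GL (Fin 2) k} (h0 : N 1 0 = 0) :
    sub N RatFunc.X =
      algebraMap k[X] (RatFunc k) (C (N 0 0 / N 1 1) * X + C (N 0 1 / N 1 1)) := by
  have hd := (Tame_ne h0).1
  have hd' : (RatFunc.C (N 1 1) : RatFunc k) ≠ 0 := by
    rw [_root_.map_ne_zero]
    exact hd
  rw [sub_X, h0, map_zero, zero_mul, zero_add, div_eq_iff hd']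
  simp only [map_add, map_mul, RatFunc.algebraMap_C, RatFunc.algebraMap_X]
  have h1 : (RatFunc.C (N 0 0 / N 1 1) * RatFunc.C (N 1 1) : RatFunc k) = RatFunc.C (N 0 0) := by
    rw [← map_mul, div_mul_cancel₀ _ hd]
  have h2 : (RatFunc.C (N 0 1 / N 1 1) * RatFunc.C (N 1 1) : RatFunc k) = RatFunc.C (N 0 1) := by
    rw [← map_mul, div_mul_cancel₀ _ hd]
  linear_combination -RatFunc.X * h1 - h2

private lemma Tame_poly {N : GL (Fin 2) k} (h0 : N 1 0 = 0) (p : k[X]) :
    sub N (algebraMap k[X] (RatFunc k) p) =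
      algebraMap k[X] (RatFunc k) (p.comp (C (N 0 0 / N 1 1) * X + C (N 0 1 / N 1 1))) := by
  rw [emb_poly, Tame_X h0, Polynomial.aeval_algebraMap_apply]
  rfl

private lemma Tame_coeff {c e : k} (hc : c ≠ 0) (p : k[X]) :
    (p.comp (C c * X + C e)).natDegree = p.natDegree ∧
      (p.comp (C c * X + C e)).leadingCoeff = p.leadingCoeff * c ^ p.natDegree := by
  have h1 : (C c * X + C e : k[X]).natDegree = 1 := natDegree_linear hc
  have h2 : (C c * X + C e : k[X]).leadingCoeff = c := leadingCoeff_linear hc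
  refine ⟨?_, ?_⟩
  · rw [natDegree_comp, h1, mul_one]
  · rw [leadingCoeff_comp (by rw [h1]; exact one_ne_zero), h2]

private lemma Tame_deg {u : RatFunc k} (hu : u.intDegree ≤ 0) (h : u ^ 2 + u ≠ 0) :
    (u ^ 2 + u).intDegree ≤ 0 := by
  have hu0 : u ≠ 0 := by
    rintro rfl
    apply h
    simp
  have h1 : (u ^ 2).intDegree = u.intDegree + u.intDegree := by
    rw [pow_two, RatFunc.intDegree_mul hu0 hu0]
  have h2 := RatFunc.intDegree_add_le hu0 h
  rw [h1] at h2
  refine le_trans h2 (max_le ?_ hu)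
  linarith

theorem tame_aux {f u : RatFunc k} {N : GL (Fin 2) k} (h0 : N 1 0 = 0) (hf : 0 < f.intDegree)
    (hodd : Odd f.intDegree) (h : sub N f = f + u ^ 2 + u) :
    (N 0 0 / N 1 1) ^ (f.intDegree.toNat) = 1 := by
  by_contra hne
  obtain ⟨hd, ha⟩ := Tame_ne h0
  set c := N 0 0 / N 1 1 with hcdef
  set e := N 0 1 / N 1 1 with hedef
  have hc : c ≠ 0 := div_ne_zero ha hd
  set A := f.num with hA
  set B := f.denom with hB
  have hB0 : B ≠ 0 := f.denom_ne_zero
  have hf0 : f ≠ 0 := by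
    rintro rfl
    rw [RatFunc.intDegree_zero] at hf
    exact lt_irrefl _ hf
  have hA0 : A ≠ 0 := RatFunc.num_ne_zero hf0
  have hfAB : f = algebraMap k[X] (RatFunc k) A / algebraMap k[X] (RatFunc k) B :=
    (RatFunc.num_div_denom f).symm
  have hdeg : f.intDegree = (A.natDegree : ℤ) - (B.natDegree : ℤ) := rfl
  set q : k[X] := C c * X + C e with hq
  obtain ⟨hA1, hA2⟩ := Tame_coeff (e := e) hc A
  obtain ⟨hB1, hB2⟩ := Tame_coeff (e := e) hc B
  rw [← hq] at hA1 hA2 hB1 hB2
  have hBq : B.comp q ≠ 0 := by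
    intro h1
    rw [h1, leadingCoeff_zero] at hB2
    have h2 : B.leadingCoeff * c ^ B.natDegree ≠ 0 :=
      mul_ne_zero (leadingCoeff_ne_zero.mpr hB0) (pow_ne_zero _ hc)
    exact h2 hB2.symm
  have hBr : algebraMap k[X] (RatFunc k) B ≠ 0 := RatFunc.algebraMap_ne_zero hB0
  have hBqr : algebraMap k[X] (RatFunc k) (B.comp q) ≠ 0 := RatFunc.algebraMap_ne_zero hBq
  have hsub : sub N f = algebraMap k[X] (RatFunc k) (A.comp q) /
      algebraMap k[X] (RatFunc k) (B.comp q) := by
    conv_lhs => rw [hfAB]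
    rw [map_div₀, Tame_poly h0, Tame_poly h0]
  set m := f.intDegree.toNat with hm
  have hmA : A.natDegree = B.natDegree + m := by omega
  set Nu : k[X] := A.comp q * B - A * B.comp q with hNu
  have hco : Nu.coeff (A.natDegree + B.natDegree) =
      A.leadingCoeff * B.leadingCoeff * c ^ B.natDegree * (c ^ m - 1) := by
    rw [hNu, coeff_sub]
    have e1 : (A.comp q * B).coeff (A.natDegree + B.natDegree) =
        A.leadingCoeff * c ^ A.natDegree * B.leadingCoeff := by
      rw [← hA2, ← hA1]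
      exact coeff_mul_degree_add_degree _ _
    have e2 : (A * B.comp q).coeff (A.natDegree + B.natDegree) =
        A.leadingCoeff * (B.leadingCoeff * c ^ B.natDegree) := by
      rw [← hB2, ← hB1]
      exact coeff_mul_degree_add_degree _ _
    rw [e1, e2, hmA, pow_add]
    ring
  have hco0 : Nu.coeff (A.natDegree + B.natDegree) ≠ 0 := by
    rw [hco]
    exact mul_ne_zero (mul_ne_zero (mul_ne_zero (leadingCoeff_ne_zero.mpr hA0)
      (leadingCoeff_ne_zero.mpr hB0)) (pow_ne_zero _ hc)) (sub_ne_zero.mpr hne)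
  have hNu0 : Nu ≠ 0 := by
    intro h1
    rw [h1, coeff_zero] at hco0
    exact hco0 rfl
  have hNud : Nu.natDegree = A.natDegree + B.natDegree := by
    apply natDegree_eq_of_le_of_coeff_ne_zero _ hco0
    rw [hNu]
    refine le_trans (natDegree_sub_le _ _) (max_le ?_ ?_)
    · refine le_trans natDegree_mul_le ?_
      rw [hA1]
    · refine le_trans natDegree_mul_le ?_
      rw [hB1]
  have hu : u ^ 2 + u = algebraMap k[X] (RatFunc k) Nu /
      algebraMap k[X] (RatFunc k) (B.comp q * B) := by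
    have h1 : u ^ 2 + u = sub N f - f := by
      rw [h]
      ring
    rw [h1, hsub]
    conv_lhs => rw [hfAB]
    rw [hNu, map_sub, map_mul, map_mul, map_mul, div_sub_div _ _ hBqr hBr]
    congr 1
    ring
  have hden0 : B.comp q * B ≠ 0 := mul_ne_zero hBq hB0
  have hu0 : u ^ 2 + u ≠ 0 := by
    rw [hu]
    exact div_ne_zero (RatFunc.algebraMap_ne_zero hNu0) (RatFunc.algebraMap_ne_zero hden0)
  have hud : (u ^ 2 + u).intDegree = m := by
    rw [hu, RatFunc.intDegree_div (RatFunc.algebraMap_ne_zero hNu0)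
      (RatFunc.algebraMap_ne_zero hden0), RatFunc.intDegree_polynomial,
      RatFunc.intDegree_polynomial, hNud, natDegree_mul hBq hB0, hB1, hmA]
    push_cast
    ring
  have hmf : (m : ℤ) = f.intDegree := by
    rw [hm]
    exact Int.toNat_of_nonneg hf.le
  rcases lt_or_ge 0 u.intDegree with h1 | h1
  · have h2 := (deg_as h1).2
    rw [hud, hmf] at h2
    rw [h2] at hodd
    exact (Int.not_odd_iff_even.mpr ⟨u.intDegree, by ring⟩) hodd
  · have h2 := Tame_deg h1 hu0
    rw [hud, hmf] at h2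
    exact absurd hf (not_lt.mpr h2)

private lemma Tame_iter {N : GL (Fin 2) k} (h0 : N 1 0 = 0) (n : ℕ) :
    ((mact N) ^ n) (∞ : OnePoint k) = ∞ ∧ ∃ b : k, ∀ z : k,
      ((mact N) ^ n) (z : OnePoint k) = (((N 0 0 / N 1 1) ^ n * z + b : k) : OnePoint k) := by
  induction n with
  | zero => exact ⟨rfl, 0, fun z => by simp⟩
  | succ n ih =>
    obtain ⟨h1, b, h2⟩ := ih
    have hd := (Tame_ne h0).1
    refine ⟨?_, (N 0 0 / N 1 1) ^ n * (N 0 1 / N 1 1) + b, fun z => ?_⟩
    · rw [pow_succ, Equiv.Perm.mul_apply, mact_infty_zero N h0, h1]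
    · have hz : N 1 0 * z + N 1 1 ≠ 0 := by
        rw [h0, zero_mul, zero_add]
        exact hd
      rw [pow_succ, Equiv.Perm.mul_apply, mact_some N z hz, h2, OnePoint.coe_eq_coe, h0, zero_mul,
        zero_add]
      ring

theorem tame {A B : k[X]} (hc : IsCoprime A B) (hB : B ≠ 0)
    (hodd : ∀ P : OnePoint k, pol A B P ≠ 0 → Odd (pol A B P)) {M : GL (Fin 2) k} {u : RatFunc k}
    (h : sub M (rf A B) = rf A B + u ^ 2 + u) {P : OnePoint k} (hP : mact M P = P)
    (hp : pol A B P ≠ 0) :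
    (mact M) ^ (pol A B P) = 1 ∨ ∀ Q, ((mact M) ^ (pol A B P)) Q = Q ↔ Q = P := by
  obtain ⟨T, hT⟩ := exists_move P
  set N : GL (Fin 2) k := T⁻¹ * M * T with hN
  have hTN : T * N = M * T := by
    rw [hN, mul_assoc, mul_inv_cancel_left]
  have hmN : mact N = (mact T)⁻¹ * mact M * mact T := by
    rw [hN, map_mul, map_mul, map_inv]
  have hinf : mact N ∞ = ∞ := by
    rw [hmN, Equiv.Perm.mul_apply, Equiv.Perm.mul_apply, hT, hP, ← hT]
    simp
  have h0 : N 1 0 = 0 := by
    by_contra h1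
    rw [mact_infty N h1] at hinf
    exact OnePoint.coe_ne_infty _ hinf
  have hpe := pol_eq hc hB T
  rw [hT] at hpe
  set r := sub T (rf A B) with hr
  have hrpos : 0 < r.intDegree := by
    by_contra h1
    rw [max_eq_left (not_lt.mp h1)] at hpe
    exact hp (by exact_mod_cast hpe)
  rw [max_eq_right hrpos.le] at hpe
  have hrodd : Odd r.intDegree := by
    rw [← hpe]
    exact_mod_cast hodd P hp
  have hrel : sub N r = r + (sub T u) ^ 2 + sub T u := by
    rw [hr, sub_sub, hTN, ← sub_sub, h, map_add, map_add, map_pow]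
  have hpow := tame_aux h0 hrpos hrodd hrel
  have hnat : r.intDegree.toNat = pol A B P := by
    rw [← hpe]
    exact Int.toNat_natCast _
  rw [hnat] at hpow
  set m := pol A B P with hm
  obtain ⟨hi, b, hb⟩ := Tame_iter h0 m
  rw [hpow] at hb
  have hconj : (mact M) ^ m = mact T * (mact N) ^ m * (mact T)⁻¹ := by
    rw [← conj_pow, hmN]
    congr 1
    group
  by_cases hb0 : b = 0
  · left
    have hone : (mact N) ^ m = 1 := by
      ext x
      induction x using OnePoint.rec with
      | infty => rw [hi]; rfl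
      | coe z => rw [hb z, hb0, one_mul, add_zero]; rfl
    rw [hconj, hone]
    group
  · right
    intro Q
    rw [hconj]
    simp only [Equiv.Perm.mul_apply]
    constructor
    · intro hQ
      have h1 : ((mact N) ^ m) ((mact T)⁻¹ Q) = (mact T)⁻¹ Q := by
        rw [Equiv.Perm.eq_inv_iff_eq]
        exact hQ
      have h2 : (mact T)⁻¹ Q = ∞ := by
        by_contra h3
        obtain ⟨z, hz⟩ := OnePoint.ne_infty_iff_exists.mp h3
        rw [← hz, hb z, OnePoint.coe_eq_coe, one_mul] at h1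
        exact hb0 (by linear_combination h1)
      rw [Equiv.Perm.inv_eq_iff_eq] at h2
      rw [h2, hT]
    · rintro rfl
      have h1 : (mact T)⁻¹ Q = ∞ := by
        rw [Equiv.Perm.inv_eq_iff_eq]
        exact hT.symm
      rw [h1, hi, hT]

end Pool.Agent.Helper22.HB
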