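import Pool.Agent.Helper22.HB.Deg
import Pool.Agent.Helper22.HB.As

/-!
MP_143e28_ag, project HB (helper22): one pole only, of order `2 g + 1`, `g` odd: no parabolic elements.

`triv_aux`: `p (X + v) - p (X) = u ^ 2 + u`, `u` is then a polynomial (`u` is integral over `k[X]`) of degree `≤ g` (`2 deg u ≤ 2 g`
as `p (X + v) - p (X)` has degree `≤ 2 g`).  `u ^ 2` has only even exponents (characteristic 2), so the coefficient of
`X ^ (2 g - 1)` in `u ^ 2 + u` is `0` (`2 g - 1 > g`).  In `p (X + v) - p (X)` it is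
`choose (2 g + 1) (2 g - 1) c v ^ 2 + choose (2 g) (2 g - 1) c' v = g (2 g + 1) c v ^ 2 + 2 g c' v = c v ^ 2` (`g` odd), `c ≠ 0` the leading
coefficient: `v = 0`.
`triv`: `T ∞ = P`, `N = T⁻¹ * M * T`: `N ∞ = ∞` and no other fixed point: `N 1 0 = 0`, `N 0 0 = N 1 1`, `N 0 1 ≠ 0`.  `sub T f` has its only
pole at `∞`: if `sub T f = A' / B'` in lowest terms then `pol A' B' Q = pol A B (T Q)` by `pol_eq` (for `Q = S ∞`), so `B'` has no
root and is constant: `sub T f` is a polynomial `p` of degree `pol A B P = 2 g + 1`.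
-/

set_option autoImplicit false

namespace Pool.Agent.Helper22.HB

open Polynomial OnePoint Pool.Agent.Helper28.HA

variable {k : Type*} [Field k]

private theorem Triv_sq_coeff [CharP k 2] (w : k[X]) {n : ℕ} (hn : ¬ 2 ∣ n) : (w ^ 2).coeff n = 0 := by
  haveI : Fact (Nat.Prime 2) := ⟨Nat.prime_two⟩
  have h1 := Polynomial.map_frobenius_expand 2 w
  rw [← h1, Polynomial.coeff_map, Polynomial.coeff_expand (by norm_num : 0 < 2), if_neg hn, map_zero]

private theorem Triv_int {q : k[X]} {u : RatFunc k}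
    (h : u ^ 2 + u = algebraMap k[X] (RatFunc k) q) :
    ∃ w : k[X], algebraMap k[X] (RatFunc k) w = u := by
  have h1 : IsIntegral k[X] u := by
    refine ⟨X ^ 2 + X - C q, ?_, ?_⟩
    · have : (X ^ 2 + X - C q : k[X][X]) = X ^ 2 + (X - C q) := by ring
      rw [this]
      apply Polynomial.monic_X_pow_add
      exact lt_of_le_of_lt (Polynomial.degree_X_sub_C_le q) (by norm_num)
    · simp only [eval₂_sub, eval₂_add, eval₂_pow, eval₂_X, eval₂_C]
      rw [h, sub_self]
  exact IsIntegrallyClosed.isIntegral_iff.mp h1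

private theorem Triv_deg {w q : k[X]} {g : ℕ} (h : w ^ 2 + w = q) (hq : q.natDegree ≤ 2 * g) :
    w.natDegree ≤ g := by
  by_contra hcon
  rw [not_le] at hcon
  have h1 : w.natDegree < (w ^ 2).natDegree := by
    rw [Polynomial.natDegree_pow]
    omega
  have h2 : (w ^ 2 + w).natDegree = (w ^ 2).natDegree := Polynomial.natDegree_add_eq_left_of_natDegree_lt h1
  rw [h, Polynomial.natDegree_pow] at h2
  omega

private theorem Triv_coeff [CharP k 2] {g : ℕ} (hg : Odd g) {p : k[X]}
    (hp : p.natDegree = 2 * g + 1) (v : k) :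
    (p.comp (X + C v)).coeff (2 * g - 1) = p.coeff (2 * g - 1) + p.coeff (2 * g + 1) * v ^ 2 := by
  have hg1 : 1 ≤ g := hg.pos
  have h2 : (2 : k) = 0 := CharTwo.two_eq_zero
  rw [← Polynomial.taylor_apply, Polynomial.taylor_coeff, Polynomial.eval_eq_sum_range'
    (n := 3)]
  · rw [Finset.sum_range_succ, Finset.sum_range_succ, Finset.sum_range_succ, Finset.sum_range_zero,
      Polynomial.hasseDeriv_coeff, Polynomial.hasseDeriv_coeff, Polynomial.hasseDeriv_coeff]
    have e0 : 0 + (2 * g - 1) = 2 * g - 1 := by omega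
    have e1 : 1 + (2 * g - 1) = 2 * g := by omega
    have e2 : 2 + (2 * g - 1) = 2 * g + 1 := by omega
    have c0 : (2 * g - 1).choose (2 * g - 1) = 1 := Nat.choose_self _
    have c1 : (2 * g).choose (2 * g - 1) = 2 * g := by
      have := Nat.choose_symm (n := 2 * g) (k := 1) (by omega)
      rw [Nat.choose_one_right] at this
      exact this
    have c2 : (2 * g + 1).choose (2 * g - 1) = (2 * g + 1) * g := by
      have := Nat.choose_symm (n := 2 * g + 1) (k := 2) (by omega)
      have e : 2 * g + 1 - 2 = 2 * g - 1 := by omega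
      rw [e] at this
      rw [this, Nat.choose_two_right]
      have e3 : (2 * g + 1) * (2 * g + 1 - 1) = (2 * g + 1) * g * 2 := by
        have : 2 * g + 1 - 1 = 2 * g := by omega
        rw [this]; ring
      rw [e3, Nat.mul_div_cancel _ (by norm_num)]
    rw [e0, e1, e2, c0, c1, c2]
    obtain ⟨m, hm⟩ := hg
    rw [hm]
    push_cast
    linear_combination (((2 * (m : k) + 1) * p.coeff (2 * (2 * m + 1)) * v) +
      ((2 * (m : k) + 1) * (2 * m + 1) + m) * p.coeff (2 * (2 * m + 1) + 1) * v ^ 2) * h2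
  · have h3 := Polynomial.natDegree_hasseDeriv_le p (2 * g - 1)
    omega

theorem triv_aux [CharP k 2] {g : ℕ} (hg : Odd g) (hg2 : 2 ≤ g) {p : k[X]}
    (hp : p.natDegree = 2 * g + 1) {v : k} {u : RatFunc k}
    (h : algebraMap k[X] (RatFunc k) (p.comp (X + C v)) =
      algebraMap k[X] (RatFunc k) p + u ^ 2 + u) : v = 0 := by
  have h1 : u ^ 2 + u = algebraMap k[X] (RatFunc k) (p.comp (X + C v) - p) := by
    rw [map_sub, h]
    ring
  obtain ⟨w, rfl⟩ := Triv_int h1
  have h2 : w ^ 2 + w = p.comp (X + C v) - p := by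
    apply RatFunc.algebraMap_injective k
    rw [← h1, map_add, map_pow]
  have hp0 : p ≠ 0 := by
    rintro rfl
    rw [natDegree_zero] at hp
    omega
  have hdeg : (p.comp (X + C v) - p).natDegree ≤ 2 * g := by
    have h3 : (p.comp (X + C v) - p).degree < (p.comp (X + C v)).degree := by
      apply Polynomial.degree_sub_lt_left
      · rw [← Polynomial.taylor_apply, Polynomial.degree_taylor]
      · rw [← Polynomial.taylor_apply]
        intro h4
        exact hp0 ((Polynomial.taylor_injective v) (by rw [h4, map_zero]))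
      · rw [← Polynomial.taylor_apply, Polynomial.leadingCoeff_taylor]
    rw [← Polynomial.taylor_apply, Polynomial.degree_taylor, Polynomial.degree_eq_natDegree hp0, hp] at h3
    rw [← Polynomial.taylor_apply]
    by_cases h4 : Polynomial.taylor v p - p = 0
    · rw [h4, natDegree_zero]
      omega
    · rw [Polynomial.degree_eq_natDegree h4] at h3
      have h5 : (Polynomial.taylor v p - p).natDegree < 2 * g + 1 := by exact_mod_cast h3
      omega
  have hw := Triv_deg h2 hdeg
  have h5 := congrArg (fun q : k[X] => q.coeff (2 * g - 1)) h2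
  simp only [coeff_add, coeff_sub] at h5
  rw [Triv_sq_coeff w (by omega), Polynomial.coeff_eq_zero_of_natDegree_lt (by omega : w.natDegree < 2 * g - 1),
    Triv_coeff hg hp v] at h5
  have h6 : p.coeff (2 * g + 1) * v ^ 2 = 0 := by linear_combination -h5
  have h7 : p.coeff (2 * g + 1) ≠ 0 := by
    rw [← hp]
    exact Polynomial.leadingCoeff_ne_zero.mpr hp0
  exact pow_eq_zero_iff (by norm_num : 2 ≠ 0) |>.mp ((mul_eq_zero.mp h6).resolve_left h7)

private theorem Triv_sub_poly {N : GL (Fin 2) k} (h10 : N 1 0 = 0) (h00 : N 0 0 = N 1 1) (h11 : N 1 1 ≠ 0)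
    (p : k[X]) : sub N (algebraMap k[X] (RatFunc k) p) =
      algebraMap k[X] (RatFunc k) (p.comp (X + C (N 0 1 / N 1 1))) := by
  rw [emb_poly]
  have h1 : sub N RatFunc.X = algebraMap k[X] (RatFunc k) (X + C (N 0 1 / N 1 1)) := by
    rw [sub_X, h10, h00, map_zero, zero_mul, zero_add]
    have h2 : (RatFunc.C (N 1 1) : RatFunc k) ≠ 0 := by
      rw [ne_eq, map_eq_zero]
      exact h11
    rw [div_eq_iff h2, map_add, RatFunc.algebraMap_X, RatFunc.algebraMap_C, add_mul, ← map_mul,
      div_mul_cancel₀ _ h11]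
    ring
  rw [h1, Polynomial.aeval_algebraMap_apply, Polynomial.comp_eq_aeval]

theorem triv [IsAlgClosed k] [CharP k 2] {A B : k[X]} (hc : IsCoprime A B) (hB : B ≠ 0)
    {g : ℕ} (hg : Odd g) (hg2 : 2 ≤ g) {P : OnePoint k} (hP : pol A B P = 2 * g + 1)
    (hP' : ∀ Q, Q ≠ P → pol A B Q = 0) {M : GL (Fin 2) k} {u : RatFunc k}
    (h : sub M (rf A B) = rf A B + u ^ 2 + u) (hM : ∀ Q, mact M Q = Q ↔ Q = P) : False := by
  obtain ⟨T, hT⟩ := exists_move P
  set N : GL (Fin 2) k := T⁻¹ * M * T with hN
  have hTN : T * N = M * T := by rw [hN]; group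
  -- action of `N`
  have hNQ : ∀ Q, mact N Q = Q ↔ Q = ∞ := by
    intro Q
    have h1 : mact T (mact N Q) = mact M (mact T Q) := by
      rw [← Equiv.Perm.mul_apply, ← map_mul, hTN, map_mul, Equiv.Perm.mul_apply]
    constructor
    · intro hQ
      rw [hQ] at h1
      have h2 := (hM _).mp h1.symm
      rw [← hT] at h2
      exact (mact T).injective h2
    · rintro rfl
      rw [hT, (hM P).mpr rfl, ← hT] at h1
      exact (mact T).injective h1
  have h10 : N 1 0 = 0 := by
    by_contra h10
    have h1 := mact_infty N h10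
    rw [(hNQ ∞).mpr rfl] at h1
    exact OnePoint.coe_ne_infty _ h1.symm
  have hdet := N.det_ne_zero
  rw [Matrix.det_fin_two, h10, mul_zero, sub_zero] at hdet
  have h11 : N 1 1 ≠ 0 := right_ne_zero_of_mul hdet
  have hact : ∀ z : k, mact N (z : OnePoint k) = ((N 0 0 * z + N 0 1) / N 1 1 : k) := by
    intro z
    have h1 := mact_some N z (by rw [h10, zero_mul, zero_add]; exact h11)
    rw [h1, h10, zero_mul, zero_add]
  have hnofix : ∀ z : k, (N 0 0 * z + N 0 1) / N 1 1 ≠ z := by
    intro z hz
    have h1 := hact z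
    rw [hz] at h1
    exact OnePoint.coe_ne_infty z ((hNQ _).mp h1)
  have h00 : N 0 0 = N 1 1 := by
    by_contra h00
    have h1 : N 1 1 - N 0 0 ≠ 0 := sub_ne_zero.mpr (Ne.symm h00)
    apply hnofix (N 0 1 / (N 1 1 - N 0 0))
    rw [div_eq_iff h11]
    field_simp
    ring
  have h01 : N 0 1 ≠ 0 := by
    intro h01
    apply hnofix 0
    rw [h01]
    simp
  -- the function `r = sub T f`
  set r := sub T (rf A B) with hr
  have hrN : sub N r = r + (sub T u) ^ 2 + sub T u := by
    have h1 := congrArg (sub T) h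
    rw [sub_sub, ← hTN, ← sub_sub, map_add, map_add, map_pow] at h1
    exact h1
  have hrr : rf r.num r.denom = r := RatFunc.num_div_denom r
  have hpol : ∀ Q, pol r.num r.denom Q = pol A B (mact T Q) := by
    intro Q
    obtain ⟨S, rfl⟩ := exists_move Q
    have h1 := pol_eq (RatFunc.isCoprime_num_denom r) (RatFunc.denom_ne_zero r) S
    have h2 := pol_eq hc hB (T * S)
    rw [hrr, hr, sub_sub] at h1
    rw [map_mul, Equiv.Perm.mul_apply] at h2
    exact_mod_cast h1.trans h2.symm
  have hden : r.denom = 1 := by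
    by_contra hne
    have h1 : r.denom.degree ≠ 0 := by
      intro h0
      apply hne
      rw [Polynomial.eq_C_of_degree_eq_zero h0]
      have h2 := RatFunc.monic_denom r
      rw [Polynomial.eq_C_of_degree_eq_zero h0, Polynomial.Monic, Polynomial.leadingCoeff_C] at h2
      rw [h2, C_1]
    obtain ⟨a, ha⟩ := IsAlgClosed.exists_root r.denom h1
    have h2 : pol r.num r.denom (a : OnePoint k) ≠ 0 := by
      have h3 : 0 < r.denom.rootMultiplicity a :=
        (Polynomial.rootMultiplicity_pos (RatFunc.denom_ne_zero r)).mpr ha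
      show r.denom.rootMultiplicity a ≠ 0
      omega
    apply h2
    rw [hpol]
    apply hP'
    intro h3
    rw [← hT] at h3
    exact OnePoint.coe_ne_infty a ((mact T).injective h3)
  have hrp : algebraMap k[X] (RatFunc k) r.num = r := by
    conv_rhs => rw [← hrr]
    unfold rf
    rw [hden, map_one, div_one]
  have hdeg : r.num.natDegree = 2 * g + 1 := by
    have h1 := hpol ∞
    rw [hT, hP, hden] at h1
    have h2 : pol r.num (1 : k[X]) ∞ = r.num.natDegree - (1 : k[X]).natDegree := rfl
    rw [h2, natDegree_one, Nat.sub_zero] at h1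
    exact h1
  rw [← hrp, Triv_sub_poly h10 h00 h11] at hrN
  have h3 := triv_aux hg hg2 hdeg hrN
  rw [div_eq_zero_iff] at h3
  rcases h3 with h3 | h3
  · exact h01 h3
  · exact h11 h3

end Pool.Agent.Helper22.HB
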