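import Pool.Agent.Helper22.HB.Triv

/-!
MP_143e28_ag, project HB (helper22): one pole only: finitely many parabolic elements.

`trans_fin`: let `p (X + v) - p (X) = u ^ 2 + u`; `u` is a polynomial `∑ u_i X ^ i` (as in `triv_aux`) of degree `≤ g`, `d_j` the coefficients of
`p (X + v) - p (X)`: `d_j = D_j (v)`, `D_j = hasseDeriv j p - C (p.coeff j)` (`Polynomial.taylor_coeff`), `deg D_j ≤ 2 g + 1 - j` for `j ≥ 1`,
`deg D_1 = 2 g` (leading coefficient `(2 g + 1) c = c`).  `d_1 = u_1`, `d_2 = u_2 + u_1 ^ 2`, `d_4 = u_4 + u_2 ^ 2`, ...; with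
`2 ^ E ≤ g < 2 ^ (E+1)`: `0 = u_(2^(E+1)) = ∑_(e ≤ E+1) d_(2^e) ^ (2 ^ (E+1-e))` (characteristic 2: squares are additive).  So `v` is a root of
`Φ = ∑_(e ≤ E+1) D_(2^e) ^ (2 ^ (E+1-e))`, of degree exactly `2 g 2 ^ (E+1) ≤ 4 g ^ 2` (the term `e = 0` has larger degree than the others):
`Φ ≠ 0`.
`uni_fin`: as in `triv`: `T ∞ = P`; the elements `mact M ≠ 1` of `uni` correspond to translations `X ↦ X + v` for `sub T f = p`; `mact M` is
determined by `v`.
-/

set_option autoImplicit false

namespace Pool.Agent.Helper22.HB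

open Polynomial OnePoint Pool.Agent.Helper28.HA

variable {k : Type*} [Field k]

private theorem Vfin_sq [CharP k 2] (u : k[X]) (n : ℕ) :
    (u ^ 2).coeff n = (if 2 ∣ n then u.coeff (n / 2) else 0) ^ 2 := by
  rw [← Polynomial.map_frobenius_expand 2 u, coeff_map, coeff_expand (by norm_num : 0 < 2)]
  rfl

/-- the recursion for the coefficients of `X ^ (2 ^ n)` in `u` -/
private noncomputable def Vfin_Phi (p : k[X]) : ℕ → k[X]
  | 0 => hasseDeriv 1 p - C (p.coeff 1)
  | n + 1 => Vfin_Phi p n ^ 2 + (hasseDeriv (2 ^ (n + 1)) p - C (p.coeff (2 ^ (n + 1))))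

private theorem Vfin_D_le (p : k[X]) (j : ℕ) :
    (hasseDeriv j p - C (p.coeff j)).natDegree ≤ p.natDegree := by
  refine (natDegree_sub_le _ _).trans ?_
  rw [natDegree_C]
  have h := natDegree_hasseDeriv_le p j
  simp only [zero_le, sup_of_le_left]
  omega

private theorem Vfin_deg0 [CharP k 2] {g : ℕ} (hg2 : 2 ≤ g) {p : k[X]}
    (hp : p.natDegree = 2 * g + 1) : (hasseDeriv 1 p - C (p.coeff 1)).natDegree = 2 * g := by
  have h1 : (hasseDeriv 1 p).coeff (2 * g) = p.coeff (2 * g + 1) := by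
    rw [hasseDeriv_coeff, Nat.choose_one_right]
    have h2 : ((2 * g + 1 : ℕ) : k) = 1 := by
      have h3 : ((2 : ℕ) : k) = 0 := CharP.cast_eq_zero k 2
      push_cast
      push_cast at h3
      rw [h3, zero_mul, zero_add]
    rw [h2, one_mul]
  have h2 : p.coeff (2 * g + 1) ≠ 0 := by
    rw [← hp]
    intro h
    have h3 := leadingCoeff_eq_zero.1 h
    rw [h3, natDegree_zero] at hp
    omega
  have h3 : (hasseDeriv 1 p - C (p.coeff 1)).coeff (2 * g) ≠ 0 := by
    rw [coeff_sub, h1, coeff_C, if_neg (by omega), sub_zero]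
    exact h2
  apply le_antisymm
  · refine (natDegree_sub_le _ _).trans ?_
    rw [natDegree_C]
    have h := natDegree_hasseDeriv_le p 1
    simp only [zero_le, sup_of_le_left]
    omega
  · exact le_natDegree_of_ne_zero h3

private theorem Vfin_deg [CharP k 2] {g : ℕ} (hg2 : 2 ≤ g) {p : k[X]}
    (hp : p.natDegree = 2 * g + 1) (n : ℕ) : (Vfin_Phi p n).natDegree = 2 * g * 2 ^ n := by
  induction n with
  | zero =>
    rw [Vfin_Phi, Vfin_deg0 hg2 hp]
    ring
  | succ n ih =>
    rw [Vfin_Phi]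
    have h1 : (Vfin_Phi p n ^ 2).natDegree = 2 * g * 2 ^ (n + 1) := by
      rw [natDegree_pow, ih]
      ring
    rw [natDegree_add_eq_left_of_natDegree_lt, h1]
    rw [h1]
    refine (Vfin_D_le p _).trans_lt ?_
    rw [hp]
    have h2 : 1 ≤ 2 ^ n := Nat.one_le_two_pow
    have h3 : 2 * g * 2 ^ (n + 1) = 4 * g * 2 ^ n := by ring
    rw [h3]
    nlinarith

private theorem Vfin_coeff (p : k[X]) (v : k) (j : ℕ) :
    (p.comp (X + C v) - p).coeff j = (hasseDeriv j p - C (p.coeff j)).eval v := by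
  rw [coeff_sub, eval_sub, eval_C]
  congr 1
  exact taylor_coeff v p j

private theorem Vfin_rec [CharP k 2] {p u : k[X]} {v : k}
    (h : p.comp (X + C v) - p = u ^ 2 + u) (n : ℕ) :
    (Vfin_Phi p n).eval v = u.coeff (2 ^ n) := by
  have h2 : (2 : k) = 0 := by
    have h3 : ((2 : ℕ) : k) = 0 := CharP.cast_eq_zero k 2
    exact_mod_cast h3
  induction n with
  | zero =>
    rw [Vfin_Phi, ← Vfin_coeff, h, coeff_add, Vfin_sq, if_neg (by norm_num)]
    simp
  | succ n ih =>
    rw [Vfin_Phi, eval_add, ← Vfin_coeff, h, coeff_add, Vfin_sq, eval_pow, ih,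
      if_pos (dvd_pow_self 2 (Nat.succ_ne_zero n))]
    have h4 : 2 ^ (n + 1) / 2 = 2 ^ n := by
      rw [pow_succ]
      exact Nat.mul_div_cancel _ (by norm_num)
    rw [h4]
    linear_combination (u.coeff (2 ^ n)) ^ 2 * h2

/-- `u` is a polynomial of degree at most `g` -/
private theorem Vfin_poly [CharP k 2] {g : ℕ} (hg2 : 2 ≤ g) {p : k[X]}
    (hp : p.natDegree = 2 * g + 1) {v : k} {u : RatFunc k}
    (h : algebraMap k[X] (RatFunc k) (p.comp (X + C v)) =
      algebraMap k[X] (RatFunc k) p + u ^ 2 + u) :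
    ∃ w : k[X], p.comp (X + C v) - p = w ^ 2 + w ∧ w.natDegree ≤ g := by
  have hint : IsIntegral k[X] u := by
    refine ⟨X ^ 2 + X - C (p.comp (X + C v) - p), ?_, ?_⟩
    · have h1 : (X ^ 2 + X - C (p.comp (X + C v) - p) : k[X][X]) =
          X ^ 2 + (X - C (p.comp (X + C v) - p)) := by ring
      rw [h1]
      apply monic_X_pow_add
      refine (degree_X_sub_C_le _).trans_lt ?_
      norm_num
    · simp only [eval₂_sub, eval₂_add, eval₂_pow, eval₂_X, eval₂_C, map_sub, h]
      ring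
  obtain ⟨w, rfl⟩ := (IsIntegrallyClosed.isIntegral_iff (K := RatFunc k)).1 hint
  have h1 : p.comp (X + C v) - p = w ^ 2 + w := by
    apply RatFunc.algebraMap_injective k
    rw [map_sub, h, map_add, map_pow]
    ring
  refine ⟨w, h1, ?_⟩
  by_contra hc
  push Not at hc
  have h2 : (w ^ 2 + w).natDegree = 2 * w.natDegree := by
    rw [natDegree_add_eq_left_of_natDegree_lt, natDegree_pow]
    rw [natDegree_pow]
    omega
  have hp0 : p ≠ 0 := by
    rintro rfl
    rw [natDegree_zero] at hp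
    omega
  have h3 : (p.comp (X + C v)).natDegree = p.natDegree := by
    rw [natDegree_comp, natDegree_X_add_C, mul_one]
  have h4 : (p.comp (X + C v)).leadingCoeff = p.leadingCoeff := by
    rw [leadingCoeff_comp (by rw [natDegree_X_add_C]; norm_num), leadingCoeff_X_add_C, one_pow, mul_one]
  have h5 : p.comp (X + C v) ≠ 0 := by
    intro h0
    rw [h0, natDegree_zero] at h3
    omega
  have h6 : (p.comp (X + C v)).degree = p.degree := by
    rw [degree_eq_natDegree h5, degree_eq_natDegree hp0, h3]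
  have h7 := degree_sub_lt_left h6 h5 h4
  rw [h1] at h7
  have h8 : (w ^ 2 + w).natDegree < 2 * g + 1 := by
    by_cases h9 : w ^ 2 + w = 0
    · rw [h9, natDegree_zero]
      omega
    · rw [← hp, ← h3]
      exact natDegree_lt_natDegree h9 h7
  omega

theorem trans_fin [CharP k 2] {g : ℕ} (hg2 : 2 ≤ g) {p : k[X]} (hp : p.natDegree = 2 * g + 1) :
    {v : k | ∃ u : RatFunc k, algebraMap k[X] (RatFunc k) (p.comp (X + C v)) =
      algebraMap k[X] (RatFunc k) p + u ^ 2 + u}.Finite ∧
    Set.ncard {v : k | ∃ u : RatFunc k, algebraMap k[X] (RatFunc k) (p.comp (X + C v)) =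
      algebraMap k[X] (RatFunc k) p + u ^ 2 + u} ≤ 4 * g ^ 2 := by
  classical
  obtain ⟨n, hn1, hn2⟩ : ∃ n : ℕ, g < 2 ^ n ∧ 2 ^ n ≤ 2 * g := by
    refine ⟨Nat.log 2 g + 1, Nat.lt_pow_succ_log_self (by norm_num) g, ?_⟩
    have h1 : 2 ^ Nat.log 2 g ≤ g := Nat.pow_log_le_self 2 (by omega)
    rw [pow_succ]
    omega
  have hdeg := Vfin_deg hg2 hp n
  have hne : Vfin_Phi p n ≠ 0 := by
    intro h0
    rw [h0, natDegree_zero] at hdeg
    have h1 : 1 ≤ 2 ^ n := Nat.one_le_two_pow
    have h2 : 0 < 2 * g * 2 ^ n := by positivity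
    omega
  have hsub : {v : k | ∃ u : RatFunc k, algebraMap k[X] (RatFunc k) (p.comp (X + C v)) =
      algebraMap k[X] (RatFunc k) p + u ^ 2 + u} ⊆ ((Vfin_Phi p n).roots.toFinset : Set k) := by
    rintro v ⟨u, hu⟩
    obtain ⟨w, hw1, hw2⟩ := Vfin_poly hg2 hp hu
    rw [Finset.mem_coe, Multiset.mem_toFinset, mem_roots hne, IsRoot.def, Vfin_rec hw1]
    exact coeff_eq_zero_of_natDegree_lt (by omega)
  refine ⟨(Finset.finite_toSet _).subset hsub, ?_⟩
  refine (Set.ncard_le_ncard hsub (Finset.finite_toSet _)).trans ?_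
  rw [Set.ncard_coe_finset]
  refine (Multiset.toFinset_card_le _).trans ((card_roots' _).trans ?_)
  rw [hdeg]
  nlinarith

/-- `sub T f` is a polynomial of degree `2 g + 1` if the only pole of `f` is `T ∞` -/
private theorem Vfin_only [IsAlgClosed k] [CharP k 2] {A B : k[X]} (hc : IsCoprime A B)
    (hB : B ≠ 0) {g : ℕ} {P : OnePoint k} (hP : pol A B P = 2 * g + 1)
    (hP' : ∀ Q, Q ≠ P → pol A B Q = 0) (T : GL (Fin 2) k) (hT : mact T ∞ = P) :
    ∃ p : k[X], sub T (rf A B) = algebraMap k[X] (RatFunc k) p ∧ p.natDegree = 2 * g + 1 := by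
  set F := sub T (rf A B) with hF
  have hFr : rf F.num F.denom = F := RatFunc.num_div_denom F
  have hcop : IsCoprime F.num F.denom := RatFunc.isCoprime_num_denom F
  have hden : F.denom ≠ 0 := RatFunc.denom_ne_zero F
  have hpol : ∀ S : GL (Fin 2) k, pol F.num F.denom (mact S ∞) = pol A B (mact T (mact S ∞)) := by
    intro S
    have h1 := pol_eq hcop hden S
    have h2 := pol_eq hc hB (T * S)
    rw [hFr, hF, sub_sub] at h1
    rw [map_mul, Equiv.Perm.mul_apply] at h2
    have h3 : (pol F.num F.denom (mact S ∞) : ℤ) = pol A B (mact T (mact S ∞)) := h1.trans h2.symm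
    exact_mod_cast h3
  have hroot : F.denom.degree = 0 := by
    by_contra hd
    obtain ⟨a, ha⟩ := IsAlgClosed.exists_root F.denom hd
    obtain ⟨S, hS⟩ := exists_move (a : OnePoint k)
    have h1 := hpol S
    rw [hS] at h1
    have h2 : mact T (a : OnePoint k) ≠ P := by
      rw [← hT]
      intro h3
      exact OnePoint.coe_ne_infty a ((mact T).injective h3)
    rw [hP' _ h2] at h1
    have h3 : 0 < F.denom.rootMultiplicity a := (rootMultiplicity_pos hden).2 ha
    have h4 : pol F.num F.denom (a : OnePoint k) = F.denom.rootMultiplicity a := rfl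
    omega
  have hone : F.denom = 1 := by
    have h1 := eq_C_of_degree_eq_zero hroot
    have h2 := RatFunc.monic_denom F
    rw [Monic, h1, leadingCoeff_C] at h2
    rw [h1, h2, map_one]
  refine ⟨F.num, ?_, ?_⟩
  · have h1 := RatFunc.num_div_denom F
    rw [hone, map_one, div_one] at h1
    exact h1.symm
  · have h1 := hpol 1
    rw [map_one, Equiv.Perm.one_apply, hT, hP] at h1
    have h2 : pol F.num F.denom (∞ : OnePoint k) = F.num.natDegree - F.denom.natDegree := rfl
    rw [h2, hone, natDegree_one, Nat.sub_zero] at h1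
    exact h1

/-- the translation `X ↦ X + v` -/
private noncomputable def Vfin_tr (v : k) : GL (Fin 2) k :=
  Matrix.GeneralLinearGroup.mkOfDetNeZero !![1, v; 0, 1]
    (by rw [Matrix.det_fin_two_of]; simp)

private theorem Vfin_tr_some (v z : k) : mact (Vfin_tr v) (z : OnePoint k) = ((z + v : k) : OnePoint k) := by
  have h00 : (Vfin_tr v) 0 0 = 1 := rfl
  have h01 : (Vfin_tr v) 0 1 = v := rfl
  have h10 : (Vfin_tr v) 1 0 = 0 := rfl
  have h11 : (Vfin_tr v) 1 1 = 1 := rfl
  rw [mact_some _ _ (by rw [h10, h11]; simp), h00, h01, h10, h11]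
  simp

private theorem Vfin_tr_inf (v : k) : mact (Vfin_tr v) (∞ : OnePoint k) = ∞ :=
  mact_infty_zero _ rfl

theorem uni_fin [IsAlgClosed k] [CharP k 2] {A B : k[X]} (hc : IsCoprime A B) (hB : B ≠ 0)
    {g : ℕ} (hg2 : 2 ≤ g) {P : OnePoint k} (hP : pol A B P = 2 * g + 1)
    (hP' : ∀ Q, Q ≠ P → pol A B Q = 0) :
    (uni (grp A B) P).Finite ∧ Nat.card (uni (grp A B) P) ≤ 4 * g ^ 2 := by
  obtain ⟨T, hT⟩ := exists_move P
  obtain ⟨p, hp1, hp2⟩ := Vfin_only hc hB hP hP' T hT
  obtain ⟨hV1, hV2⟩ := trans_fin hg2 hp2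
  set V : Set k := {v : k | ∃ u : RatFunc k, algebraMap k[X] (RatFunc k) (p.comp (X + C v)) =
      algebraMap k[X] (RatFunc k) p + u ^ 2 + u} with hV
  have hsub : uni (grp A B) P ⊆
      (fun v => mact T * mact (Vfin_tr v) * (mact T)⁻¹) '' V := by
    rintro s ⟨hs, hs'⟩
    obtain ⟨M, hM, u, hu⟩ := mem_grp.1 hs
    have hsP : s P = P := by
      rcases hs' with rfl | h
      · rfl
      · exact (h P).2 rfl
    -- the conjugate
    have hN : ∃ N : GL (Fin 2) k, N = T⁻¹ * M * T := ⟨_, rfl⟩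
    obtain ⟨N, hN⟩ := hN
    have hNm : mact N = (mact T)⁻¹ * s * mact T := by
      rw [hN, map_mul, map_mul, map_inv, hM]
    have hNinf : mact N ∞ = ∞ := by
      rw [hNm, Equiv.Perm.mul_apply, Equiv.Perm.mul_apply, hT, hsP, Equiv.Perm.inv_eq_iff_eq]
      exact hT.symm
    have hN10 : N 1 0 = 0 := by
      by_contra h0
      rw [mact_infty N h0] at hNinf
      exact OnePoint.coe_ne_infty _ hNinf
    have hdet : N 0 0 * N 1 1 ≠ 0 := by
      have h := N.det_ne_zero
      rw [Matrix.det_fin_two, hN10, mul_zero, sub_zero] at h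
      exact h
    have hN11 : N 1 1 ≠ 0 := right_ne_zero_of_mul hdet
    have hN00 : N 0 0 ≠ 0 := left_ne_zero_of_mul hdet
    have hNsome : ∀ z : k, mact N (z : OnePoint k) = (((N 0 0 * z + N 0 1) / N 1 1 : k) : OnePoint k) := by
      intro z
      rw [mact_some N z (by rw [hN10, zero_mul, zero_add]; exact hN11), hN10, zero_mul, zero_add]
    have heq : N 0 0 = N 1 1 := by
      by_contra hne
      have hne' : N 1 1 - N 0 0 ≠ 0 := sub_ne_zero.2 (Ne.symm hne)
      rcases hs' with h1 | h1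
      · rw [h1, mul_one, inv_mul_cancel] at hNm
        have h2 := hNsome 0
        have h3 := hNsome 1
        rw [hNm, Equiv.Perm.one_apply, OnePoint.coe_eq_coe] at h2 h3
        rw [eq_div_iff hN11] at h2 h3
        apply hne
        linear_combination h2 - h3
      · -- a second fixed point
        have h2 : mact N ((N 0 1 / (N 1 1 - N 0 0) : k) : OnePoint k) =
            ((N 0 1 / (N 1 1 - N 0 0) : k) : OnePoint k) := by
          rw [hNsome, OnePoint.coe_eq_coe, div_eq_iff hN11]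
          field_simp
          ring
        rw [hNm, Equiv.Perm.mul_apply, Equiv.Perm.mul_apply, Equiv.Perm.inv_eq_iff_eq, h1, ← hT] at h2
        exact OnePoint.coe_ne_infty _ ((mact T).injective h2)
    -- the translation
    have htr : mact N = mact (Vfin_tr (N 0 1 / N 1 1)) := by
      ext x
      induction x using OnePoint.rec with
      | infty => rw [hNinf, Vfin_tr_inf]
      | coe z =>
        rw [hNsome, Vfin_tr_some, OnePoint.coe_eq_coe, heq]
        field_simp
    refine ⟨N 0 1 / N 1 1, ?_, ?_⟩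
    · refine ⟨sub T u, ?_⟩
      have h1 := congrArg (sub T) hu
      rw [sub_sub, map_add, map_add, map_pow, hp1] at h1
      have h2 : M * T = T * N := by rw [hN]; group
      rw [h2, ← sub_sub, hp1, emb_poly, sub_X, hN10] at h1
      rw [← h1]
      have h3 : (RatFunc.C (N 0 0) * RatFunc.X + RatFunc.C (N 0 1)) /
          (RatFunc.C 0 * RatFunc.X + RatFunc.C (N 1 1)) =
          algebraMap k[X] (RatFunc k) (X + C (N 0 1 / N 1 1)) := by
        rw [heq, map_zero, zero_mul, zero_add, map_add, RatFunc.algebraMap_X, RatFunc.algebraMap_C,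
          map_div₀]
        have h4 : RatFunc.C (N 1 1) ≠ (0 : RatFunc k) := (_root_.map_ne_zero _).2 hN11
        field_simp
      rw [h3, Polynomial.aeval_algebraMap_apply]
      rfl
    · change mact T * mact (Vfin_tr (N 0 1 / N 1 1)) * (mact T)⁻¹ = s
      rw [← htr, hNm]
      group
  refine ⟨(hV1.image _).subset hsub, ?_⟩
  have h1 := (Set.ncard_le_ncard hsub (hV1.image _)).trans (Set.ncard_image_le hV1)
  exact h1.trans hV2

end Pool.Agent.Helper22.HB
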