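import Pool.Agent.Helper22.HB.Inv
import Pool.Agent.Helper22.HB.Tame
import Pool.Agent.Helper22.HB.Vfin
import Pool.Agent.Helper22.HB.Bound
import Pool.Agent.Helper22.HB.Triv

/-!
MP_143e28_ag, project HB (helper22): the bounds for `grp A B`.

`m = pol A B`, `grp_pol`, `grp_mob`.  `grp_tame` (from `tame`): `s ^ (pol P) ∈ uni` for `s ∈ stab`, `pol P ≠ 0`.  `pol_fin`: finitely many poles.
`grp_fin`: `#B ≥ 3`: `mob_finite`, `#B ≤ 2 g + 2`.  `#B = 2`: `uni (grp) P = {1}` for `P ∈ B` (as in `group_bound`), `bound_tame`.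
`#B = 1`: `pol P + 1 = 2 g + 2`, `uni_fin`, `stab_le`, `card_of_orb` (`orb = {P}`): `#G ≤ (2 g + 1) 4 g ^ 2`.
`grp_bound`: `group_bound` with `4 r = 2 g + 2`; `hc` from `triv` (`g = 2 r - 1` odd, `g ≥ 5`).
-/

set_option autoImplicit false

namespace Pool.Agent.Helper22.HB

open Polynomial OnePoint Pool.Agent.Helper28.HA

variable {k : Type*} [Field k]

theorem pol_fin {A B : k[X]} (hB : B ≠ 0) : {P : OnePoint k | pol A B P ≠ 0}.Finite := by
  classical
  refine ((B.roots.toFinset.finite_toSet.image (fun a : k => (a : OnePoint k))).insert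
    (∞ : OnePoint k)).subset ?_
  intro P hP
  induction P using OnePoint.rec with
  | infty => exact Set.mem_insert _ _
  | coe a =>
    refine Set.mem_insert_of_mem _ ⟨a, ?_, rfl⟩
    have h1 : B.rootMultiplicity a ≠ 0 := hP
    have h2 : B.IsRoot a := (rootMultiplicity_pos hB).1 (Nat.pos_of_ne_zero h1)
    rw [Finset.mem_coe, Multiset.mem_toFinset, mem_roots hB]
    exact h2

theorem grp_tame [CharP k 2] {A B : k[X]} (hc : IsCoprime A B) (hB : B ≠ 0)
    (hodd : ∀ P : OnePoint k, pol A B P ≠ 0 → Odd (pol A B P)) (P : OnePoint k)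
    (hP : pol A B P ≠ 0) : ∀ s ∈ stab (grp A B) P, s ^ (pol A B P) ∈ uni (grp A B) P := by
  rintro s ⟨hs, hsP⟩
  refine ⟨(grp A B).pow_mem hs _, ?_⟩
  obtain ⟨M, rfl, u, hu⟩ := hs
  exact tame hc hB hodd hu hsP hP

omit [Field k] in
private theorem Upper_card (m : OnePoint k → ℕ) (hf : {P | m P ≠ 0}.Finite) {N : ℕ}
    (hsum : ∑ᶠ P : OnePoint k, (if m P = 0 then 0 else m P + 1) = N) :
    Nat.card {P | m P ≠ 0} ≤ N := by
  rw [finsum_eq_sum_of_support_subset _ (s := hf.toFinset)] at hsum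
  · rw [Nat.card_coe_set_eq, Set.ncard_eq_toFinset_card _ hf, ← hsum, Finset.card_eq_sum_ones]
    refine Finset.sum_le_sum fun P hP => ?_
    rw [Set.Finite.mem_toFinset] at hP
    rw [if_neg hP]
    omega
  · intro P hP
    rw [Function.mem_support] at hP
    rw [Set.Finite.coe_toFinset]
    intro h
    apply hP
    rw [if_pos h]

omit [Field k] in
private theorem Upper_single (m : OnePoint k → ℕ) {N : ℕ}
    (hsum : ∑ᶠ P : OnePoint k, (if m P = 0 then 0 else m P + 1) = N) {P : OnePoint k}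
    (hP : m P ≠ 0) (h : ∀ Q, m Q ≠ 0 → Q = P) : m P + 1 = N := by
  rw [finsum_eq_single _ P] at hsum
  · rw [if_neg hP] at hsum
    exact hsum
  · intro Q hQ
    by_cases h0 : m Q = 0
    · rw [if_pos h0]
    · exact absurd (h Q h0) hQ

omit [Field k] in
private theorem Upper_ex (m : OnePoint k → ℕ) {N : ℕ}
    (hsum : ∑ᶠ P : OnePoint k, (if m P = 0 then 0 else m P + 1) = N) (hN : 0 < N) :
    ∃ P, m P ≠ 0 := by
  by_contra hcon
  push Not at hcon
  have h0 : ∑ᶠ P : OnePoint k, (if m P = 0 then 0 else m P + 1) = 0 := by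
    have h1 : (fun P : OnePoint k => if m P = 0 then 0 else m P + 1) = fun _ => 0 := by
      funext P
      rw [if_pos (hcon P)]
    rw [h1, finsum_zero]
  omega

theorem grp_fin [IsAlgClosed k] [CharP k 2] {A B : k[X]} (hc : IsCoprime A B) (hB : B ≠ 0)
    (hodd : ∀ P : OnePoint k, pol A B P ≠ 0 → Odd (pol A B P)) {g : ℕ} (hg2 : 2 ≤ g)
    (hsum : ∑ᶠ P : OnePoint k, (if pol A B P = 0 then 0 else pol A B P + 1) = 2 * g + 2) :
    Finite (grp A B) ∧ Nat.card (grp A B) ≤ (2 * g + 2) ^ 3 := by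
  have hf := pol_fin (A := A) hB
  have hm : ∀ s ∈ grp A B, ∀ P, pol A B (s P) = pol A B P :=
    fun s hs P => grp_pol hc hB hodd hs P
  have hG := grp_mob A B
  by_cases h3 : 3 ≤ Nat.card {P | pol A B P ≠ 0}
  · obtain ⟨h1, h2⟩ := mob_finite (grp A B) hG {P | pol A B P ≠ 0} hf h3 fun t ht R hR => by
      show pol A B (t R) ≠ 0
      rw [hm t ht R]
      exact hR
    exact ⟨h1, h2.trans (Nat.pow_le_pow_left (Upper_card _ hf hsum) 3)⟩
  obtain ⟨P, hP⟩ := Upper_ex _ hsum (by omega)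
  by_cases hu : ∀ s ∈ uni (grp A B) P, s = 1
  · obtain ⟨h1, h2⟩ := bound_tame (grp A B) hG _ hm hf hsum hP (grp_tame hc hB hodd P hP) hu
    refine ⟨h1, h2.le.trans ?_⟩
    exact Nat.le_self_pow (by norm_num) _
  push Not at hu
  obtain ⟨s, hs, hs1⟩ := hu
  have hfix : ∀ Q, s Q = Q ↔ Q = P := by
    rcases hs.2 with h | h
    · exact absurd h hs1
    · exact h
  have honly : ∀ Q, pol A B Q ≠ 0 → Q = P := by
    intro Q hQ
    by_contra hQP
    apply h3
    have hsQ : s Q ≠ Q := fun h => hQP ((hfix Q).1 h)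
    have hsQP : s Q ≠ P := by
      intro h
      have h2 : s P = P := (hfix P).2 rfl
      exact hQP (s.injective (h.trans h2.symm))
    have hsQB : pol A B (s Q) ≠ 0 := by
      rw [hm s hs.1 Q]
      exact hQ
    rw [Nat.card_coe_set_eq]
    have := (Set.two_lt_ncard_iff hf).2 ⟨P, Q, s Q, hP, hQ, hsQB, Ne.symm hQP, Ne.symm hsQP,
      Ne.symm hsQ⟩
    omega
  have hmP : pol A B P = 2 * g + 1 := by
    have := Upper_single _ hsum hP honly
    omega
  have hP' : ∀ Q, Q ≠ P → pol A B Q = 0 := by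
    intro Q hQ
    by_contra h
    exact hQ (honly Q h)
  obtain ⟨hu1, hu2⟩ := uni_fin hc hB hg2 hmP hP'
  obtain ⟨hs1', hs2'⟩ := stab_le (grp A B) hG P (Nat.pos_of_ne_zero hP) hu1
    (grp_tame hc hB hodd P hP)
  have horb : orb (grp A B) P = {P} := by
    ext Q
    rw [Set.mem_singleton_iff]
    constructor
    · rintro ⟨t, ht, rfl⟩
      apply honly
      rw [hm t ht P]
      exact hP
    · rintro rfl
      exact ⟨1, (grp A B).one_mem, rfl⟩
  obtain ⟨h1, h2⟩ := card_of_orb (grp A B) P (by rw [horb]; exact Set.finite_singleton _) hs1'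
  refine ⟨h1, ?_⟩
  rw [horb, Nat.card_coe_set_eq, Set.ncard_singleton, one_mul] at h2
  rw [← h2]
  refine hs2'.trans ?_
  rw [hmP]
  calc (2 * g + 1) * Nat.card (uni (grp A B) P) ≤ (2 * g + 1) * (4 * g ^ 2) :=
        Nat.mul_le_mul_left _ hu2
    _ ≤ (2 * g + 2) ^ 3 := by nlinarith [Nat.zero_le g]

theorem grp_bound [IsAlgClosed k] [CharP k 2] {A B : k[X]} (hc : IsCoprime A B) (hB : B ≠ 0)
    (hodd : ∀ P : OnePoint k, pol A B P ≠ 0 → Odd (pol A B P)) {g r : ℕ} (hr : r.Prime)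
    (hr3 : r % 4 = 3) (hg : g + 1 = 2 * r)
    (hsum : ∑ᶠ P : OnePoint k, (if pol A B P = 0 then 0 else pol A B P + 1) = 2 * g + 2) :
    Nat.card (grp A B) ≤ 2 * g + 1 := by
  have hr2 : 3 ≤ r := by
    have := hr.two_le
    omega
  have hsum' : ∑ᶠ P : OnePoint k, (if pol A B P = 0 then 0 else pol A B P + 1) = 4 * r := by
    rw [hsum]
    omega
  obtain ⟨-, h2⟩ := group_bound (grp A B) (grp_mob A B) (pol A B)
    (fun s hs P => grp_pol hc hB hodd hs P) (pol_fin hB) hr hr3 hsum'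
    (fun P hP => grp_tame hc hB hodd P hP) (by
      intro P hP honly s hs
      rcases hs.2 with h | h
      · exact h
      · exfalso
        obtain ⟨M, hM, u, hu⟩ := hs.1
        have hmP : pol A B P = 2 * g + 1 := by
          have := Upper_single _ hsum hP honly
          omega
        have hP' : ∀ Q, Q ≠ P → pol A B Q = 0 := by
          intro Q hQ
          by_contra h0
          exact hQ (honly Q h0)
        have hgodd : Odd g := by
          rw [Nat.odd_iff]
          omega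
        refine triv hc hB hgodd (by omega) hmP hP' hu ?_
        intro Q
        rw [← hM]
        exact h Q)
  omega

end Pool.Agent.Helper22.HB
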